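import Pool.Agent.Mg.F3fd310a.G7c88c3

section

set_option autoImplicit false
set_option linter.unusedSectionVars false

namespace Pool.Agent.MP_3fd310_co

variable {ι : Type*} [DecidableEq ι] [Finite ι]

section defs
variable (δ : ι → ℝ) (lo hi : ℝ) (c d : ι) (R : List ι) (B : Finset ι)

def SU (Y : Finset ι) : Prop :=
  InC B R Y ∧ W δ Y < lo ∧ lo ≤ W δ Y + δ c ∧ hi < W δ Y + δ d

def SD (Y : Finset ι) : Prop :=
  InC B R Y ∧ W δ Y + δ c < lo ∧ W δ Y + δ d ≤ hi ∧ hi < W δ Y + δ c + δ d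

def TW (Y : Finset ι) : Prop := InC B R Y ∧ W δ Y + δ c < lo ∧ hi < W δ Y + δ d

structure St (x z : Vx ι) (L : List (Vx ι)) : Prop where
  hp : HP (Adj δ lo hi) (fun v => v ∈ L) x z L
  sub : ∀ v ∈ L, IsV δ lo hi B (c :: d :: R) v
  v0 : ∀ v, IsV δ lo hi B (c :: R) v → v ∈ L
  v1 : ∀ v, IsV δ lo hi (insert d B) (c :: R) v → v ∈ L
  tw : ∀ Y, TW δ lo hi c d R B Y → ((Y, some d) ∈ L ↔ (insert c Y, some d) ∈ L)
  ir : IR δ lo hi c (d :: R) B L
  iu : IU δ lo hi c (d :: R) B L
  id : ID δ lo hi c (d :: R) B L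
  cl : Tri δ lo hi c L ∨ Even L.length ∨ (∃ Y, SU δ lo hi c d R B Y ∧ (Y, some d) ∉ L) ∨
    ∃ Y, SD δ lo hi c d R B Y ∧ (insert c Y, some d) ∉ L

structure ZI : Prop extends ZH δ lo hi c (d :: R) B where
  nt : lo ≤ W δ (tp B R)
  nb : W δ B + δ c + δ d ≤ hi

end defs

variable {δ : ι → ℝ} {lo hi : ℝ} {c d : ι} {R : List ι} {B : Finset ι}

theorem up_cross {S X : Finset ι} {k : ι} (h : Up δ lo hi S (X, some k)) : X = S := by
  obtain ⟨j, _, ⟨_, e⟩ | ⟨_, _, e⟩⟩ := h
  · exact (Prod.mk.inj e).1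
  · simp at e

theorem dn_cross {T X : Finset ι} {k : ι} (h : Dn δ lo hi T (X, some k)) :
    X = T.erase k ∧ k ∈ T := by
  obtain ⟨j, hj, ⟨_, e⟩ | ⟨_, _, e⟩⟩ := h
  · obtain rfl : k = j := by simpa using (Prod.mk.inj e).2
    exact ⟨(Prod.mk.inj e).1, hj⟩
  · simp at e

theorem rung_not_up {S X : Finset ι} {k : ι} (hc : c ∉ X) (h : Up δ lo hi S (X, some k))
    (h' : Up δ lo hi S (insert c X, some k)) : False := by
  have := (up_cross h).trans (up_cross h').symm
  exact hc (this ▸ Finset.mem_insert_self c X)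

theorem rung_not_dn {S X : Finset ι} {k : ι} (hc : c ∉ X) (h : Dn δ lo hi S (X, some k))
    (h' : Dn δ lo hi S (insert c X, some k)) : False := by
  have := (dn_cross h).1.trans (dn_cross h').1.symm
  exact hc (this ▸ Finset.mem_insert_self c X)

theorem ZI.cd (H : ZI δ lo hi c d R B) : c ≠ d := by
  have := H.cR; rintro rfl; simp at this
theorem ZI.cR' (H : ZI δ lo hi c d R B) : c ∉ R := fun h => H.cR (by simp [h])
theorem ZI.dR (H : ZI δ lo hi c d R B) : d ∉ R := (List.nodup_cons.1 H.fr.1).1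
theorem ZI.dB (H : ZI δ lo hi c d R B) : d ∉ B := H.fr.2 d (by simp)
theorem ZI.lcd (H : ZI δ lo hi c d R B) : δ c ≤ δ d := H.le d (by simp)
theorem ZI.ld (H : ZI δ lo hi c d R B) {k : ι} (h : k ∈ R) : δ d ≤ δ k :=
  (List.pairwise_cons.1 H.so).1 k h
theorem ZI.RB (H : ZI δ lo hi c d R B) {k : ι} (h : k ∈ R) : k ∉ B := H.fr.2 k (by simp [h])
theorem ZI.cX (H : ZI δ lo hi c d R B) {X : Finset ι} (h : InC B R X) : c ∉ X :=
  fun hc => (h.2 c hc).elim H.cB H.cR'
theorem ZI.dX (H : ZI δ lo hi c d R B) {X : Finset ι} (h : InC B R X) : d ∉ X :=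
  fun hc => (h.2 d hc).elim H.dB H.dR
theorem ZI.cX' (H : ZI δ lo hi c d R B) {X : Finset ι} (h : InC B (d :: R) X) : c ∉ X :=
  fun hc => (h.2 c hc).elim H.cB H.cR

theorem ZI.child0 (H : ZI δ lo hi c d R B) : ZH δ lo hi c R B :=
  ⟨H.pos, H.lh, H.cB, H.cR', ⟨(List.nodup_cons.1 H.fr.1).2, fun _ h => H.RB h⟩,
    fun k h => H.le k (by simp [h]), (List.pairwise_cons.1 H.so).2,
    H.tP.mono (fun _ h => h) (fun _ h => Or.inl h) (by simp; tauto), H.n1, H.nt⟩

theorem ZI.child1 (H : ZI δ lo hi c d R B) : ZH δ lo hi c R (insert d B) :=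
  ⟨H.pos, H.lh, by simp [H.cB, H.cd], H.cR', H.fr.tail,
    fun k h => H.le k (by simp [h]), (List.pairwise_cons.1 H.so).2,
    H.tP.mono (by simp; tauto) (by simp; tauto) (by simp; tauto),
    by rw [W_insert H.dB]; linarith [H.nb], by rw [← tp_cons]; exact H.n2⟩

theorem isV_mono {B B' : Finset ι} {R R' : List ι} {v : Vx ι} (h : IsV δ lo hi B R v)
    (h1 : ∀ i ∈ B', i ∈ B) (h2 : ∀ i ∈ B, i ∈ B' ∨ i ∈ R') (h3 : ∀ i ∈ R, i ∈ R') :
    IsV δ lo hi B' R' v := by
  refine ⟨h.1.mono h1 h2 h3, ?_⟩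
  rcases h.2 with h | ⟨k, a1, a2, a3⟩
  · exact Or.inl h
  · exact Or.inr ⟨k, a1, h3 k a2, a3⟩

theorem isV_par0 {v : Vx ι} (h : IsV δ lo hi B (c :: R) v) : IsV δ lo hi B (c :: d :: R) v :=
  isV_mono h (fun _ h => h) (fun _ h => Or.inl h) (by simp; tauto)

theorem isV_par1 {v : Vx ι} (h : IsV δ lo hi (insert d B) (c :: R) v) :
    IsV δ lo hi B (c :: d :: R) v :=
  isV_mono h (by simp; tauto) (by simp; tauto) (by simp; tauto)

theorem ZI.not_child (H : ZI δ lo hi c d R B) {B' X : Finset ι}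
    (h : IsV δ lo hi B' (c :: R) (X, some d)) : False := by
  rcases h.2 with ⟨h, _⟩ | ⟨k, a1, a2, _⟩
  · simp at h
  · obtain rfl : d = k := by simpa using a1
    rcases List.mem_cons.1 a2 with h | h
    · exact H.cd h.symm
    · exact H.dR h

theorem ZI.midV0 (H : ZI δ lo hi c d R B) {Y : Finset ι} (h : InC B R Y) (h1 : W δ Y < lo)
    (h2 : hi < W δ Y + δ d) : IsV δ lo hi B (c :: d :: R) (Y, some d) :=
  ⟨h.mono (fun _ h => h) (fun _ h => Or.inl h) (by simp; tauto),
    Or.inr ⟨d, rfl, by simp, H.dX h, h1, h2⟩⟩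

theorem ZI.midV1 (H : ZI δ lo hi c d R B) {Y : Finset ι} (h : InC B R Y) (h1 : W δ Y + δ c < lo)
    (h2 : hi < W δ Y + δ c + δ d) : IsV δ lo hi B (c :: d :: R) (insert c Y, some d) :=
  ⟨(h.mono (fun _ h => h) (fun _ h => Or.inl h) (by simp; tauto)).insert (by simp),
    Or.inr ⟨d, rfl, by simp, by simp [H.dX h, H.cd.symm], by simpa [W_insert (H.cX h)] using h1,
      by simpa [W_insert (H.cX h)] using h2⟩⟩

theorem ZI.cover (H : ZI δ lo hi c d R B) {v : Vx ι} (h : IsV δ lo hi B (c :: d :: R) v) :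
    IsV δ lo hi B (c :: R) v ∨ IsV δ lo hi (insert d B) (c :: R) v ∨
      (∃ Y, TW δ lo hi c d R B Y ∧ (v = (Y, some d) ∨ v = (insert c Y, some d))) ∨
      (∃ Y, SU δ lo hi c d R B Y ∧ v = (Y, some d)) ∨
      (∃ Y, SD δ lo hi c d R B Y ∧ v = (insert c Y, some d)) := by
  obtain ⟨X, o⟩ := v
  obtain ⟨cX, hv⟩ := h
  simp only at cX hv
  by_cases hd : d ∈ X
  · right; left
    refine ⟨by unfold InC at *; grind, ?_⟩
    rcases hv with h | ⟨k, a1, a2, a3, a4⟩
    · exact Or.inl h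
    · exact Or.inr ⟨k, a1, by grind, a3, a4⟩
  have c0 : InC B (c :: R) X := by unfold InC at *; grind
  rcases hv with h | ⟨k, rfl, a2, a3, a4, a5⟩
  · exact Or.inl ⟨c0, Or.inl h⟩
  by_cases e : k = d
  · subst e
    right; right
    by_cases hc : c ∈ X
    · obtain ⟨Y, hY, rfl⟩ : ∃ Y, c ∉ Y ∧ X = insert c Y :=
        ⟨X.erase c, by simp, (Finset.insert_erase hc).symm⟩
      have cY : InC B R Y := by
        have := H.cB
        unfold InC at *; grind
      rw [W_insert hY] at a4 a5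
      by_cases b : hi < W δ Y + δ k
      · exact Or.inl ⟨Y, ⟨cY, a4, b⟩, Or.inr rfl⟩
      · exact Or.inr (Or.inr ⟨Y, ⟨cY, a4, not_lt.1 b, a5⟩, rfl⟩)
    · have cY : InC B R X := by unfold InC at *; grind
      by_cases b : W δ X + δ c < lo
      · exact Or.inl ⟨X, ⟨cY, b, a5⟩, Or.inl rfl⟩
      · exact Or.inr (Or.inl ⟨X, ⟨cY, a4, not_lt.1 b, a5⟩, rfl⟩)
  · exact Or.inl ⟨c0, Or.inr ⟨k, rfl, by grind, a3, a4, a5⟩⟩

theorem ZI.ex_out (H : ZI δ lo hi c d R B) {Y : Finset ι} (h : InC B R Y) (h1 : W δ Y < lo) :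
    ∃ k ∈ R, k ∉ Y := by
  by_contra hn
  push Not at hn
  have : W δ (tp B R) ≤ W δ Y := W_mono H.pos (fun i hi => (mem_tp.1 hi).elim (h.1 i) (hn i))
  linarith [H.nt]

theorem ZI.ex_in (H : ZI δ lo hi c d R B) {Y : Finset ι} (h : InC B R Y)
    (h1 : hi < W δ Y + δ c + δ d) : ∃ k ∈ R, k ∈ Y := by
  by_contra hn
  push Not at hn
  have : W δ Y ≤ W δ B := W_mono H.pos (fun i hi => (h.2 i hi).resolve_right (fun h' => hn i h' hi))
  linarith [H.nb]

theorem inc_par {Y : Finset ι} (h : InC B R Y) : InC B (d :: R) Y :=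
  h.mono (fun _ h => h) (fun _ h => Or.inl h) (by simp; tauto)

theorem St.ins {x z u v m m' : Vx ι} {L M : List (Vx ι)} (h : St δ lo hi c d R B x z L)
    (e : SInf [u, v] L) (hM : HP (Adj δ lo hi) (fun w => w ∈ M) m m' M) (a1 : Adj δ lo hi u m)
    (a2 : Adj δ lo hi m' v) (dj : ∀ w ∈ M, w ∉ L) :
    ∃ L', HP (Adj δ lo hi) (fun w => w ∈ L') x z L' ∧ (∀ w, w ∈ L' ↔ w ∈ L ∨ w ∈ M) ∧
      (∀ t, SInf t L → SInf t L' ∨ (u ∈ t ∧ v ∈ t)) ∧
      SInf (u :: (M ++ [v])) L' ∧ L'.length = L.length + M.length := by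
  obtain ⟨L', h1, h2, h3, h4⟩ := h.hp.insert (adj_symm _ _ _) e hM a1 a2 (fun w hw hw' => dj w hw' hw)
  refine ⟨L', h1.congr (fun w => (h1.cov w).symm), h1.cov, fun t ht => ?_, h3, h4⟩
  rcases h2 t ht with h5 | h5
  · exact Or.inl h5
  · exact Or.inr ⟨h5.mem (by simp), h5.mem (by simp)⟩

theorem ZI.step_tw (H : ZI δ lo hi c d R B) {x z : Vx ι} {L : List (Vx ι)}
    (h : St δ lo hi c d R B x z L) {Y : Finset ι} (hY : TW δ lo hi c d R B Y)
    (hn : (Y, some d) ∉ L) : ∃ L', St δ lo hi c d R B x z L' ∧ L.length < L'.length := by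
  have hn' : (insert c Y, some d) ∉ L := fun h' => hn ((h.tw Y hY).2 h')
  obtain ⟨cY, y1, y2⟩ := hY
  have pc := H.pos c
  have pd := H.pos d
  have hc := H.cX cY
  have hd := H.dX cY
  have wc := W_insert (δ := δ) hc
  have allp : ∀ k ∈ d :: R, k ∉ Y → hi < W δ Y + δ k := by
    intro k hk _
    rcases List.mem_cons.1 hk with rfl | hk
    · exact y2
    · linarith [H.ld hk]
  obtain ⟨k, k1, k2, e⟩ := h.ir Y (inc_par cY) y1 allp ⟨d, by simp, hd⟩
  have kd : k ≠ d := by rintro rfl; exact hn (e.mem (by simp))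
  have kc : k ≠ c := by rintro rfl; exact H.cR k1
  have pk := H.pos k
  have k3 := allp k k1 k2
  have ne : (Y, some d) ≠ (insert c Y, some d) := by
    intro h; exact hc ((Prod.mk.inj h).1 ▸ Finset.mem_insert_self c Y)
  have pM := (HP.single (Adj δ lo hi) (Y, some d)).append (HP.single _ (insert c Y, some d))
    ⟨Y, d, c, H.cd.symm, hd, hc, by linarith, by linarith, (pt_pos y2).symm,
      (pt_neg H.lh y1).symm⟩ (by rintro v rfl h; exact ne h)
  obtain ⟨L', p1, p2, p3, p4, p5⟩ := h.ins (M := [(Y, some d), (insert c Y, some d)]) e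
    (pM.congr (by simp))
    ⟨Y, k, d, kd, k2, hd, by linarith, by linarith, (pt_pos k3).symm, (pt_pos y2).symm⟩
    ⟨insert c Y, d, k, kd.symm, by simp [hd, H.cd.symm], by simp [k2, kc], by linarith,
      by linarith, (pt_pos (by linarith)).symm, (pt_pos (by linarith)).symm⟩
    (by simp [hn, hn'])
  simp only [List.mem_cons, List.not_mem_nil, or_false] at p2
  refine ⟨L', ⟨p1, ?_, fun v hv => (p2 v).2 (Or.inl (h.v0 v hv)),
    fun v hv => (p2 v).2 (Or.inl (h.v1 v hv)), ?_, ?_, ?_, ?_, ?_⟩, by rw [p5]; simp⟩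
  · intro v hv
    rcases (p2 v).1 hv with hv | rfl | rfl
    · exact h.sub v hv
    · exact H.midV0 cY (by linarith) y2
    · exact H.midV1 cY y1 (by linarith)
  · intro Z hZ
    have cZ := H.cX hZ.1
    rw [p2, p2, h.tw Z hZ]
    have e1 : ((Z, some d) : Vx ι) ≠ (insert c Y, some d) := by
      intro h; exact cZ ((Prod.mk.inj h).1 ▸ Finset.mem_insert_self c Y)
    have e2 : ((insert c Z, some d) : Vx ι) ≠ (Y, some d) := by
      intro h; exact hc ((Prod.mk.inj h).1 ▸ Finset.mem_insert_self c Z)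
    have e3 : ((Z, some d) : Vx ι) = (Y, some d) ↔
        ((insert c Z, some d) : Vx ι) = (insert c Y, some d) := by
      simp only [Prod.mk.injEq, and_true]
      exact ⟨fun h => h ▸ rfl, same_face cZ hc⟩
    simp only [e1, e2, e3, or_false, false_or]
  · intro S a1 a2 a3 a4
    obtain ⟨j, b1, b2, b3⟩ := h.ir S a1 a2 a3 a4
    rcases p3 _ b3 with b4 | ⟨b4, _⟩
    · exact ⟨j, b1, b2, b4⟩
    · have : Y = S := by
        simp only [List.mem_cons, Prod.mk.injEq, List.not_mem_nil, or_false] at b4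
        rcases b4 with b4 | b4
        · exact b4.1
        · exact absurd (b4.1 ▸ Finset.mem_insert_self c S) hc
      subst this
      exact ⟨d, by simp, hd, (SInf.of_infix ⟨[(Y, some k)], [(insert c Y, some k)], by simp⟩).trans p4⟩
  · intro S a1 a2 a3 a4 j a5 a6 a7
    have uj : Up δ lo hi S (S, some j) := ⟨j, a6, Or.inl ⟨a4 j a5 a6, rfl⟩⟩
    rcases (p2 _).1 a7 with a8 | a8 | a8
    · obtain ⟨f, b1, b2⟩ := h.iu S a1 a2 a3 a4 j a5 a6 a8
      rcases p3 _ b2 with b4 | ⟨b4, b5⟩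
      · exact ⟨f, b1, b4⟩
      · exfalso
        have K : ∀ w ∈ [(S, some j), f], Up δ lo hi S w := by simp [uj, b1]
        exact rung_not_up hc (K _ b4) (K _ b5)
    · obtain rfl : S = Y := (Prod.mk.inj a8).1
      linarith
    · exact absurd ((Prod.mk.inj a8).1 ▸ Finset.mem_insert_self c Y) (H.cX' a1)
  · intro S a1 a2 a3 a4 j a5 a6 a7
    have cS := H.cX' a1
    have jc : j ≠ c := by rintro rfl; exact H.cR a5
    have uj : Dn δ lo hi (insert c S) ((insert c S).erase j, some j) :=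
      ⟨j, by simp [a6], Or.inl ⟨by rw [W_insert cS]; exact a4 j a5 a6, rfl⟩⟩
    rcases (p2 _).1 a7 with a8 | a8 | a8
    · obtain ⟨f, b1, b2⟩ := h.id S a1 a2 a3 a4 j a5 a6 a8
      rcases p3 _ b2 with b4 | ⟨b4, b5⟩
      · exact ⟨f, b1, b4⟩
      · exfalso
        have K : ∀ w ∈ [((insert c S).erase j, some j), f], Dn δ lo hi (insert c S) w := by
          simp [uj, b1]
        exact rung_not_dn hc (K _ b4) (K _ b5)
    · exfalso
      apply hc
      rw [← (Prod.mk.inj a8).1]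
      simp [jc.symm]
    · exfalso
      obtain rfl : j = d := by simpa using (Prod.mk.inj a8).2
      have := congrArg (W δ) (Prod.mk.inj a8).1
      rw [W_erase (by simp [a6]), W_insert cS, wc] at this
      linarith
  · rcases h.cl with ⟨p, y, q, t1, t2⟩ | h' | ⟨Z, z1, z2⟩ | ⟨Z, z1, z2⟩
    · left
      rcases p3 _ t1 with b4 | ⟨b4, b5⟩
      · exact ⟨p, y, q, b4, t2⟩
      · exfalso
        rcases t2 with ⟨S, _, _, _, s1, s2, s3⟩ | ⟨S, _, _, _, s1, s2, s3⟩
        · have K : ∀ w ∈ [p, y, q], Up δ lo hi S w := by simp [s1, s2, s3]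
          exact rung_not_up hc (K _ b4) (K _ b5)
        · have K : ∀ w ∈ [p, y, q], Dn δ lo hi S w := by simp [s1, s2, s3]
          exact rung_not_dn hc (K _ b4) (K _ b5)
    · right; left
      rw [p5]; exact h'.add even_two
    · right; right; left
      refine ⟨Z, z1, ?_⟩
      rw [p2]
      rintro (a | a | a)
      · exact z2 a
      · obtain rfl : Z = Y := (Prod.mk.inj a).1
        linarith [z1.2.2.1]
      · exact absurd ((Prod.mk.inj a).1 ▸ Finset.mem_insert_self c Y) (H.cX z1.1)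
    · right; right; right
      refine ⟨Z, z1, ?_⟩
      rw [p2]
      rintro (a | a | a)
      · exact z2 a
      · exact hc ((Prod.mk.inj a).1 ▸ Finset.mem_insert_self c Z)
      · obtain rfl : Z = Y := same_face (H.cX z1.1) hc (Prod.mk.inj a).1
        linarith [z1.2.2.1]

theorem ZI.step_su (H : ZI δ lo hi c d R B) {x z : Vx ι} {L : List (Vx ι)}
    (h : St δ lo hi c d R B x z L) {Y : Finset ι} (hY : SU δ lo hi c d R B Y)
    (hn : (Y, some d) ∉ L) : ∃ L', St δ lo hi c d R B x z L' ∧ L.length < L'.length := by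
  obtain ⟨cY, y1, y3, y2⟩ := hY
  have pc := H.pos c
  have pd := H.pos d
  have hc := H.cX cY
  have hd := H.dX cY
  have allp : ∀ k ∈ d :: R, k ∉ Y → hi < W δ Y + δ k := by
    intro k hk _
    rcases List.mem_cons.1 hk with rfl | hk
    · exact y2
    · linarith [H.ld hk]
  obtain ⟨k, k1, k2⟩ := H.ex_out cY y1
  have k3 := allp k (by simp [k1]) k2
  have kL : (Y, some k) ∈ L := h.v0 _ ⟨inc_par cY, Or.inr ⟨k, rfl, by simp [k1], k2, y1, k3⟩⟩
  obtain ⟨f, uf, e⟩ := h.iu Y (inc_par cY) y1 y3 allp k (by simp [k1]) k2 kL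
  have fL : f ∈ L := e.mem (by simp)
  have uk : Up δ lo hi Y (Y, some k) := ⟨k, k2, Or.inl ⟨k3, rfl⟩⟩
  have um : Up δ lo hi Y (Y, some d) := ⟨d, hd, Or.inl ⟨y2, rfl⟩⟩
  have vm := H.midV0 cY y1 y2
  obtain ⟨L', p1, p2, p3, p4, p5⟩ := h.ins (M := [(Y, some d)]) e
    ((HP.single _ (Y, some d)).congr (by simp))
    (up_adj H.pos H.tP (h.sub _ kL) vm y1 uk um (by rintro e; exact hn (e ▸ kL)))
    (up_adj H.pos H.tP vm (h.sub _ fL) y1 um uf (by rintro e; exact hn (e ▸ fL)))
    (by simp [hn])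
  simp only [List.mem_cons, List.not_mem_nil, or_false] at p2
  have q1 : SInf [(Y, some k), (Y, some d)] L' := (SInf.of_infix ⟨[], [f], by simp⟩).trans p4
  have q2 : SInf [(Y, some d), f] L' := (SInf.of_infix ⟨[(Y, some k)], [], by simp⟩).trans p4
  have pair : ∀ a b : Vx ι, a ≠ b → (Y, some k) ∈ [a, b] → f ∈ [a, b] →
      (a = (Y, some k) ∧ b = f) ∨ (a = f ∧ b = (Y, some k)) := by
    intro a b _ h1 h2
    have : (Y, some k) ≠ f := by
      intro e'
      rw [← e'] at e
      have nd := h.hp.nd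
      rcases e with e | e <;> simpa using nd.sublist e.sublist
    simp only [List.mem_cons, List.not_mem_nil, or_false] at h1 h2
    clear * - h1 h2 this
    grind
  refine ⟨L', ⟨p1, ?_, fun v hv => (p2 v).2 (Or.inl (h.v0 v hv)),
    fun v hv => (p2 v).2 (Or.inl (h.v1 v hv)), ?_, ?_, ?_, ?_, ?_⟩, by rw [p5]; simp⟩
  · intro v hv
    rcases (p2 v).1 hv with hv | rfl
    · exact h.sub v hv
    · exact vm
  · intro Z hZ
    rw [p2, p2, h.tw Z hZ]
    have e1 : ((Z, some d) : Vx ι) ≠ (Y, some d) := by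
      intro h
      obtain rfl : Z = Y := (Prod.mk.inj h).1
      linarith [hZ.2.1]
    have e2 : ((insert c Z, some d) : Vx ι) ≠ (Y, some d) := by
      intro h; exact hc ((Prod.mk.inj h).1 ▸ Finset.mem_insert_self c Z)
    simp only [e1, e2, or_false]
  · intro S a1 a2 a3 a4
    obtain ⟨j, b1, b2, b3⟩ := h.ir S a1 a2 a3 a4
    rcases p3 _ b3 with b4 | ⟨b4, b5⟩
    · exact ⟨j, b1, b2, b4⟩
    · exfalso
      have cS := H.cX' a1
      rcases pair _ _ (by intro h; exact cS ((Prod.mk.inj h).1 ▸ Finset.mem_insert_self c S)) b4 b5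
        with ⟨e1, e2⟩ | ⟨e1, e2⟩
      · exact rung_not_up cS (e1 ▸ uk) (e2 ▸ uf)
      · exact rung_not_up cS (e1 ▸ uf) (e2 ▸ uk)
  · intro S a1 a2 a3 a4 j a5 a6 a7
    rcases (p2 _).1 a7 with a8 | a8
    · obtain ⟨g, b1, b2⟩ := h.iu S a1 a2 a3 a4 j a5 a6 a8
      rcases p3 _ b2 with b4 | ⟨b4, b5⟩
      · exact ⟨g, b1, b4⟩
      · have : (S, some j) ≠ g := by
          intro e'
          rw [← e'] at b2
          have nd := h.hp.nd
          rcases b2 with e | e <;> simpa using nd.sublist e.sublist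
        rcases pair _ _ this b4 b5 with ⟨e1, _⟩ | ⟨e1, _⟩
        · obtain rfl : S = Y := (Prod.mk.inj e1).1
          exact ⟨_, um, e1 ▸ q1⟩
        · obtain rfl : S = Y := up_cross (e1 ▸ uf)
          exact ⟨_, um, e1 ▸ q2.symm2⟩
    · obtain rfl : S = Y := (Prod.mk.inj a8).1
      exact ⟨f, uf, a8 ▸ q2⟩
  · intro S a1 a2 a3 a4 j a5 a6 a7
    have jc : j ≠ c := by rintro rfl; exact H.cR a5
    have cj : c ∈ (insert c S).erase j := by simp [jc.symm]
    rcases (p2 _).1 a7 with a8 | a8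
    · obtain ⟨g, b1, b2⟩ := h.id S a1 a2 a3 a4 j a5 a6 a8
      rcases p3 _ b2 with b4 | ⟨b4, b5⟩
      · exact ⟨g, b1, b4⟩
      · exfalso
        have : ((insert c S).erase j, some j) ≠ g := by
          intro e'
          rw [← e'] at b2
          have nd := h.hp.nd
          rcases b2 with e | e <;> simpa using nd.sublist e.sublist
        rcases pair _ _ this b4 b5 with ⟨e1, _⟩ | ⟨e1, _⟩
        · exact hc ((Prod.mk.inj e1).1 ▸ cj)
        · exact hc (up_cross (e1 ▸ uf) ▸ cj)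
    · exact absurd ((Prod.mk.inj a8).1 ▸ cj) hc
  · exact Or.inl ⟨_, _, _, p4, Or.inl ⟨Y, hc, y1, y3, uk, um, uf⟩⟩

theorem ZI.step_sd (H : ZI δ lo hi c d R B) {x z : Vx ι} {L : List (Vx ι)}
    (h : St δ lo hi c d R B x z L) {Y : Finset ι} (hY : SD δ lo hi c d R B Y)
    (hn : (insert c Y, some d) ∉ L) : ∃ L', St δ lo hi c d R B x z L' ∧ L.length < L'.length := by
  obtain ⟨cY, y1, y3, y2⟩ := hY
  have pc := H.pos c
  have pd := H.pos d
  have hc := H.cX cY
  have hd := H.dX cY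
  have cd := H.cd
  have wd := W_insert (δ := δ) hd
  have cS : InC B (d :: R) (insert d Y) := (inc_par cY).insert (by simp)
  have hc' := H.cX' cS
  have wT : W δ (insert c (insert d Y)) = W δ Y + δ d + δ c := by rw [W_insert hc', wd]
  have alln : ∀ j ∈ d :: R, j ∈ insert d Y → W δ (insert d Y) + δ c - δ j < lo := by
    intro k hk _
    rcases List.mem_cons.1 hk with rfl | hk
    · linarith
    · linarith [H.ld hk]
  obtain ⟨k, k1, k2⟩ := H.ex_in cY y2
  have kc : k ≠ c := by rintro rfl; exact hc k2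
  have kd : k ≠ d := by rintro rfl; exact hd k2
  have k3 := alln k (by simp [k1]) (by simp [k2])
  have kT : k ∈ insert c (insert d Y) := by simp [k2]
  have kL : ((insert c (insert d Y)).erase k, some k) ∈ L := by
    refine h.v1 _ ⟨?_, Or.inr ⟨k, rfl, by simp [k1], by simp, ?_, ?_⟩⟩
    · have := H.RB k1
      clear * - this cY kd
      unfold InC at *; grind
    · simp only [W_erase kT]; linarith
    · simp only [W_erase kT]; linarith
  obtain ⟨f, uf, e⟩ := h.id (insert d Y) cS (by linarith) (by linarith) alln k (by simp [k1])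
    (by simp [k2]) kL
  have fL : f ∈ L := e.mem (by simp)
  have em : (insert c (insert d Y)).erase d = insert c Y := by
    ext i; simp only [Finset.mem_erase, Finset.mem_insert]; clear * - hd cd; grind
  have uk : Dn δ lo hi (insert c (insert d Y)) ((insert c (insert d Y)).erase k, some k) :=
    ⟨k, kT, Or.inl ⟨by linarith, rfl⟩⟩
  have um : Dn δ lo hi (insert c (insert d Y)) (insert c Y, some d) :=
    ⟨d, by simp, Or.inl ⟨by linarith, by rw [em]⟩⟩
  have vm := H.midV1 cY y1 y2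
  have hT : hi < W δ (insert c (insert d Y)) := by linarith
  have cT : c ∈ insert c (insert d Y) := by simp
  have hT' : W δ (insert c (insert d Y)) - δ c ≤ hi := by linarith
  generalize insert c (insert d Y) = T at kL uf e uk um hT cT hT' em kT
  obtain ⟨L', p1, p2, p3, p4, p5⟩ := h.ins (M := [(insert c Y, some d)]) e
    ((HP.single _ (insert c Y, some d)).congr (by simp))
    (dn_adj H.pos H.lh H.tP (h.sub _ kL) vm hT uk um (by rintro e; exact hn (e ▸ kL)))
    (dn_adj H.pos H.lh H.tP vm (h.sub _ fL) hT um uf (by rintro e; exact hn (e ▸ fL)))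
    (by simp [hn])
  simp only [List.mem_cons, List.not_mem_nil, or_false] at p2
  have q1 : SInf [(T.erase k, some k), (insert c Y, some d)] L' :=
    (SInf.of_infix ⟨[], [f], by simp⟩).trans p4
  have q2 : SInf [(insert c Y, some d), f] L' :=
    (SInf.of_infix ⟨[(T.erase k, some k)], [], by simp⟩).trans p4
  have pair : ∀ a b : Vx ι, a ≠ b → (T.erase k, some k) ∈ [a, b] → f ∈ [a, b] →
      (a = (T.erase k, some k) ∧ b = f) ∨ (a = f ∧ b = (T.erase k, some k)) := by
    intro a b _ h1 h2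
    have : (T.erase k, some k) ≠ f := by
      intro e'
      rw [← e'] at e
      have nd := h.hp.nd
      rcases e with e | e <;> simpa using nd.sublist e.sublist
    simp only [List.mem_cons, List.not_mem_nil, or_false] at h1 h2
    clear * - h1 h2 this
    grind
  have idT : ∀ (S : Finset ι) (j : ι), j ∈ S →
      Dn δ lo hi T ((insert c S).erase j, some j) → insert c S = T := by
    intro S j hj hD
    obtain ⟨e1, e2⟩ := dn_cross hD
    rw [← Finset.insert_erase e2, ← e1, Finset.insert_erase (by simp [hj])]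
  refine ⟨L', ⟨p1, ?_, fun v hv => (p2 v).2 (Or.inl (h.v0 v hv)),
    fun v hv => (p2 v).2 (Or.inl (h.v1 v hv)), ?_, ?_, ?_, ?_, ?_⟩, by rw [p5]; simp⟩
  · intro v hv
    rcases (p2 v).1 hv with hv | rfl
    · exact h.sub v hv
    · exact vm
  · intro Z hZ
    rw [p2, p2, h.tw Z hZ]
    have e1 : ((Z, some d) : Vx ι) ≠ (insert c Y, some d) := by
      intro h; exact H.cX hZ.1 ((Prod.mk.inj h).1 ▸ Finset.mem_insert_self c Y)
    have e2 : ((insert c Z, some d) : Vx ι) ≠ (insert c Y, some d) := by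
      intro h
      obtain rfl : Z = Y := same_face (H.cX hZ.1) hc (Prod.mk.inj h).1
      linarith [hZ.2.2]
    simp only [e1, e2, or_false]
  · intro S a1 a2 a3 a4
    obtain ⟨j, b1, b2, b3⟩ := h.ir S a1 a2 a3 a4
    rcases p3 _ b3 with b4 | ⟨b4, b5⟩
    · exact ⟨j, b1, b2, b4⟩
    · exfalso
      have cS := H.cX' a1
      rcases pair _ _ (by intro h; exact cS ((Prod.mk.inj h).1 ▸ Finset.mem_insert_self c S)) b4 b5
        with ⟨e1, e2⟩ | ⟨e1, e2⟩
      · exact rung_not_dn cS (e1 ▸ uk) (e2 ▸ uf)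
      · exact rung_not_dn cS (e1 ▸ uf) (e2 ▸ uk)
  · intro S a1 a2 a3 a4 j a5 a6 a7
    have cS := H.cX' a1
    have jc : j ≠ c := by rintro rfl; exact H.cR a5
    rcases (p2 _).1 a7 with a8 | a8
    · obtain ⟨g, b1, b2⟩ := h.iu S a1 a2 a3 a4 j a5 a6 a8
      rcases p3 _ b2 with b4 | ⟨b4, b5⟩
      · exact ⟨g, b1, b4⟩
      · exfalso
        have : (S, some j) ≠ g := by
          intro e'
          rw [← e'] at b2
          have nd := h.hp.nd
          rcases b2 with e | e <;> simpa using nd.sublist e.sublist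
        have key : Dn δ lo hi T (S, some j) → False := by
          intro hD
          apply cS
          rw [(dn_cross hD).1]
          simp [jc.symm, cT]
        rcases pair _ _ this b4 b5 with ⟨e1, _⟩ | ⟨e1, _⟩
        · exact key (e1 ▸ uk)
        · exact key (e1 ▸ uf)
    · exact absurd ((Prod.mk.inj a8).1 ▸ Finset.mem_insert_self c Y) cS
  · intro S a1 a2 a3 a4 j a5 a6 a7
    rcases (p2 _).1 a7 with a8 | a8
    · obtain ⟨g, b1, b2⟩ := h.id S a1 a2 a3 a4 j a5 a6 a8
      rcases p3 _ b2 with b4 | ⟨b4, b5⟩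
      · exact ⟨g, b1, b4⟩
      · have : ((insert c S).erase j, some j) ≠ g := by
          intro e'
          rw [← e'] at b2
          have nd := h.hp.nd
          rcases b2 with e | e <;> simpa using nd.sublist e.sublist
        rcases pair _ _ this b4 b5 with ⟨e1, _⟩ | ⟨e1, _⟩
        · have e2 := idT S j a6 (e1 ▸ uk)
          exact ⟨_, e2 ▸ um, e1 ▸ q1⟩
        · have e2 := idT S j a6 (e1 ▸ uf)
          exact ⟨_, e2 ▸ um, e1 ▸ q2.symm2⟩
    · have e2 := idT S j a6 (a8 ▸ um)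
      exact ⟨f, e2 ▸ uf, a8 ▸ q2⟩
  · exact Or.inl ⟨_, _, _, p4, Or.inr ⟨T, cT, hT, hT', uk, um, uf⟩⟩

theorem ZI.finish (H : ZI δ lo hi c d R B) {x z : Vx ι} {L : List (Vx ι)}
    (h : St δ lo hi c d R B x z L) : ∃ L', ZOut δ lo hi c (d :: R) B x z L' := by
  have := Fintype.ofFinite (Vx ι)
  have key : ∀ n (L : List (Vx ι)), St δ lo hi c d R B x z L → Fintype.card (Vx ι) ≤ L.length + n →
      ∃ L', ZOut δ lo hi c (d :: R) B x z L' := by
    intro n
    induction n using Nat.strong_induction_on with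
    | _ n ih =>
      intro L h hn
      have step : (∃ L', St δ lo hi c d R B x z L' ∧ L.length < L'.length) →
          ∃ L', ZOut δ lo hi c (d :: R) B x z L' := by
        rintro ⟨L', h1, h2⟩
        have := h1.hp.nd.length_le_card
        exact ih (n - 1) (by omega) L' h1 (by omega)
      by_cases a1 : ∃ Y, TW δ lo hi c d R B Y ∧ (Y, some d) ∉ L
      · obtain ⟨Y, b1, b2⟩ := a1
        exact step (H.step_tw h b1 b2)
      by_cases a2 : ∃ Y, SU δ lo hi c d R B Y ∧ (Y, some d) ∉ L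
      · obtain ⟨Y, b1, b2⟩ := a2
        exact step (H.step_su h b1 b2)
      by_cases a3 : ∃ Y, SD δ lo hi c d R B Y ∧ (insert c Y, some d) ∉ L
      · obtain ⟨Y, b1, b2⟩ := a3
        exact step (H.step_sd h b1 b2)
      refine ⟨L, h.hp.congr fun v => ⟨h.sub v, fun hv => ?_⟩, h.ir, h.iu, h.id, ?_⟩
      · push Not at a1 a2 a3
        rcases H.cover hv with b | b | ⟨Y, b, rfl | rfl⟩ | ⟨Y, b, rfl⟩ | ⟨Y, b, rfl⟩
        · exact h.v0 v b
        · exact h.v1 v b
        · exact a1 Y b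
        · exact (h.tw Y b).1 (a1 Y b)
        · exact a2 Y b
        · exact a3 Y b
      · rcases h.cl with b | b | b | b
        · exact Or.inr (Or.inl b)
        · exact Or.inl b
        · exact absurd b a2
        · exact absurd b a3
  exact key _ L h (Nat.le_add_left _ _)

end Pool.Agent.MP_3fd310_co

end

section

set_option autoImplicit false
set_option linter.unusedSectionVars false

namespace Pool.Agent.MP_3fd310_co

variable {ι : Type*} [DecidableEq ι] [Finite ι]
variable {δ : ι → ℝ} {lo hi : ℝ} {c d : ι} {R : List ι} {B : Finset ι}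

theorem dn_isV {S : Finset ι} {j : ι} (h : InC B R S) (j1 : j ∈ R) (j2 : j ∈ S) (j3 : j ∉ B)
    (hc : c ∉ S) (h1 : W δ S + δ c - δ j < lo) (h2 : hi < W δ S + δ c) :
    IsV δ lo hi B (c :: R) ((insert c S).erase j, some j) := by
  have w : W δ ((insert c S).erase j) = W δ S + δ c - δ j := by
    rw [W_erase (by simp [j2]), W_insert hc]
  exact ⟨((inc_par h).insert (by simp)).erase j3, Or.inr ⟨j, rfl, by simp [j1], by simp,
    by simp only [w]; exact h1, by simp only [w]; linarith⟩⟩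

theorem ZI.init (H : ZI δ lo hi c d R B) {x z j0 j1 : Vx ι} {L0 L1 M : List (Vx ι)}
    (h0 : ZOut δ lo hi c R B x j0 L0) (h1 : ZOut δ lo hi c R (insert d B) j1 z L1)
    (hp : HP (Adj δ lo hi) (fun v => v ∈ L0 ++ M ++ L1) x z (L0 ++ M ++ L1))
    (mV : ∀ v ∈ M, IsV δ lo hi B (c :: d :: R) v)
    (tw : ∀ Y, TW δ lo hi c d R B Y → ((Y, some d) ∈ M ↔ (insert c Y, some d) ∈ M))
    (iuM : ∀ Y, SU δ lo hi c d R B Y → (Y, some d) ∈ M →
      ∃ f, Up δ lo hi Y f ∧ SInf [(Y, some d), f] (L0 ++ M ++ L1))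
    (idM : ∀ Y, SD δ lo hi c d R B Y → (insert c Y, some d) ∈ M →
      ∃ f, Dn δ lo hi (insert c (insert d Y)) f ∧ SInf [(insert c Y, some d), f] (L0 ++ M ++ L1))
    (clM : Tri δ lo hi c (L0 ++ M ++ L1) ∨ (Even M.length ∧
      (∀ Y, SU δ lo hi c d R B Y → (Y, some d) ∉ M) ∧
      ∀ Y, SD δ lo hi c d R B Y → (insert c Y, some d) ∉ M)) :
    St δ lo hi c d R B x z (L0 ++ M ++ L1) := by
  have i0 : SInf L0 (L0 ++ M ++ L1) := SInf.of_infix ⟨[], M ++ L1, by simp⟩
  have i1 : SInf L1 (L0 ++ M ++ L1) := SInf.of_infix ⟨L0 ++ M, [], by simp⟩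
  have mid : ∀ X, (X, some d) ∈ L0 ++ M ++ L1 ↔ (X, some d) ∈ M := by
    intro X
    have a0 : (X, some d) ∉ L0 := fun h => H.not_child ((h0.hp.cov _).1 h)
    have a1 : (X, some d) ∉ L1 := fun h => H.not_child ((h1.hp.cov _).1 h)
    simp [a0, a1]
  have c0 : ∀ S, InC B (d :: R) S → d ∉ S → InC B R S := by
    intro S h h'; clear * - h h'; unfold InC at *; grind
  have c1 : ∀ S, InC B (d :: R) S → d ∈ S → InC (insert d B) R S := by
    intro S h h'; clear * - h h'; unfold InC at *; grind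
  have lcd := H.lcd
  have lh := H.lh
  have pc := H.pos c
  refine ⟨hp, ?_, fun v hv => i0.mem ((h0.hp.cov v).2 hv), fun v hv => i1.mem ((h1.hp.cov v).2 hv),
    fun Y hY => by rw [mid, mid]; exact tw Y hY, ?_, ?_, ?_, ?_⟩
  · intro v hv
    simp only [List.mem_append] at hv
    rcases hv with (hv | hv) | hv
    · exact isV_par0 ((h0.hp.cov v).1 hv)
    · exact mV v hv
    · exact isV_par1 ((h1.hp.cov v).1 hv)
  · rintro S a1 a2 a3 ⟨k, a4, a5⟩
    by_cases hd : d ∈ S
    · have : k ∈ R := (List.mem_cons.1 a4).resolve_left (by rintro rfl; exact a5 hd)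
      obtain ⟨j, b1, b2, b3⟩ := h1.ir S (c1 S a1 hd) a2 (fun k hk => a3 k (by simp [hk]))
        ⟨k, this, a5⟩
      exact ⟨j, by simp [b1], b2, b3.trans i1⟩
    · obtain ⟨j, b1, b2, b3⟩ := h0.ir S (c0 S a1 hd) a2 (fun k hk => a3 k (by simp [hk]))
        (H.ex_out (c0 S a1 hd) (by linarith))
      exact ⟨j, by simp [b1], b2, b3.trans i0⟩
  · intro S a1 a2 a3 a4 k a5 a6 a7
    have a8 := a4 k a5 a6
    by_cases hd : d ∈ S
    · have : k ∈ R := (List.mem_cons.1 a5).resolve_left (by rintro rfl; exact a6 hd)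
      obtain ⟨f, b1, b2⟩ := h1.iu S (c1 S a1 hd) a2 a3 (fun k hk => a4 k (by simp [hk])) k this a6
        ((h1.hp.cov _).2 ⟨inc_par (c1 S a1 hd), Or.inr ⟨k, rfl, by simp [this], a6, a2, a8⟩⟩)
      exact ⟨f, b1, b2.trans i1⟩
    · rcases List.mem_cons.1 a5 with rfl | this
      · exact iuM S ⟨c0 S a1 hd, a2, a3, a8⟩ ((mid S).1 a7)
      · obtain ⟨f, b1, b2⟩ := h0.iu S (c0 S a1 hd) a2 a3 (fun k hk => a4 k (by simp [hk])) k this a6
          ((h0.hp.cov _).2 ⟨inc_par (c0 S a1 hd), Or.inr ⟨k, rfl, by simp [this], a6, a2, a8⟩⟩)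
        exact ⟨f, b1, b2.trans i0⟩
  · intro S a1 a2 a3 a4 k a5 a6 a7
    have a8 := a4 k a5 a6
    have cS := H.cX' a1
    by_cases hd : d ∈ S
    · rcases List.mem_cons.1 a5 with rfl | this
      · have e : (insert c S).erase k = insert c (S.erase k) := by
          have := H.cd
          ext i; simp only [Finset.mem_erase, Finset.mem_insert]; clear * - this; grind
        have w := W_erase (δ := δ) hd
        have := idM (S.erase k) ⟨c0 _ (a1.erase H.dB) (by simp), by linarith, by linarith,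
          by linarith⟩ (by rw [← e]; exact (mid _).1 a7)
        rw [Finset.insert_erase hd, ← e] at this
        exact this
      · obtain ⟨f, b1, b2⟩ := h1.id S (c1 S a1 hd) a2 a3 (fun k hk => a4 k (by simp [hk])) k this a6
          ((h1.hp.cov _).2 (dn_isV (c1 S a1 hd) this a6 (H.child1.fr.2 k this) cS a8 a3))
        exact ⟨f, b1, b2.trans i1⟩
    · have : k ∈ R := (List.mem_cons.1 a5).resolve_left (by rintro rfl; exact hd a6)
      obtain ⟨f, b1, b2⟩ := h0.id S (c0 S a1 hd) a2 a3 (fun k hk => a4 k (by simp [hk])) k this a6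
        ((h0.hp.cov _).2 (dn_isV (c0 S a1 hd) this a6 (H.RB this) cS a8 a3))
      exact ⟨f, b1, b2.trans i0⟩
  · rcases clM with h | ⟨e, n1, n2⟩
    · exact Or.inl h
    rcases h0.cl with e0 | t | ⟨_, X, x1, x2, x3⟩
    · rcases h1.cl with e1 | t | ⟨_, X, x1, x2, x3⟩
      · right; left
        rw [List.length_append, List.length_append]
        exact (e0.add e).add e1
      · exact Or.inl (t.mono i1)
      · right; right; right
        have hd : d ∈ X := x1.1 d (by simp)
        have w := W_erase (δ := δ) hd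
        have s : SD δ lo hi c d R B (X.erase d) := by
          refine ⟨?_, by linarith, by linarith, by linarith⟩
          have := H.dB
          clear * - this x1; unfold InC at *; grind
        exact ⟨_, s, by rw [mid]; exact n2 _ s⟩
    · exact Or.inl (t.mono i0)
    · right; right; left
      have s : SU δ lo hi c d R B X := ⟨x1, x2, by linarith, by linarith⟩
      exact ⟨_, s, by rw [mid]; exact n1 _ s⟩

theorem ZI.disj (H : ZI δ lo hi c d R B) {v : Vx ι} (h0 : IsV δ lo hi B (c :: R) v)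
    (h1 : IsV δ lo hi (insert d B) (c :: R) v) : False := by
  rcases h0.1.2 d (h1.1.1 d (by simp)) with h | h
  · exact H.dB h
  · rcases List.mem_cons.1 h with h | h
    · exact H.cd h.symm
    · exact H.dR h

theorem ZI.join {x z j0 j1 m m' : Vx ι} {L0 L1 M : List (Vx ι)} (H : ZI δ lo hi c d R B)
    (h0 : ZOut δ lo hi c R B x j0 L0) (h1 : ZOut δ lo hi c R (insert d B) j1 z L1)
    (hM : HP (Adj δ lo hi) (fun v => v ∈ M) m m' M) (hd : ∀ v ∈ M, v.2 = some d)
    (a1 : Adj δ lo hi j0 m) (a2 : Adj δ lo hi m' j1) :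
    HP (Adj δ lo hi) (fun v => v ∈ L0 ++ M ++ L1) x z (L0 ++ M ++ L1) := by
  have nc : ∀ B' v, IsV δ lo hi B' (c :: R) v → v ∉ M := by
    rintro B' ⟨X, o⟩ hv hm
    obtain rfl : o = some d := hd _ hm
    exact H.not_child hv
  have p := (h0.hp.append hM a1 (nc _)).append h1.hp a2 (by
    rintro v (hv | hv) hv'
    · exact H.disj hv hv'
    · exact nc _ v hv' hv)
  exact p.congr (fun v => (p.cov v).symm)

theorem ZI.route0 {x z j0 j1 : Vx ι} {L0 L1 : List (Vx ι)} (H : ZI δ lo hi c d R B)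
    (h0 : ZOut δ lo hi c R B x j0 L0) (h1 : ZOut δ lo hi c R (insert d B) j1 z L1)
    (a : Adj δ lo hi j0 j1) : ∃ L, ZOut δ lo hi c (d :: R) B x z L := by
  have p := h0.hp.append h1.hp a (fun v => H.disj)
  refine H.finish (H.init (M := []) h0 h1 ?_ (by simp) (by simp) (by simp) (by simp) (by simp))
  rw [List.append_nil]
  exact p.congr (fun v => (p.cov v).symm)

theorem ZI.routeU {x z j1 : Vx ι} {L0 L1 : List (Vx ι)} {Y : Finset ι} {k : ι}
    (H : ZI δ lo hi c d R B) (h0 : ZOut δ lo hi c R B x (Y, some k) L0)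
    (h1 : ZOut δ lo hi c R (insert d B) j1 z L1) (hY : SU δ lo hi c d R B Y) (k1 : k ∈ R)
    (k2 : k ∉ Y) (a : Adj δ lo hi (Y, some d) j1) : ∃ L, ZOut δ lo hi c (d :: R) B x z L := by
  obtain ⟨cY, y1, y2, y3⟩ := hY
  have hd := H.dX cY
  have hc := H.cX cY
  have allp : ∀ k ∈ R, k ∉ Y → hi < W δ Y + δ k := fun k hk _ => by linarith [H.ld hk]
  have uk : Up δ lo hi Y (Y, some k) := ⟨k, k2, Or.inl ⟨allp k k1 k2, rfl⟩⟩
  have um : Up δ lo hi Y (Y, some d) := ⟨d, hd, Or.inl ⟨y3, rfl⟩⟩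
  have vm := H.midV0 cY y1 y3
  have kd : k ≠ d := by rintro rfl; exact H.dR k1
  obtain ⟨f, uf, e⟩ := h0.iu Y cY y1 y2 allp k k1 k2 ((h0.hp.cov _).2 h0.hp.mem_lt)
  obtain ⟨t, rfl⟩ := h0.hp.last_nbr e
  refine H.finish (H.init (M := [(Y, some d)]) h0 h1
    (H.join h0 h1 ((HP.single _ _).congr (by simp)) (by simp)
      (up_adj H.pos H.tP (isV_par0 h0.hp.mem_lt) vm y1 uk um (by simp [kd])) a)
    (by simp [vm]) ?_ ?_ ?_
    (Or.inl ⟨f, _, _, SInf.of_infix ⟨t, L1, by simp⟩, Or.inl ⟨Y, hc, y1, y2, uf, uk, um⟩⟩))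
  · intro Z hZ
    simp only [List.mem_singleton, Prod.mk.injEq, and_true]
    constructor
    · rintro rfl; linarith [hZ.2.1]
    · rintro rfl; simp at hc
  · intro Z _ h
    obtain rfl : Z = Y := by simpa using h
    exact ⟨_, uk, Or.inr ⟨t ++ [f], L1, by simp⟩⟩
  · intro Z _ h
    obtain rfl : insert c Z = Y := by simpa using h
    simp at hc

theorem ZI.routeD {x z j0 : Vx ι} {L0 L1 : List (Vx ι)} {Y : Finset ι} {k : ι}
    (H : ZI δ lo hi c d R B) (h0 : ZOut δ lo hi c R B x j0 L0)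
    (h1 : ZOut δ lo hi c R (insert d B) ((insert c (insert d Y)).erase k, some k) z L1)
    (hY : SD δ lo hi c d R B Y) (k1 : k ∈ R)
    (k2 : k ∈ Y) (a : Adj δ lo hi j0 (insert c Y, some d)) :
    ∃ L, ZOut δ lo hi c (d :: R) B x z L := by
  obtain ⟨cY, y1, y3, y2⟩ := hY
  have hc := H.cX cY
  have hd := H.dX cY
  have cd := H.cd
  have wd := W_insert (δ := δ) hd
  have cS : InC (insert d B) R (insert d Y) := by clear * - cY; unfold InC at *; grind
  have hc' : c ∉ insert d Y := by simp [hc, cd]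
  have wT : W δ (insert c (insert d Y)) = W δ Y + δ d + δ c := by rw [W_insert hc', wd]
  have alln : ∀ j ∈ R, j ∈ insert d Y → W δ (insert d Y) + δ c - δ j < lo :=
    fun j hj _ => by linarith [H.ld hj]
  have kd : k ≠ d := by rintro rfl; exact hd k2
  have k3 := alln k k1 (by simp [k2])
  obtain ⟨f, uf, e⟩ := h1.id (insert d Y) cS (by linarith) (by linarith) alln k k1 (by simp [k2])
    ((h1.hp.cov _).2 h1.hp.mem_hd)
  obtain ⟨t, ht⟩ := (h1.hp.rev (adj_symm _ _ _)).last_nbr e.rev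
  obtain rfl : L1 = ((insert c (insert d Y)).erase k, some k) :: f :: t.reverse := by
    have := congrArg List.reverse ht
    simpa using this
  have em : (insert c (insert d Y)).erase d = insert c Y := by
    ext i; simp only [Finset.mem_erase, Finset.mem_insert]; clear * - hd cd; grind
  have uk : Dn δ lo hi (insert c (insert d Y)) ((insert c (insert d Y)).erase k, some k) :=
    ⟨k, by simp [k2], Or.inl ⟨by linarith, rfl⟩⟩
  have um : Dn δ lo hi (insert c (insert d Y)) (insert c Y, some d) :=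
    ⟨d, by simp, Or.inl ⟨by linarith, by rw [em]⟩⟩
  have vm := H.midV1 cY y1 y2
  refine H.finish (H.init (M := [(insert c Y, some d)]) h0 h1
    (H.join h0 h1 ((HP.single _ _).congr (by simp)) (by simp) a
      (dn_adj H.pos H.lh H.tP vm (isV_par1 h1.hp.mem_hd) (by linarith) um uk (by simp [kd.symm])))
    (by simp [vm]) ?_ ?_ ?_
    (Or.inl ⟨_, _, f, SInf.of_infix ⟨L0, t.reverse, by simp⟩,
      Or.inr ⟨_, by simp, by linarith, by linarith, um, uk, uf⟩⟩))
  · intro Z hZ
    have cZ := H.cX hZ.1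
    simp only [List.mem_singleton, Prod.mk.injEq, and_true]
    constructor
    · rintro rfl; simp at cZ
    · intro h
      obtain rfl : Z = Y := same_face cZ hc h
      linarith [hZ.2.2]
  · intro Z hZ h
    obtain rfl : Z = insert c Y := by simpa using h
    have := H.cX hZ.1
    simp at this
  · intro Z hZ h
    obtain rfl : Z = Y := same_face (H.cX hZ.1) hc (by simpa using h)
    exact ⟨_, uk, SInf.of_infix ⟨L0, f :: t.reverse, by simp⟩⟩

theorem ZI.routeT {x z j0 j1 : Vx ι} {L0 L1 : List (Vx ι)} {Y : Finset ι}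
    (H : ZI δ lo hi c d R B) (h0 : ZOut δ lo hi c R B x j0 L0)
    (h1 : ZOut δ lo hi c R (insert d B) j1 z L1) (hY : TW δ lo hi c d R B Y) (s : Bool)
    (a1 : Adj δ lo hi j0 (sd s c Y, some d)) (a2 : Adj δ lo hi (sd (!s) c Y, some d) j1) :
    ∃ L, ZOut δ lo hi c (d :: R) B x z L := by
  obtain ⟨cY, y1, y2⟩ := hY
  have hc := H.cX cY
  have hd := H.dX cY
  have pc := H.pos c
  have ne : (Y, some d) ≠ (insert c Y, some d) := by
    intro h; exact hc ((Prod.mk.inj h).1 ▸ Finset.mem_insert_self c Y)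
  have ad : Adj δ lo hi (Y, some d) (insert c Y, some d) :=
    ⟨Y, d, c, H.cd.symm, hd, hc, by linarith, by linarith, (pt_pos y2).symm,
      (pt_neg H.lh y1).symm⟩
  have pM := (HP.single (Adj δ lo hi) (sd s c Y, some d)).append
    (HP.single _ (sd (!s) c Y, some d)) (by cases s; exact ad; exact ad.symm)
    (by rintro v rfl h; cases s; exact ne h; exact ne h.symm)
  have mem : ∀ X : Finset ι, (X, some d) ∈ [(sd s c Y, some d), (sd (!s) c Y, some d)] ↔
      X = Y ∨ X = insert c Y := by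
    intro X; cases s <;> simp; tauto
  have n1 : ∀ Z, SU δ lo hi c d R B Z →
      (Z, some d) ∉ [(sd s c Y, some d), (sd (!s) c Y, some d)] := by
    intro Z hZ
    rw [mem]
    rintro (rfl | rfl)
    · linarith [hZ.2.2.1]
    · have := H.cX hZ.1
      simp at this
  have n2 : ∀ Z, SD δ lo hi c d R B Z →
      (insert c Z, some d) ∉ [(sd s c Y, some d), (sd (!s) c Y, some d)] := by
    intro Z hZ
    rw [mem]
    rintro (rfl | h)
    · simp at hc
    · obtain rfl : Z = Y := same_face (H.cX hZ.1) hc h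
      linarith [hZ.2.2.1]
  refine H.finish (H.init (M := [(sd s c Y, some d), (sd (!s) c Y, some d)]) h0 h1
    (H.join h0 h1 (pM.congr (by simp)) (by simp) a1 a2) ?_ ?_
    (fun Z hZ h => absurd h (n1 Z hZ)) (fun Z hZ h => absurd h (n2 Z hZ))
    (Or.inr ⟨even_two, n1, n2⟩))
  · have v0 := H.midV0 cY (by linarith) y2
    have v1 := H.midV1 cY y1 (by linarith)
    cases s <;> simp [v0, v1]
  · intro Z hZ
    have cZ := H.cX hZ.1
    rw [mem, mem]
    constructor
    · rintro (rfl | rfl)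
      · exact Or.inr rfl
      · simp at cZ
    · rintro (rfl | h)
      · simp at hc
      · exact Or.inl (same_face cZ hc h)

theorem tp_sd (a : Bool) (X : Finset ι) (τ : List ι) : tp (sd a c X) τ = sd a c (tp X τ) := by
  cases a
  · rfl
  · ext i; simp; tauto

theorem sd_insert (a : Bool) (X : Finset ι) : insert d (sd a c X) = sd a c (insert d X) := by
  cases a
  · rfl
  · exact Finset.insert_comm _ _ _

/-- Adjacency data at a crossing in direction d on side s. -/
theorem ZI.mid_adj (H : ZI δ lo hi c d R B) {τ1 τ2 : List ι} (hτ : (τ1 ++ τ2).Perm R) (s : Bool)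
    (h4 : W δ (sd s c (tp B τ1)) < lo) (h5 : hi < W δ (sd s c (tp B τ1)) + δ d) :
    InC B R (tp B τ1) ∧
    (∃ k ∈ R, k ∉ tp B τ1 ∧ gr δ lo hi (sd s c B) (τ1 ++ τ2) = (sd s c (tp B τ1), some k)) ∧
    (∃ j ∈ R, j ∈ tp B τ1 ∧ gr δ lo hi (sd s c (insert d B)) (τ1 ++ τ2) =
      ((sd s c (insert d (tp B τ1))).erase j, some j)) ∧
    Adj δ lo hi (gr δ lo hi (sd s c B) (τ1 ++ τ2)) (sd s c (tp B τ1), some d) ∧
    Adj δ lo hi (sd s c (tp B τ1), some d) (gr δ lo hi (sd s c (insert d B)) (τ1 ++ τ2)) := by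
  have fr := H.child0.fresh hτ s
  have pc := H.pos c
  have hR : ∀ k ∈ τ1 ++ τ2, k ∈ R := fun k hk => hτ.mem_iff.1 hk
  have dB : d ∉ sd s c B := by
    have := H.dB; have := H.cd.symm
    cases s <;> simp [*]
  obtain ⟨⟨k, k1, k2⟩, j, j1, j2⟩ := gr_mid (lo := lo) (hi := hi) (c := d) H.pos H.lh fr dB
    (fun h => H.dR (hR d h)) (fun k hk => H.ld (hR k hk))
    (by rw [W_sd H.cB]; have := H.nb; cases s <;> simp <;> linarith)
    (by
      rw [tp_perm hτ]
      refine H.nt.trans (W_mono H.pos ?_)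
      cases s <;> simp; tauto)
    (by rwa [tp_sd]) (by rwa [tp_sd])
  rw [tp_sd] at k2 j2
  rw [sd_insert] at j2
  have cY : InC B R (tp B τ1) := ⟨by simp; tauto, fun i hi =>
    (mem_tp.1 hi).imp id (fun h => hR i (by simp [h]))⟩
  have kR := hR k (by simp [k1])
  have jR := hR j (by simp [j1])
  have kY : k ∉ tp B τ1 := by
    have := H.RB kR
    have nd := (List.nodup_append.1 fr.1).2.2
    simp only [mem_tp, this, false_or]
    exact fun h => nd k h k k1 rfl
  have jY : j ∈ tp B τ1 := by simp [j1]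
  generalize tp B τ1 = Y at *
  have hc := H.cX cY
  have hd := H.dX cY
  have kc : k ≠ c := by rintro rfl; exact H.cR' kR
  have kd : k ≠ d := by rintro rfl; exact H.dR kR
  have jd : j ≠ d := by rintro rfl; exact H.dR jR
  have kX : k ∉ sd s c Y := by cases s <;> simp [*]
  have dX : d ∉ sd s c Y := by have := H.cd.symm; cases s <;> simp [*]
  have jX : j ∈ sd s c Y := by cases s <;> simp [*]
  have lk := H.ld kR
  have lj := H.ld jR
  have pk := H.pos k
  have pj := H.pos j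
  have pd := H.pos d
  refine ⟨cY, ⟨k, kR, kY, k2⟩, ⟨j, jR, jY, by rw [j2, sd_insert]⟩, ?_, ?_⟩
  · rw [k2]
    exact ⟨_, k, d, kd, kX, dX, h4, by linarith, (pt_pos (by linarith)).symm, (pt_pos h5).symm⟩
  · rw [j2]
    generalize sd s c Y = X at *
    have w := W_erase (δ := δ) jX
    refine ⟨X.erase j, j, d, jd, by simp, by simp [dX], by linarith, by linarith, ?_, ?_⟩
    · rw [pt_neg H.lh (by linarith), Finset.insert_erase jX]
    · rw [pt_neg H.lh (by linarith), Finset.erase_insert_of_ne jd.symm]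

inductive Uni : List ι → List ι → Prop
  | nil : Uni [] []
  | fr {R τ : List ι} (e : ι) : Uni R τ → Uni (e :: R) (e :: τ)
  | bk {R τ : List ι} (e : ι) : Uni R τ → Uni (e :: R) (τ ++ [e])

theorem Uni.perm {R τ : List ι} (h : Uni R τ) : τ.Perm R := by
  induction h with
  | nil => exact List.Perm.refl _
  | fr e _ ih => exact ih.cons e
  | bk e _ ih => exact (List.perm_append_singleton _ _).trans (ih.cons e)

theorem ZI.internal (H : ZI δ lo hi c d R B) (hn : W δ B + δ c < lo) {τ σ : List ι}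
    (hτ : τ.Perm R) (hσ : σ.Perm R) {π0 π1 : Bool}
    (h0 : ∀ a, ∃ L, ZOut δ lo hi c R B (gr δ lo hi (sd a c B) τ)
      (gr δ lo hi (sd (xor a π0) c B) σ) L)
    (h1 : ∀ a, ∃ L, ZOut δ lo hi c R (insert d B) (gr δ lo hi (sd a c (insert d B)) τ)
      (gr δ lo hi (sd (xor a π1) c (insert d B)) σ) L) :
    ∃ π : Bool, ∀ a, ∃ L, ZOut δ lo hi c (d :: R) B (gr δ lo hi (sd a c B) (τ ++ [d]))
      (gr δ lo hi (sd (xor a π) c B) (d :: τ)) L := by
  have pc := H.pos c
  have e1 : ∀ a, gr δ lo hi (sd a c B) (τ ++ [d]) = gr δ lo hi (sd a c B) τ := by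
    intro a
    apply gr_append
    rw [tp_perm hτ]
    refine H.nt.trans (W_mono H.pos ?_)
    cases a <;> simp; tauto
  have w1 : ∀ a, W δ (sd a c B) < lo := by
    intro a; rw [W_sd H.cB]; cases a <;> simp <;> linarith
  have w2 : ∀ a, W δ (sd a c B) + δ d ≤ hi := by
    intro a; rw [W_sd H.cB]; have := H.nb; cases a <;> simp <;> linarith
  have e2 : ∀ a, gr δ lo hi (sd a c B) (d :: τ) = gr δ lo hi (sd a c (insert d B)) τ := by
    intro a
    rw [gr_step _ (w1 a) (w2 a), sd_insert]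
  have h1' : ∀ b, ∃ L, ZOut δ lo hi c R (insert d B) (gr δ lo hi (sd b c (insert d B)) σ)
      (gr δ lo hi (sd (xor b π1) c (insert d B)) τ) L := by
    intro b
    obtain ⟨L, hL⟩ := h1 (xor b π1)
    refine ⟨L.reverse, ?_⟩
    have := hL.rev
    simpa using this
  simp only [e1, e2]
  by_cases tw : ∃ τ1 τ2, σ = τ1 ++ τ2 ∧ W δ (tp B τ1) + δ c < lo ∧ hi < W δ (tp B τ1) + δ d
  · obtain ⟨τ1, τ2, rfl, t1, t2⟩ := tw
    refine ⟨xor (!π0) π1, fun a => ?_⟩
    obtain ⟨L0, p0⟩ := h0 a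
    obtain ⟨L1, p1⟩ := h1' (!(xor a π0))
    have cY := (H.mid_adj hσ false (by simp; linarith) (by simpa using t2)).1
    have hc := H.cX cY
    have m : ∀ s, W δ (sd s c (tp B τ1)) < lo ∧ hi < W δ (sd s c (tp B τ1)) + δ d := by
      intro s; rw [W_sd hc]; cases s <;> simp <;> constructor <;> linarith
    have e : xor (!(xor a π0)) π1 = xor a (xor (!π0) π1) := by
      cases a <;> cases π0 <;> cases π1 <;> rfl
    rw [← e]
    exact H.routeT p0 p1 ⟨cY, t1, t2⟩ (xor a π0) (H.mid_adj hσ _ (m _).1 (m _).2).2.2.2.1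
      (H.mid_adj hσ _ (m _).1 (m _).2).2.2.2.2
  · refine ⟨xor π0 π1, fun a => ?_⟩
    obtain ⟨L0, p0⟩ := h0 a
    obtain ⟨L1, p1⟩ := h1' (xor a π0)
    rw [← Bool.xor_assoc]
    generalize xor a π0 = s at p0 p1 ⊢
    have dB : d ∉ sd s c B := by
      have := H.dB; have := H.cd.symm
      cases s <;> simp [*]
    rcases gr_route H.pos H.lh H.tP (c := d) (by simp) (H.child0.fresh hσ s) dB
      (fun h => H.dR (hσ.mem_iff.1 h))
      (fun k hk => ⟨by simp [hσ.mem_iff.1 hk], H.ld (hσ.mem_iff.1 hk)⟩)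
      (by cases s <;> simp [InC] <;> tauto) (w1 s) (w2 s)
      (by
        rw [tp_perm hσ]
        refine H.nt.trans (W_mono H.pos ?_)
        cases s <;> simp; tauto) with a | ⟨τ1, τ2, rfl, t1, t2⟩
    · rw [sd_insert] at a
      exact H.route0 p0 p1 a
    · rw [tp_sd] at t1 t2
      obtain ⟨cY, ⟨k, k1, k2, k3⟩, ⟨j, j1, j2, j3⟩, a1, a2⟩ := H.mid_adj hσ s t1 t2
      have hc := H.cX cY
      have nt : ¬ (W δ (tp B τ1) + δ c < lo ∧ hi < W δ (tp B τ1) + δ d) :=
        fun h => tw ⟨τ1, τ2, rfl, h⟩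
      cases s
      · rw [k3] at p0
        exact H.routeU p0 p1 ⟨cY, t1, not_lt.1 (fun h => nt ⟨h, t2⟩), t2⟩ k1 k2 a2
      · rw [j3] at p1
        rw [sd_true, W_insert hc] at t1 t2
        exact H.routeD p0 p1 ⟨cY, t1, not_lt.1 (fun h => nt ⟨t1, h⟩), t2⟩ j1 j2 a1

theorem zthm {R : List ι} : ∀ {d : ι} {B : Finset ι} {τ : List ι}, ZH δ lo hi c (d :: R) B →
    Uni R τ → ∃ π : Bool, ∀ a, ∃ L, ZOut δ lo hi c (d :: R) B (gr δ lo hi (sd a c B) (τ ++ [d]))
      (gr δ lo hi (sd (xor a π) c B) (d :: τ)) L := by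
  have leaf : ∀ {R : List ι} {d : ι} {B : Finset ι} {τ : List ι}, ZH δ lo hi c (d :: R) B →
      τ.Perm R → (∃ π : Bool, ∀ a, ∃ L, ZOut δ lo hi c (d :: R) B
        (gr δ lo hi (sd a c B) (τ ++ [d])) (gr δ lo hi (sd (xor a π) c B) (d :: τ)) L) ∨
        (ZI δ lo hi c d R B ∧ W δ B + δ c < lo) := by
    intro R d B τ H h
    have p1 : (τ ++ [d]).Perm (d :: R) := (List.perm_append_singleton d τ).trans (h.cons d)
    have p2 : (d :: τ).Perm (d :: R) := h.cons d
    by_cases a1 : lo ≤ W δ B + δ c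
    · exact Or.inl ⟨true, fun a => by simpa using H.leaf_bot a1 p1 p2 a⟩
    by_cases a2 : W δ (tp B (d :: R)) ≤ hi
    · exact Or.inl ⟨true, fun a => by simpa using H.leaf_top a2 p1 p2 a⟩
    by_cases a3 : W δ (tp B R) < lo ∨ hi < W δ B + δ c + δ d
    · exact Or.inl (H.leaf_zig h (not_le.1 a1) (not_le.1 a2) a3)
    · push Not at a3
      exact Or.inr ⟨⟨H, a3.1, a3.2⟩, not_le.1 a1⟩
  induction R with
  | nil =>
    intro d B τ H h
    rcases leaf H h.perm with h | ⟨H', h'⟩
    · exact h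
    · have := H'.nt
      rw [tp_nil] at this
      linarith [H.pos c]
  | cons e R ih =>
    intro d B τ H h
    rcases leaf H h.perm with h | ⟨H', h'⟩
    · exact h
    cases h with
    | fr _ h =>
      rename_i τ
      obtain ⟨π0, h0⟩ := ih H'.child0 h
      obtain ⟨π1, h1⟩ := ih H'.child1 h
      refine H'.internal h' (h.perm.cons e)
        ((List.perm_append_singleton e τ).trans (h.perm.cons e)) (π0 := π0) (π1 := π1) ?_ ?_
      · intro a
        obtain ⟨L, hL⟩ := h0 (xor a π0)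
        exact ⟨L.reverse, by simpa using hL.rev⟩
      · intro a
        obtain ⟨L, hL⟩ := h1 (xor a π1)
        exact ⟨L.reverse, by simpa using hL.rev⟩
    | bk _ h =>
      rename_i τ
      obtain ⟨π0, h0⟩ := ih H'.child0 h
      obtain ⟨π1, h1⟩ := ih H'.child1 h
      exact H'.internal h' ((List.perm_append_singleton e τ).trans (h.perm.cons e))
        (h.perm.cons e) h0 h1

end Pool.Agent.MP_3fd310_co

end

section

set_option autoImplicit false
set_option linter.unusedSectionVars false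

namespace Pool.Agent.MP_3fd310_co

theorem HP.ne_ends {α : Type*} {A : α → α → Prop} {S : α → Prop} {x z a b : α} {L : List α}
    (h : HP A S x z L) (ha : S a) (hb : S b) (ne : a ≠ b) : x ≠ z := by
  rintro rfl
  have l2 := h.two_le ha hb ne
  obtain ⟨t, rfl⟩ := h.eq_cons
  cases t with
  | nil => simp at l2
  | cons y t =>
    have h1 := h.lt
    rw [List.getLast?_cons_cons] at h1
    exact (List.nodup_cons.1 h.nd).1 (List.mem_of_mem_getLast? h1)

variable {ι : Type*} [DecidableEq ι] [Finite ι]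
variable {δ : ι → ℝ} {lo hi : ℝ} {c d : ι} {R : List ι} {B : Finset ι}

theorem exists_uni (S : Finset ι) {R : List ι} (nd : R.Nodup) :
    ∃ τ1 τ2, Uni R (τ1 ++ τ2) ∧ ∀ i, i ∈ τ1 ↔ i ∈ R ∧ i ∈ S := by
  induction R with
  | nil => exact ⟨[], [], Uni.nil, by simp⟩
  | cons e R ih =>
    obtain ⟨τ1, τ2, h1, h2⟩ := ih (List.nodup_cons.1 nd).2
    by_cases he : e ∈ S
    · exact ⟨e :: τ1, τ2, Uni.fr e h1, by simp [h2]; grind⟩
    · refine ⟨τ1, τ2 ++ [e], by rw [← List.append_assoc]; exact Uni.bk e h1, by simp [h2]; grind⟩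

theorem gr_zero (hδ : ∀ i, 0 < δ i) (hT : Thin δ lo hi B R) {τ : List ι} (σ : List ι) :
    ∀ {X : Finset ι}, Fresh X τ → InC B R X → (∀ k ∈ τ, k ∈ R) → lo ≤ W δ (tp X τ) →
    W δ (tp X τ) ≤ hi → gr δ lo hi X (τ ++ σ) = (tp X τ, none) := by
  induction τ with
  | nil => intro X _ _ _ h _; rw [tp_nil] at h ⊢; exact gr_nonneg _ h
  | cons k τ ih =>
    intro X fr cX hR h1 h2
    have hk : k ∉ X := fr.2 k (by simp)
    have h3 : W δ X + δ k ≤ W δ (tp X (k :: τ)) :=
      W_mono1 hδ (by intro i hi; simp [hi]) hk (by simp)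
    have h4 : W δ X < lo := by
      by_contra hn
      have := hT X cX k (hR k (by simp)) hk (not_lt.1 hn)
      linarith
    rw [List.cons_append, gr_step _ h4 (by linarith), tp_cons]
    rw [tp_cons] at h1 h2
    exact ih fr.tail (cX.insert (hR k (by simp))) (fun j hj => hR j (by simp [hj])) h1 h2

theorem gr_up {S : Finset ι} {k : ι} (σ : List ι) (h1 : W δ S < lo) (h2 : lo ≤ W δ S + δ k)
    (hk : k ∉ S) : Up δ lo hi S (gr δ lo hi S (k :: σ)) := by
  by_cases h : hi < W δ S + δ k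
  · exact ⟨k, hk, Or.inl ⟨h, gr_pos _ h1 h⟩⟩
  · refine ⟨k, hk, Or.inr ⟨h2, not_lt.1 h, ?_⟩⟩
    rw [gr_step _ h1 (not_lt.1 h), gr_nonneg _ (by rw [W_insert hk]; exact h2)]

theorem ZH.tie (H : ZH δ lo hi c (d :: R) B) (hn : W δ B + δ c < lo) {S : Finset ι}
    (cS : InC B R S) (s1 : lo ≤ W δ S + δ c) (s2 : W δ S + δ d ≤ hi) :
    ∃ L, Cyc (Adj δ lo hi) (IsV δ lo hi B (c :: d :: R)) L ∧
      (Even L.length ∨ Tri δ lo hi c L ∨ R.length = 1) := by
  have nd := List.nodup_cons.1 H.fr.1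
  obtain ⟨τ1, τ2, hU, hτ⟩ := exists_uni S nd.2
  have pm := hU.perm
  have eS : tp B τ1 = S := by
    ext i
    simp only [mem_tp, hτ]
    exact ⟨fun h => h.elim (cS.1 i) (fun h => h.2), fun h => (cS.2 i h).imp id (fun h' => ⟨h', h⟩)⟩
  have lcd : δ c ≤ δ d := H.le d (by simp)
  have hc : c ∉ S := fun h => (cS.2 c h).elim H.cB (fun h => H.cR (by simp [h]))
  have hd : d ∉ S := fun h => (cS.2 d h).elim (H.fr.2 d (by simp)) nd.1
  have cd : c ≠ d := by have := H.cR; rintro rfl; simp at this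
  have hS : W δ S < lo := by
    by_contra h
    have := H.tP S (inc_par (inc_par cS)) c (by simp) hc (not_lt.1 h)
    linarith
  have p1 : (τ1 ++ τ2 ++ [d]).Perm (d :: R) :=
    (List.perm_append_singleton d _).trans (pm.cons d)
  have p2 : (d :: (τ1 ++ τ2)).Perm (d :: R) := pm.cons d
  have cB : InC B (c :: d :: R) B := by simp [InC]; tauto
  have sub : ∀ k ∈ τ1, k ∈ R := fun k hk => ((hτ k).1 hk).1
  have f1 : ∀ a, Fresh (sd a c B) τ1 := by
    intro a
    have := H.fresh p1 a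
    rw [List.append_assoc] at this
    exact ⟨(List.nodup_append.1 this.1).1, fun k hk => this.2 k (by simp [hk])⟩
  have eA : gr δ lo hi (sd true c B) (τ1 ++ τ2 ++ [d]) = (insert c S, none) := by
    rw [List.append_assoc, gr_zero H.pos H.tP _ (f1 true) (cB.insert (by simp))
      (fun k hk => by simp [sub k hk]), tp_sd, eS, sd_true] <;>
    rw [tp_sd, eS, sd_true, W_insert hc] <;> linarith
  have eT : tp B (d :: τ1) = insert d S := by rw [← eS]; ext; simp; tauto
  have eB : gr δ lo hi (sd false c B) (d :: (τ1 ++ τ2)) = (insert d S, none) := by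
    have := H.fresh p2 false
    rw [← List.cons_append, sd_false] at this ⊢
    rw [gr_zero H.pos H.tP _
      ⟨(List.nodup_append.1 this.1).1, fun k hk => this.2 k (List.mem_append_left _ hk)⟩ cB
      (fun k hk => by
        rcases List.mem_cons.1 hk with rfl | hk
        · simp
        · simp [sub k hk]), eT] <;>
    rw [eT, W_insert hd] <;> linarith
  have uA : Up δ lo hi S (insert c S, none) := ⟨c, hc, Or.inr ⟨s1, by linarith, rfl⟩⟩
  have uB : Up δ lo hi S (insert d S, none) := ⟨d, hd, Or.inr ⟨by linarith, s2, rfl⟩⟩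
  have ne : ((insert c S, none) : Vx ι) ≠ (insert d S, none) := by
    intro h
    have : c ∈ insert d S := (Prod.mk.inj h).1 ▸ Finset.mem_insert_self c S
    simp [cd, hc] at this
  have vA := eA ▸ H.gr_isV p1 true
  have vB := eB ▸ H.gr_isV p2 false
  have u0 : Up δ lo hi S (gr δ lo hi (sd false c B) (τ1 ++ τ2 ++ [d])) := by
    rw [List.append_assoc, gr_prefix H.pos H.lh _ (f1 false) (by rw [sd_false, eS]; exact hS),
      sd_false, eS]
    cases τ2 with
    | nil => exact gr_up _ hS (by linarith) hd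
    | cons k t =>
      have kR : k ∈ R := pm.mem_iff.1 (by simp)
      have := (List.pairwise_cons.1 H.so).1 k kR
      refine gr_up _ hS (by linarith) ?_
      intro hk
      have := (List.nodup_append.1 (pm.nodup_iff.2 nd.2)).2.2
      exact this k ((hτ k).2 ⟨kR, hk⟩) k (by simp) rfl
  have cl : ∀ x z L, ZOut δ lo hi c (d :: R) B x z L →
      (Even L.length ∨ Tri δ lo hi c L ∨ R.length = 1) := by
    intro x z L h
    rcases h.cl with h | h | ⟨h, _⟩
    · exact Or.inl h
    · exact Or.inr (Or.inl h)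
    · right; right
      cases R with
      | nil =>
        have : W δ S ≤ W δ B := W_mono H.pos (fun i hi => by simpa using cS.2 i hi)
        linarith
      | cons e t => simp at h ⊢; omega
  obtain ⟨π, h⟩ := zthm H hU
  cases π
  · obtain ⟨L, hL⟩ := h false
    rw [Bool.xor_false, eB] at hL
    exact ⟨L, ⟨_, _, hL.hp, up_adj H.pos H.tP vB hL.hp.mem_hd hS uB u0
      (hL.hp.ne_ends vA vB ne).symm⟩, cl _ _ _ hL⟩
  · obtain ⟨L, hL⟩ := h true
    rw [Bool.xor_self, eA, eB] at hL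
    exact ⟨L, ⟨_, _, hL.hp, up_adj H.pos H.tP vB vA hS uB uA ne.symm⟩, cl _ _ _ hL⟩

theorem ht (hδ : ∀ i, 0 < δ i) {R : List ι} : ∀ {c d : ι} {lo : ℝ}, lo ≤ hi →
    Fresh B (c :: d :: R) → (c :: d :: R).Pairwise (fun a b => δ a ≤ δ b) →
    Thin δ lo hi B (c :: d :: R) → W δ B < lo → hi < W δ (tp B (c :: d :: R)) →
    ∃ L, Cyc (Adj δ lo hi) (IsV δ lo hi B (c :: d :: R)) L ∧
      (Even L.length ∨ Tri δ lo hi c L ∨ R.length = 1) := by
  have base : ∀ {R : List ι} {c d : ι} {lo : ℝ}, lo ≤ hi →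
      Fresh B (c :: d :: R) → (c :: d :: R).Pairwise (fun a b => δ a ≤ δ b) →
      Thin δ lo hi B (c :: d :: R) → W δ B < lo → hi < W δ (tp B (c :: d :: R)) →
      (∃ L, Cyc (Adj δ lo hi) (IsV δ lo hi B (c :: d :: R)) L ∧
        (Even L.length ∨ Tri δ lo hi c L ∨ R.length = 1)) ∨
      (LH δ lo hi c (d :: R) B ∧ W δ B < lo - δ c ∧ hi < W δ (tp B (d :: R))) := by
    intro R c d lo lh fr so tP h1 h2
    have cB : c ∉ B := fr.2 c (by simp)
    have dB : d ∉ B := fr.2 d (by simp)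
    have cR : c ∉ d :: R := (List.nodup_cons.1 fr.1).1
    have cd : c ≠ d := by rintro rfl; simp at cR
    have le : ∀ k ∈ d :: R, δ c ≤ δ k := (List.pairwise_cons.1 so).1
    have le' : ∀ k ∈ c :: d :: R, δ c ≤ δ k := by
      intro k hk
      rcases List.mem_cons.1 hk with rfl | hk
      · exact le_rfl
      · exact le k hk
    have fr' : Fresh B (d :: R) := ⟨(List.nodup_cons.1 fr.1).2, fun k hk => fr.2 k (by simp [hk])⟩
    have iB : InC B (c :: d :: R) B := by simp [InC]; tauto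
    have pc := hδ c
    have pd := hδ d
    have ct : W δ (tp B (c :: d :: R)) = W δ (tp B (d :: R)) + δ c := by
      have : tp B (c :: d :: R) = insert c (tp B (d :: R)) := by ext; simp; tauto
      rw [this, W_insert (by simp only [mem_tp]; tauto)]
    by_cases a1 : lo ≤ W δ B + δ c
    · left
      have up : ∀ v, IsV δ lo hi B (c :: d :: R) v → Up δ lo hi B v := fun v hv =>
        simplexU hδ tP h1 (fun k hk _ => by linarith [le' k hk]) hv
      have F : Face δ lo hi (c :: d :: R) B B c d := by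
        refine ⟨cd, cB, dB, by simp, by simp, iB, h1, ?_⟩
        have := tP _ (iB.insert (k := c) (by simp)) d (by simp) (by simp [dB, cd.symm])
          (by rw [W_insert cB]; exact a1)
        rwa [W_insert cB] at this
      have ne : pt δ lo hi B c d ≠ pt δ lo hi B d c := fun e => adj_irrefl (e ▸ F.adj)
      obtain ⟨L, hL⟩ := exists_order (A := Adj δ lo hi) F.isV F.symm.isV (Or.inl ne)
        (fun u v hu hv ne => up_adj hδ tP hu hv h1 (up u hu) (up v hv) ne)
      refine ⟨L, ⟨_, _, hL, F.symm.adj⟩, ?_⟩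
      rcases clause_of_clique (hL.two_le hL.mem_hd hL.mem_lt ne)
        (fun v hv => up v ((hL.cov v).1 hv)) with h | ⟨p, y, q, h3, h4⟩
      · exact Or.inl h
      · exact Or.inr (Or.inl ⟨p, y, q, h3, Or.inl ⟨B, cB, h1, a1, h4⟩⟩)
    by_cases a2 : W δ (tp B (d :: R)) ≤ hi
    · left
      have dn : ∀ v, IsV δ lo hi B (c :: d :: R) v → Dn δ lo hi (tp B (c :: d :: R)) v :=
        fun v hv => simplexD hδ tP h2 (fun k hk => by linarith [le' k hk]) hv
      have iT : InC B (c :: d :: R) ((tp B (d :: R)).erase d) :=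
        InC.erase (by simp [InC]; tauto) dB
      have w := W_erase (δ := δ) (X := tp B (d :: R)) (k := d) (by simp)
      have F : Face δ lo hi (c :: d :: R) B ((tp B (d :: R)).erase d) c d := by
        refine ⟨cd, by simp only [Finset.mem_erase, mem_tp]; tauto, by simp, by simp, by simp, iT,
          ?_, by linarith⟩
        by_contra hn
        have := tP _ iT d (by simp) (by simp) (not_lt.1 hn)
        linarith
      have ne : pt δ lo hi ((tp B (d :: R)).erase d) c d ≠
          pt δ lo hi ((tp B (d :: R)).erase d) d c := fun e => adj_irrefl (e ▸ F.adj)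
      obtain ⟨L, hL⟩ := exists_order (A := Adj δ lo hi) F.isV F.symm.isV (Or.inl ne)
        (fun u v hu hv ne => dn_adj hδ lh tP hu hv h2 (dn u hu) (dn v hv) ne)
      refine ⟨L, ⟨_, _, hL, F.symm.adj⟩, ?_⟩
      rcases clause_of_clique (hL.two_le hL.mem_hd hL.mem_lt ne)
        (fun v hv => dn v ((hL.cov v).1 hv)) with h | ⟨p, y, q, h3, h4⟩
      · exact Or.inl h
      · exact Or.inr (Or.inl ⟨p, y, q, h3, Or.inr ⟨_, by simp, h2, by linarith, h4⟩⟩)
    have a1' := not_le.1 a1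
    have a2' := not_le.1 a2
    have H : ZH δ lo hi c (d :: R) B :=
      ⟨hδ, lh, cB, cR, fr', le, (List.pairwise_cons.1 so).2, tP, by linarith, by linarith⟩
    by_cases a3 : ∃ S, InC B R S ∧ lo ≤ W δ S + δ c ∧ W δ S + δ d ≤ hi
    · obtain ⟨S, s1, s2, s3⟩ := a3
      exact Or.inl (H.tie a1' s1 s2 s3)
    right
    refine ⟨⟨hδ, lh, cB, cR, fr', le, tP, ?_⟩, by linarith, a2'⟩
    intro X cX k hk hkX hX
    by_contra hn
    have hn' := not_lt.1 hn
    apply a3
    have dk : δ d ≤ δ k := by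
      rcases List.mem_cons.1 hk with rfl | hk
      · exact le_rfl
      · exact (List.pairwise_cons.1 H.so).1 k hk
    by_cases hd : d ∈ X
    · have kd : k ≠ d := by rintro rfl; exact hkX hd
      have w : W δ (insert k (X.erase d)) = W δ X - δ d + δ k := by
        rw [W_insert (by simp [hkX]), W_erase hd]
      refine ⟨insert k (X.erase d), ?_, by linarith, by linarith⟩
      clear * - cX dB hk kd; unfold InC at *; grind
    · refine ⟨X, ?_, by linarith, by linarith⟩
      clear * - cX hd; unfold InC at *; grind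
  induction R with
  | nil =>
    intro c d lo lh fr so tP h1 h2
    rcases base lh fr so tP h1 h2 with h | ⟨H, h3, h4⟩
    · exact h
    have hdB : d ∉ B := H.fr.2 d (by simp)
    have wt : W δ (tp B [d]) = W δ B + δ d := by
      rw [tp_cons, tp_nil, W_insert hdB]
    have vy : IsV δ (lo - δ c) hi B [d] (B, some d) :=
      ⟨by simp [InC]; tauto, Or.inr ⟨d, rfl, by simp, hdB, h3, by simp only; linarith⟩⟩
    have key : ∀ v, IsV δ (lo - δ c) hi B [d] v → v = (B, some d) := by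
      rintro ⟨X, o⟩ ⟨cX, hv⟩
      simp only at cX hv
      by_cases hdX : d ∈ X
      · have := W_mono1 H.pos cX.1 hdB hdX
        have := H.pos c
        rcases hv with ⟨_, _, h⟩ | ⟨k, _, _, _, h, _⟩ <;> linarith
      · obtain rfl : X = B := by
          ext i
          refine ⟨fun hi => (cX.2 i hi).resolve_right ?_, cX.1 i⟩
          intro h
          obtain rfl : i = d := by simpa using h
          exact hdX hi
        rcases hv with ⟨_, h, _⟩ | ⟨k, rfl, h, _⟩
        · linarith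
        · simpa using h
    obtain ⟨L, p1, _, p3⟩ := H.zig0 vy (Or.inl ⟨d, rfl, rfl⟩) (Or.inl ⟨d, rfl, rfl⟩)
    refine ⟨L, ⟨_, _, p1.congr ?_, (H.rung vy).symm⟩, Or.inl ?_⟩
    · intro v
      rw [← H.cover]
      exact ⟨fun h => ⟨_, vy, h⟩, fun ⟨w, h, h'⟩ => key w h ▸ h'⟩
    · rw [p3]
      · exact even_two
      · refine ⟨?_, fun v hv => by simp [Cen] at hv⟩
        rintro ⟨a, u, v, hu, hv, ne⟩
        exact ne ((part_twin rfl hu).trans (part_twin rfl hv).symm)
  | cons e R ih =>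
    intro c d lo lh fr so tP h1 h2
    rcases base lh fr so tP h1 h2 with h | ⟨H, h3, h4⟩
    · exact h
    have so' := (List.pairwise_cons.1 so).2
    obtain ⟨C, hC, cl⟩ := ih (lo := lo - δ c) (by linarith [hδ c]) H.fr so' H.tQ h3 h4
    obtain ⟨L, hL, cl'⟩ := H.lift (c2 := d)
      (by
        intro k hk
        rcases List.mem_cons.1 hk with rfl | hk
        · exact le_rfl
        · exact (List.pairwise_cons.1 so').1 k hk)
      (by simp) hC (by simpa using cl)
    exact ⟨L, hL, by simpa using cl'⟩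

end Pool.Agent.MP_3fd310_co

end

section

set_option autoImplicit false
set_option linter.unusedSectionVars false

namespace Pool.Agent.MP_3fd310_co

variable {ι : Type*} [DecidableEq ι] [Fintype ι]

def Box (δ : ι → ℝ) (s : ℝ) : Set (ι → ℝ) := {y | (∀ j, 0 ≤ y j ∧ y j ≤ δ j) ∧ ∑ j, y j = s}

noncomputable def emb (δ : ι → ℝ) (s : ℝ) (v : Vx ι) : ι → ℝ :=
  fun j => if j ∈ v.1 then δ j else if v.2 = some j then s - W δ v.1 else 0

def Fc (δ : ι → ℝ) (s : ℝ) (X Z : Finset ι) : Set (ι → ℝ) :=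
  {y | y ∈ Box δ s ∧ (∀ j ∈ X, y j = δ j) ∧ ∀ j, j ∉ X → j ∉ Z → y j = 0}

variable {δ : ι → ℝ} {s : ℝ} {R : List ι}

theorem sum_face {X Z : Finset ι} {y : ι → ℝ} (d : ∀ j ∈ Z, j ∉ X) (h1 : ∀ j ∈ X, y j = δ j)
    (h2 : ∀ j, j ∉ X → j ∉ Z → y j = 0) : ∑ j, y j = W δ X + ∑ j ∈ Z, y j := by
  rw [← Finset.sum_subset (Finset.subset_univ (X ∪ Z)) (fun j _ hj => by
    simp only [Finset.mem_union, not_or] at hj; exact h2 j hj.1 hj.2),
    Finset.sum_union (Finset.disjoint_right.2 d), W, Finset.sum_congr rfl h1]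

theorem fc_extreme (X Z : Finset ι) : IsExtreme ℝ (Box δ s) (Fc δ s X Z) := by
  refine ⟨fun _ h => h.1, ?_⟩
  rintro x hx y hy z ⟨_, h1, h2⟩ ⟨a, b, ha, hb, hab, rfl⟩
  refine ⟨hx, fun j hj => ?_, fun j hj hj' => ?_⟩
  · have := h1 j hj
    simp only [Pi.add_apply, Pi.smul_apply, smul_eq_mul] at this
    have := hx.1 j
    have := hy.1 j
    have e : δ j = a * δ j + b * δ j := by rw [← add_mul, hab, one_mul]
    nlinarith
  · have := h2 j hj hj'
    simp only [Pi.add_apply, Pi.smul_apply, smul_eq_mul] at this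
    have := hx.1 j
    have := hy.1 j
    nlinarith

theorem fc_convex (X Z : Finset ι) : Convex ℝ (Fc δ s X Z) := by
  rintro x ⟨⟨x1, x2⟩, x3, x4⟩ y ⟨⟨y1, y2⟩, y3, y4⟩ a b ha hb hab
  refine ⟨⟨fun j => ?_, ?_⟩, fun j hj => ?_, fun j hj hj' => ?_⟩
  · have := x1 j
    have := y1 j
    have e : δ j = a * δ j + b * δ j := by rw [← add_mul, hab, one_mul]
    simp only [Pi.add_apply, Pi.smul_apply, smul_eq_mul]
    constructor <;> nlinarith
  · simp only [Pi.add_apply, Pi.smul_apply, smul_eq_mul, Finset.sum_add_distrib, ← Finset.mul_sum,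
      x2, y2]
    rw [← add_mul, hab, one_mul]
  · simp only [Pi.add_apply, Pi.smul_apply, smul_eq_mul, x3 j hj, y3 j hj]
    rw [← add_mul, hab, one_mul]
  · simp [x4 j hj hj', y4 j hj hj']

theorem emb_extreme (hδ : ∀ i, 0 < δ i) {v : Vx ι} (hv : IsV δ s s ∅ R v) :
    emb δ s v ∈ (Box δ s).extremePoints ℝ := by
  obtain ⟨X, o⟩ := v
  rw [← isExtreme_singleton]
  rcases hv.2 with ⟨rfl, h1, h2⟩ | ⟨k, rfl, _, h1, h2, h3⟩
  · simp only at h1 h2
    convert fc_extreme (δ := δ) (s := s) X ∅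
    ext y
    constructor
    · rintro rfl
      have a1 : ∀ j ∈ X, emb δ s (X, none) j = δ j := fun j hj => by simp [emb, hj]
      have a2 : ∀ j, j ∉ X → j ∉ (∅ : Finset ι) → emb δ s (X, none) j = 0 :=
        fun j hj _ => by simp [emb, hj]
      refine ⟨⟨fun j => ?_, ?_⟩, a1, a2⟩
      · by_cases hj : j ∈ X <;> simp [emb, hj, (hδ j).le]
      · rw [sum_face (by simp) a1 a2]; simp; linarith
    · rintro ⟨_, a1, a2⟩
      funext j
      by_cases hj : j ∈ X
      · simp [emb, hj, a1 j hj]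
      · simp [emb, hj, a2 j hj]
  · simp only at h1 h2 h3
    convert fc_extreme (δ := δ) (s := s) X {k}
    ext y
    constructor
    · rintro rfl
      have a1 : ∀ j ∈ X, emb δ s (X, some k) j = δ j := fun j hj => by simp [emb, hj]
      have a2 : ∀ j, j ∉ X → j ∉ ({k} : Finset ι) → emb δ s (X, some k) j = 0 :=
        fun j hj hj' => by
          have : k ≠ j := by rintro rfl; simp at hj'
          simp [emb, hj, this]
      refine ⟨⟨fun j => ?_, ?_⟩, a1, a2⟩
      · by_cases hj : j ∈ X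
        · simp [emb, hj, (hδ j).le]
        by_cases hk : k = j
        · subst hk; simp only [emb, hj, if_false, if_true]; constructor <;> linarith
        · simp [emb, hj, hk, (hδ j).le]
      · rw [sum_face (by simpa using h1) a1 a2]; simp [emb, h1]
    · rintro ⟨⟨_, a0⟩, a1, a2⟩
      rw [sum_face (by simpa using h1) a1 a2, Finset.sum_singleton] at a0
      funext j
      by_cases hj : j ∈ X
      · simp [emb, hj, a1 j hj]
      by_cases hk : k = j
      · subst hk; simp only [emb, hj, if_false, if_true]; linarith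
      · simp [emb, hj, hk, a2 j hj (by simpa using Ne.symm hk)]

theorem emb_inj (hδ : ∀ i, 0 < δ i) {u v : Vx ι} (hu : IsV δ s s ∅ R u) (hv : IsV δ s s ∅ R v)
    (e : emb δ s u = emb δ s v) : u = v := by
  have k1 : ∀ v, IsV δ s s ∅ R v → ∀ j, (j ∈ v.1 ↔ emb δ s v j = δ j) ∧
      (v.2 = some j ↔ 0 < emb δ s v j ∧ emb δ s v j < δ j) := by
    rintro ⟨X, o⟩ hv j
    have := hδ j
    rcases hv.2 with ⟨rfl, h1, h2⟩ | ⟨k, rfl, _, h1, h2, h3⟩
    · by_cases hj : j ∈ X <;> simp [emb, hj, this.ne]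
    · simp only at h1 h2 h3
      by_cases hj : j ∈ X
      · have : k ≠ j := by rintro rfl; exact h1 hj
        simp [emb, hj, this]
      by_cases hk : k = j
      · subst hk
        simp only [emb, hj, if_false, if_true, false_iff, true_iff]
        refine ⟨by linarith, by linarith, by linarith⟩
      · simp [emb, hj, hk, this.ne]
  refine Prod.ext ?_ ?_
  · ext j; rw [(k1 u hu j).1, (k1 v hv j).1, e]
  · ext j; rw [(k1 u hu j).2, (k1 v hv j).2, e]

theorem extreme_emb (hR : ∀ i, i ∈ R) {y : ι → ℝ} (hy : y ∈ (Box δ s).extremePoints ℝ) :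
    ∃ v, IsV δ s s ∅ R v ∧ emb δ s v = y := by
  classical
  obtain ⟨⟨h1, h2⟩, h3⟩ := hy
  let X := Finset.univ.filter (fun j => y j = δ j)
  have hX : ∀ j, j ∈ X ↔ y j = δ j := by simp [X]
  have inc : InC ∅ R X := ⟨by simp, fun i _ => Or.inr (hR i)⟩
  by_cases hF : ∃ k, y k ≠ δ k ∧ y k ≠ 0
  · obtain ⟨k, k1, k2⟩ := hF
    have a2 : ∀ j, j ∉ X → j ∉ ({k} : Finset ι) → y j = 0 := by
      intro l l1 l2
      by_contra l3
      have kl : l ≠ k := by simpa using l2
      rw [hX] at l1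
      have b1 := lt_of_le_of_ne (h1 k).1 (Ne.symm k2)
      have b2 := lt_of_le_of_ne (h1 k).2 k1
      have b3 := lt_of_le_of_ne (h1 l).1 (Ne.symm l3)
      have b4 := lt_of_le_of_ne (h1 l).2 l1
      obtain ⟨ε, e0, e1, e2, e3, e4⟩ : ∃ ε : ℝ, 0 < ε ∧ ε ≤ y k ∧ ε ≤ δ k - y k ∧ ε ≤ y l ∧
          ε ≤ δ l - y l :=
        ⟨min (min (y k) (δ k - y k)) (min (y l) (δ l - y l)),
          lt_min (lt_min b1 (by linarith)) (lt_min b3 (by linarith)),
          (min_le_left _ _).trans (min_le_left _ _), (min_le_left _ _).trans (min_le_right _ _),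
          (min_le_right _ _).trans (min_le_left _ _), (min_le_right _ _).trans (min_le_right _ _)⟩
      have mem : ∀ t : ℝ, |t| ≤ ε →
          y + Pi.single k t - Pi.single l t ∈ Box δ s := by
        intro t ht
        have := abs_le.1 ht
        refine ⟨fun j => ?_, ?_⟩
        · by_cases c1 : j = k
          · subst c1; simp [kl.symm]; constructor <;> linarith
          by_cases c2 : j = l
          · subst c2; simp [kl]; constructor <;> linarith
          simpa [c1, c2] using h1 j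
        · simp [Finset.sum_add_distrib, Finset.sum_sub_distrib, h2]
      have := h3 (mem ε (by rw [abs_of_pos e0])) (mem (-ε) (by rw [abs_neg, abs_of_pos e0]))
        ⟨1 / 2, 1 / 2, by norm_num, by norm_num, by norm_num, by
          funext j
          simp only [Pi.add_apply, Pi.smul_apply, Pi.sub_apply, smul_eq_mul, Pi.single_neg,
            Pi.neg_apply]
          ring⟩
      have := congrFun this k
      simp [kl.symm] at this
      linarith
    have kX : k ∉ X := by rw [hX]; exact k1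
    have a0 := h2
    rw [sum_face (by simpa using kX) (fun j hj => (hX j).1 hj) a2, Finset.sum_singleton] at a0
    have b1 := lt_of_le_of_ne (h1 k).1 (Ne.symm k2)
    have b2 := lt_of_le_of_ne (h1 k).2 k1
    refine ⟨(X, some k), ⟨inc, Or.inr ⟨k, rfl, hR k, kX, by simp only; linarith,
      by simp only; linarith⟩⟩, ?_⟩
    funext j
    by_cases hj : j ∈ X
    · simp [emb, hj, (hX j).1 hj]
    by_cases hk : k = j
    · subst hk; simp only [emb, hj, if_false, if_true]; linarith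
    · simp [emb, hj, hk, a2 j hj (by simpa using Ne.symm hk)]
  · push Not at hF
    have a2 : ∀ j, j ∉ X → j ∉ (∅ : Finset ι) → y j = 0 := fun j hj _ => hF j (by rwa [hX] at hj)
    have a0 := h2
    rw [sum_face (by simp) (fun j hj => (hX j).1 hj) a2, Finset.sum_empty] at a0
    refine ⟨(X, none), ⟨inc, Or.inl ⟨rfl, by simp only; linarith, by simp only; linarith⟩⟩, ?_⟩
    funext j
    by_cases hj : j ∈ X
    · simp [emb, hj, (hX j).1 hj]
    · simp [emb, hj, a2 j hj]

theorem emb_pt {X : Finset ι} {k l : ι} (h1 : k ≠ l) (h2 : k ∉ X) (h3 : l ∉ X) (j : ι) :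
    emb δ s (pt δ s s X k l) j = if j ∈ X then δ j else if j = k then min (δ k) (s - W δ X)
      else if j = l then s - W δ X - min (δ k) (s - W δ X) else 0 := by
  rcases pt_cases (δ := δ) (lo := s) (hi := s) X k l with ⟨a, e⟩ | ⟨a, b, e⟩ | ⟨a, b, e⟩ <;>
    rw [e]
  · rw [min_eq_right (by linarith)]
    by_cases c1 : j ∈ X
    · simp [emb, c1]
    by_cases c2 : j = k
    · simp [emb, c2, h2]
    · simp [emb, c1, c2, Ne.symm c2]
  · rw [min_eq_left (by linarith)]
    by_cases c1 : j ∈ X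
    · simp [emb, c1]
    by_cases c2 : j = k
    · simp [emb, c2, h2]
    by_cases c3 : j = l
    · simp [emb, c3, h3, h1.symm, W_insert h2]; ring
    · simp [emb, c1, c2, c3, Ne.symm c3]
  · rw [min_eq_left (by linarith)]
    by_cases c1 : j ∈ X
    · simp [emb, c1]
    by_cases c2 : j = k
    · simp [emb, c2, h2]
    by_cases c3 : j = l
    · simp [emb, c3, h3, h1.symm]; linarith
    · simp [emb, c1, c2, c3]

theorem adj_extreme (hδ : ∀ i, 0 < δ i) {u v : Vx ι} (h : Adj δ s s u v) :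
    IsExtreme ℝ (Box δ s) (segment ℝ (emb δ s u) (emb δ s v)) := by
  obtain ⟨X, k, l, h1, h2, h3, h4, h5, rfl, rfl⟩ := h
  have dZ : ∀ j ∈ ({k, l} : Finset ι), j ∉ X := by simp [h2, h3]
  have mem : ∀ k l : ι, k ≠ l → k ∉ X → l ∉ X → s < W δ X + δ k + δ l →
      emb δ s (pt δ s s X k l) ∈ Fc δ s X {k, l} := by
    intro k l h1 h2 h3 h5
    have a1 : ∀ j ∈ X, emb δ s (pt δ s s X k l) j = δ j := fun j hj => by
      simp [emb_pt h1 h2 h3, hj]
    have a2 : ∀ j, j ∉ X → j ∉ ({k, l} : Finset ι) → emb δ s (pt δ s s X k l) j = 0 :=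
      fun j hj hj' => by
        simp only [Finset.mem_insert, Finset.mem_singleton, not_or] at hj'
        simp [emb_pt h1 h2 h3, hj, hj'.1, hj'.2]
    refine ⟨⟨fun j => ?_, ?_⟩, a1, a2⟩
    · rw [emb_pt h1 h2 h3]
      have := hδ j
      have := hδ k
      have m1 := min_le_left (δ k) (s - W δ X)
      have m2 := min_le_right (δ k) (s - W δ X)
      split_ifs with c1 c2 c3
      · exact ⟨by linarith, le_rfl⟩
      · subst c2; exact ⟨le_min (by linarith) (by linarith), m1⟩
      · subst c3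
        refine ⟨by linarith, ?_⟩
        rcases min_cases (δ k) (s - W δ X) with ⟨e, _⟩ | ⟨e, _⟩ <;> rw [e] <;> linarith
      · exact ⟨le_rfl, by linarith⟩
    · rw [sum_face (by simp [h2, h3]) a1 a2, Finset.sum_pair h1, emb_pt h1 h2 h3, emb_pt h1 h2 h3]
      simp [h2, h3, h1.symm]
  have m1 := mem k l h1 h2 h3 h5
  have m2 := mem l k h1.symm h3 h2 (by linarith)
  rw [Finset.pair_comm] at m2
  convert fc_extreme (δ := δ) (s := s) X {k, l}
  refine Set.Subset.antisymm ((fc_convex X {k, l}).segment_subset m1 m2) ?_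
  rintro y ⟨⟨y1, y2⟩, y3, y4⟩
  rw [sum_face dZ y3 y4, Finset.sum_pair h1] at y2
  have pk := hδ k
  have pl := hδ l
  have yk := y1 k
  have yl := y1 l
  obtain ⟨a, ha⟩ : ∃ a, a = min (δ k) (s - W δ X) := ⟨_, rfl⟩
  obtain ⟨b, hb⟩ : ∃ b, b = min (δ l) (s - W δ X) := ⟨_, rfl⟩
  have a1 : y k ≤ a := ha ▸ le_min yk.2 (by linarith)
  have b1 : y l ≤ b := hb ▸ le_min yl.2 (by linarith)
  have ab : 0 < a + b - (s - W δ X) := by
    rcases min_cases (δ k) (s - W δ X) with ⟨e, _⟩ | ⟨e, _⟩ <;>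
    rcases min_cases (δ l) (s - W δ X) with ⟨e', _⟩ | ⟨e', _⟩ <;> rw [ha, hb, e, e'] <;> linarith
  refine ⟨(b - y l) / (a + b - (s - W δ X)), (a - y k) / (a + b - (s - W δ X)),
    div_nonneg (by linarith) ab.le, div_nonneg (by linarith) ab.le, ?_, ?_⟩
  · rw [← add_div, div_eq_one_iff_eq ab.ne']; linarith
  · funext j
    simp only [Pi.add_apply, Pi.smul_apply, smul_eq_mul, emb_pt h1 h2 h3, emb_pt h1.symm h3 h2,
      ← ha, ← hb]
    have e : s - W δ X = y k + y l := by linarith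
    rw [e] at ab ⊢
    by_cases c1 : j ∈ X
    · simp only [c1, if_true, y3 j c1]
      field_simp
      ring
    by_cases c2 : j = k
    · subst c2
      simp only [c1, if_false, if_true, h1]
      field_simp
      ring
    by_cases c3 : j = l
    · subst c3
      simp only [c1, if_false, if_true, c2]
      field_simp
      ring
    · simp [c1, c2, c3, y4 j c1 (by simp [c2, c3])]

theorem box_ham (hδ : ∀ i, 0 < δ i) (h2 : 2 ≤ Fintype.card ι) (s0 : 0 < s) (s1 : s < ∑ j, δ j) :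
    ∃ (n : ℕ) (f : Fin n → (ι → ℝ)), Function.Injective f ∧
      Set.range f = (Box δ s).extremePoints ℝ ∧
      ∀ i, IsExtreme ℝ (Box δ s) (segment ℝ (f i) (f (finRotate n i))) := by
  classical
  obtain ⟨R, hp, so⟩ : ∃ R : List ι, R.Perm Finset.univ.toList ∧
      R.Pairwise (fun a b => δ a ≤ δ b) :=
    ⟨Finset.univ.toList.mergeSort (fun a b => decide (δ a ≤ δ b)), List.mergeSort_perm _ _, by
      simpa using List.pairwise_mergeSort (le := fun a b => decide (δ a ≤ δ b))
        (fun a b c => by simpa using le_trans) (fun a b => by simpa using le_total _ _) _⟩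
  have hR : ∀ i, i ∈ R := fun i => hp.mem_iff.2 (by simp)
  have nd : R.Nodup := hp.nodup_iff.2 (Finset.nodup_toList _)
  have hl : 2 ≤ R.length := by rw [hp.length_eq]; simpa using h2
  match R, hR, nd, hl, so with
  | c :: d :: R, hR, nd, _, so =>
    have eT : tp ∅ (c :: d :: R) = Finset.univ := by ext i; simpa using hR i
    obtain ⟨L, ⟨x, z, hL, ad⟩, _⟩ := ht (B := ∅) (hi := s) hδ le_rfl ⟨nd, by simp⟩ so
      (fun X _ k _ _ h => by linarith [hδ k]) (by simpa [W] using s0) (by rw [eT]; exact s1)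
    obtain ⟨m, hm⟩ : ∃ m, L.length = m + 1 := ⟨L.length - 1, by have := hL.pos; omega⟩
    have vL : ∀ i (h : i < L.length), IsV δ s s ∅ (c :: d :: R) L[i] :=
      fun i h => (hL.cov _).1 (List.getElem_mem h)
    refine ⟨m + 1, fun i => emb δ s (L[i.1]'(by omega)), ?_, ?_, ?_⟩
    · intro i j hij
      have := emb_inj hδ (vL _ _) (vL _ _) hij
      exact Fin.ext ((List.Nodup.getElem_inj_iff hL.nd).1 this)
    · ext y
      constructor
      · rintro ⟨i, rfl⟩
        exact emb_extreme hδ (vL _ _)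
      · intro hy
        obtain ⟨v, hv, rfl⟩ := extreme_emb hR hy
        obtain ⟨i, hi, rfl⟩ := List.getElem_of_mem ((hL.cov v).2 hv)
        exact ⟨⟨i, by omega⟩, rfl⟩
    · intro i
      apply adj_extreme hδ
      by_cases e : i = Fin.last m
      · subst e
        have e1 : L[(Fin.last m).1]'(by simp [hm]) = z := by
          have := hL.lt
          rw [List.getLast?_eq_getElem?, hm, List.getElem?_eq_some_iff] at this
          obtain ⟨_, h⟩ := this
          simpa using h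
        have e2 : L[(finRotate (m + 1) (Fin.last m)).1]'(by simp [hm]) = x := by
          have := hL.hd
          rw [List.head?_eq_getElem?, List.getElem?_eq_some_iff] at this
          obtain ⟨_, h⟩ := this
          simpa using h
        rw [e1, e2]; exact ad
      · have e1 := coe_finRotate_of_ne_last e
        have := List.isChain_iff_getElem.1 hL.ch i.1 (by
          have := (finRotate (m + 1) i).2
          omega)
        simpa only [e1] using this

theorem transfer {E : Type*} [AddCommGroup E] [Module ℝ E] {P : Set E} (hP : Convex ℝ P)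
    (ρ : E →ₗ[ℝ] (ι → ℝ)) {Q : Set (ι → ℝ)} (inj : Set.InjOn ρ P) (im : ρ '' P = Q)
    (h : ∃ (n : ℕ) (f : Fin n → (ι → ℝ)), Function.Injective f ∧
      Set.range f = Q.extremePoints ℝ ∧
      ∀ i, IsExtreme ℝ Q (segment ℝ (f i) (f (finRotate n i)))) :
    ∃ (n : ℕ) (f : Fin n → E), Function.Injective f ∧
      Set.range f = P.extremePoints ℝ ∧
      ∀ i, IsExtreme ℝ P (segment ℝ (f i) (f (finRotate n i))) := by
  obtain ⟨n, f, h1, h2, h3⟩ := h
  have hf : ∀ i, ∃ x ∈ P, ρ x = f i := by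
    intro i
    have : f i ∈ Q := extremePoints_subset (h2 ▸ Set.mem_range_self i)
    rw [← im] at this
    exact this
  choose g g1 g2 using hf
  have mQ : ∀ x ∈ P, ρ x ∈ Q := fun x hx => im ▸ Set.mem_image_of_mem _ hx
  have os : ∀ x y z : E, z ∈ openSegment ℝ x y → ρ z ∈ openSegment ℝ (ρ x) (ρ y) := by
    rintro x y z ⟨a, b, ha, hb, hab, rfl⟩
    exact ⟨a, b, ha, hb, hab, by simp⟩
  refine ⟨n, g, fun i j hij => h1 (by rw [← g2, ← g2, hij]), ?_, ?_⟩
  · ext x
    constructor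
    · rintro ⟨i, rfl⟩
      have : f i ∈ Q.extremePoints ℝ := h2 ▸ Set.mem_range_self i
      refine ⟨g1 i, fun x1 a1 x2 a2 a3 => inj a1 (g1 i) ?_⟩
      rw [g2]
      exact this.2 (mQ _ a1) (mQ _ a2) (g2 i ▸ os _ _ _ a3)
    · intro hx
      have : ρ x ∈ Q.extremePoints ℝ := by
        refine ⟨mQ _ hx.1, ?_⟩
        rw [← im]
        rintro _ ⟨x1, a1, rfl⟩ _ ⟨x2, a2, rfl⟩ ⟨a, b, ha, hb, hab, e⟩
        have : a • x1 + b • x2 = x := inj (hP a1 a2 ha.le hb.le hab) hx.1 (by simpa using e)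
        rw [hx.2 a1 a2 ⟨a, b, ha, hb, hab, this⟩]
      rw [← h2] at this
      obtain ⟨i, hi⟩ := this
      exact ⟨i, inj (g1 i) hx.1 (by rw [g2, hi])⟩
  · intro i
    refine ⟨hP.segment_subset (g1 _) (g1 _), ?_⟩
    rintro x hx y hy z ⟨a, b, ha, hb, hab, rfl⟩ hz
    obtain ⟨a', b', ha', hb', hab', e⟩ := (h3 i).2 (mQ _ hx) (mQ _ hy)
      ⟨a, b, ha, hb, hab, by simp [← g2]⟩ (os _ _ _ hz)
    exact ⟨a', b', ha', hb', hab', inj (hP (g1 _) (g1 _) ha' hb' hab') hx (by simpa [g2] using e)⟩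

end Pool.Agent.MP_3fd310_co

end

section

set_option autoImplicit false

namespace Pool.Agent.MP_3fd310_co

def TP {p q : ℕ} (u : Fin p → ℝ) (v : Fin q → ℝ) : Set (Fin p → Fin q → ℝ) :=
  {x | (∀ i j, 0 ≤ x i j) ∧ (∀ i, (∑ j, x i j) = u i) ∧ (∀ j, (∑ i, x i j) = v j)}

theorem tp_convex {p q : ℕ} (u : Fin p → ℝ) (v : Fin q → ℝ) : Convex ℝ (TP u v) := by
  rintro x ⟨x1, x2, x3⟩ y ⟨y1, y2, y3⟩ a b ha hb hab
  refine ⟨fun i j => ?_, fun i => ?_, fun j => ?_⟩
  · simp only [Pi.add_apply, Pi.smul_apply, smul_eq_mul]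
    exact add_nonneg (mul_nonneg ha (x1 i j)) (mul_nonneg hb (y1 i j))
  · simp only [Pi.add_apply, Pi.smul_apply, smul_eq_mul, Finset.sum_add_distrib, ← Finset.mul_sum,
      x2, y2]
    rw [← add_mul, hab, one_mul]
  · simp only [Pi.add_apply, Pi.smul_apply, smul_eq_mul, Finset.sum_add_distrib, ← Finset.mul_sum,
      x3, y3]
    rw [← add_mul, hab, one_mul]

theorem tp_small {p q : ℕ} (u : Fin p → ℝ) (v : Fin q → ℝ) (h : p ≤ 1 ∨ q ≤ 1) :
    (Set.extremePoints ℝ (TP u v)).ncard ≤ 1 := by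
  have : (TP u v).Subsingleton := by
    rintro x ⟨_, x2, x3⟩ y ⟨_, y2, y3⟩
    funext i j
    rcases h with h | h
    · have : Subsingleton (Fin p) := Fin.subsingleton_iff_le_one.2 h
      have e := (x3 j).trans (y3 j).symm
      rwa [Fintype.sum_subsingleton _ i, Fintype.sum_subsingleton _ i] at e
    · have : Subsingleton (Fin q) := Fin.subsingleton_iff_le_one.2 h
      have e := (x2 i).trans (y2 i).symm
      rwa [Fintype.sum_subsingleton _ j, Fintype.sum_subsingleton _ j] at e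
  have h2 : (Set.extremePoints ℝ (TP u v)).Subsingleton := this.anti extremePoints_subset
  exact (Set.ncard_le_one h2.finite).2 (fun a ha b hb => h2 ha hb)

theorem tp_rows {q : ℕ} (hq : 2 ≤ q) (u : Fin 2 → ℝ) (v : Fin q → ℝ) (hu : ∀ i, 0 < u i)
    (hv : ∀ j, 0 < v j) (h : (∑ i, u i) = ∑ j, v j) :
    ∃ (n : ℕ) (f : Fin n → (Fin 2 → Fin q → ℝ)), Function.Injective f ∧
      Set.range f = Set.extremePoints ℝ (TP u v) ∧
      ∀ i : Fin n, IsExtreme ℝ (TP u v) (segment ℝ (f i) (f (finRotate n i))) := by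
  rw [Fin.sum_univ_two] at h
  refine transfer (tp_convex u v) (LinearMap.proj 0) (Q := Box v (u 0)) ?_ ?_
    (box_ham hv (by simpa using hq) (hu 0) (by linarith [hu 1]))
  · rintro x ⟨_, _, x3⟩ y ⟨_, _, y3⟩ e
    simp only [LinearMap.proj_apply] at e
    funext i j
    have a := x3 j
    have b := y3 j
    rw [Fin.sum_univ_two] at a b
    have c := congrFun e j
    fin_cases i
    · exact c
    · simp only [Fin.mk_one, Fin.isValue]; linarith
  · ext y
    constructor
    · rintro ⟨x, ⟨x1, x2, x3⟩, rfl⟩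
      refine ⟨fun j => ⟨x1 0 j, ?_⟩, x2 0⟩
      have a := x3 j
      rw [Fin.sum_univ_two] at a
      simp only [LinearMap.proj_apply]
      linarith [x1 1 j]
    · rintro ⟨y1, y2⟩
      refine ⟨![y, fun j => v j - y j], ⟨?_, ?_, ?_⟩, by simp⟩
      · intro i j
        fin_cases i
        · exact (y1 j).1
        · simpa using (y1 j).2
      · intro i
        fin_cases i
        · simpa using y2
        · simp [Finset.sum_sub_distrib, y2]; linarith
      · intro j; simp [Fin.sum_univ_two]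

theorem tp_cols {p : ℕ} (hp : 2 ≤ p) (u : Fin p → ℝ) (v : Fin 2 → ℝ) (hu : ∀ i, 0 < u i)
    (hv : ∀ j, 0 < v j) (h : (∑ i, u i) = ∑ j, v j) :
    ∃ (n : ℕ) (f : Fin n → (Fin p → Fin 2 → ℝ)), Function.Injective f ∧
      Set.range f = Set.extremePoints ℝ (TP u v) ∧
      ∀ i : Fin n, IsExtreme ℝ (TP u v) (segment ℝ (f i) (f (finRotate n i))) := by
  rw [Fin.sum_univ_two] at h
  refine transfer (tp_convex u v)
    (LinearMap.pi fun i => (LinearMap.proj (R := ℝ) (φ := fun _ : Fin 2 => ℝ) 0).comp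
      (LinearMap.proj (R := ℝ) (φ := fun _ : Fin p => Fin 2 → ℝ) i)) (Q := Box u (v 0)) ?_ ?_
    (box_ham hu (by simpa using hp) (hv 0) (by linarith [hv 1]))
  · rintro x ⟨_, x3, _⟩ y ⟨_, y3, _⟩ e
    funext i j
    have a := x3 i
    have b := y3 i
    rw [Fin.sum_univ_two] at a b
    have c : x i 0 = y i 0 := congrFun e i
    fin_cases j
    · exact c
    · simp only [Fin.mk_one, Fin.isValue]; linarith
  · ext y
    constructor
    · rintro ⟨x, ⟨x1, x2, x3⟩, rfl⟩
      refine ⟨fun i => ⟨x1 i 0, ?_⟩, x3 0⟩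
      have a := x2 i
      rw [Fin.sum_univ_two] at a
      show x i 0 ≤ u i
      linarith [x1 i 1]
    · rintro ⟨y1, y2⟩
      refine ⟨fun i => ![y i, u i - y i], ⟨?_, ?_, ?_⟩, by funext i; simp⟩
      · intro i j
        fin_cases j
        · exact (y1 i).1
        · simpa using (y1 i).2
      · intro i; simp [Fin.sum_univ_two]
      · intro j
        fin_cases j
        · simpa using y2
        · simp [Finset.sum_sub_distrib, y2]; linarith

theorem tp_ham (p q : ℕ) (hpq : p ≤ 2 ∨ q ≤ 2) (u : Fin p → ℝ) (v : Fin q → ℝ)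
    (hu : ∀ i, 0 < u i) (hv : ∀ j, 0 < v j) (h : (∑ i, u i) = ∑ j, v j)
    (h3 : 3 ≤ (Set.extremePoints ℝ (TP u v)).ncard) :
    ∃ (n : ℕ) (f : Fin n → (Fin p → Fin q → ℝ)), Function.Injective f ∧
      Set.range f = Set.extremePoints ℝ (TP u v) ∧
      ∀ i : Fin n, IsExtreme ℝ (TP u v) (segment ℝ (f i) (f (finRotate n i))) := by
  by_cases hs : p ≤ 1 ∨ q ≤ 1
  · have := tp_small u v hs
    omega
  push Not at hs
  rcases hpq with h2 | h2
  · obtain rfl : p = 2 := by omega
    exact tp_rows hs.2 u v hu hv h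
  · obtain rfl : q = 2 := by omega
    exact tp_cols hs.1 u v hu hv h

end Pool.Agent.MP_3fd310_co

end
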