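import Mathlib

section

set_option autoImplicit false

namespace Pool.Agent.MP_3fd310_co

open List

variable {α : Type*}

/-- A Hamilton path of the set S from x to z. -/
structure HP (A : α → α → Prop) (S : α → Prop) (x z : α) (L : List α) : Prop where
  nd : L.Nodup
  ch : L.IsChain A
  cov : ∀ v, v ∈ L ↔ S v
  hd : L.head? = some x
  lt : L.getLast? = some z

/-- t or its reverse is a contiguous block of L. -/
def SInf (t L : List α) : Prop := t <:+: L ∨ t.reverse <:+: L

theorem SInf.rev {t L : List α} (h : SInf t L) : SInf t L.reverse := by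
  rcases h with h | h
  · right; exact List.reverse_infix.2 h
  · left
    have := List.reverse_infix.2 h
    simpa using this

theorem SInf.rev' {t L : List α} (h : SInf t L) : SInf t.reverse L := by
  rcases h with h | h
  · right; simpa using h
  · left; exact h

theorem SInf.mono {t L L' : List α} (h : SInf t L) (h' : L <:+: L') : SInf t L' := by
  rcases h with h | h
  · left; exact h.trans h'
  · right; exact h.trans h'

theorem SInf.trans {t L L' : List α} (h : SInf t L) (h' : SInf L L') : SInf t L' := by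
  rcases h' with h' | h'
  · exact h.mono h'
  · exact h.rev.mono h'

theorem SInf.of_infix {t L : List α} (h : t <:+: L) : SInf t L := Or.inl h

theorem SInf.mem {t L : List α} (h : SInf t L) {v : α} (hv : v ∈ t) : v ∈ L := by
  rcases h with h | h
  · exact h.subset hv
  · exact h.subset (by simpa using hv)

theorem SInf.symm2 {L : List α} {u v : α} (h : SInf [u, v] L) : SInf [v, u] L := by
  simpa using h.rev'

theorem SInf.symm3 {L : List α} {u v w : α} (h : SInf [u, v, w] L) : SInf [w, v, u] L := by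
  simpa using h.rev'

theorem infix_pair_pair {a b c d : α} (h : [a, b] <:+: [c, d]) : a = c ∧ b = d := by
  have := h.sublist.eq_of_length (by simp)
  simpa using this

theorem sinf_pair_pair {a b c d : α} (h : SInf [a, b] [c, d]) :
    (a = c ∧ b = d) ∨ (a = d ∧ b = c) := by
  rcases h with h | h
  · exact Or.inl (infix_pair_pair h)
  · have := infix_pair_pair (by simpa using h : [b, a] <:+: [c, d])
    exact Or.inr ⟨this.2, this.1⟩

theorem HP.mem_hd {A : α → α → Prop} {S : α → Prop} {x z : α} {L : List α} (h : HP A S x z L) :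
    S x := (h.cov x).1 (List.mem_of_mem_head? h.hd)

theorem HP.mem_lt {A : α → α → Prop} {S : α → Prop} {x z : α} {L : List α} (h : HP A S x z L) :
    S z := (h.cov z).1 (List.mem_of_mem_getLast? h.lt)

theorem HP.congr {A : α → α → Prop} {S S' : α → Prop} {x z : α} {L : List α} (h : HP A S x z L)
    (e : ∀ v, S v ↔ S' v) : HP A S' x z L :=
  ⟨h.nd, h.ch, fun v => (h.cov v).trans (e v), h.hd, h.lt⟩

theorem HP.rev {A : α → α → Prop} (hs : ∀ a b, A a b → A b a) {S : α → Prop} {x z : α}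
    {L : List α} (h : HP A S x z L) : HP A S z x L.reverse := by
  refine ⟨List.nodup_reverse.2 h.nd, ?_, fun v => by simpa using h.cov v, by simpa using h.lt,
    by simpa using h.hd⟩
  rw [List.isChain_reverse]
  exact h.ch.imp (fun a b hab => hs a b hab)

theorem HP.single (A : α → α → Prop) (x : α) : HP A (fun v => v = x) x x [x] :=
  ⟨by simp, by simp, by simp, rfl, rfl⟩

theorem HP.append {A : α → α → Prop} {S S' : α → Prop} {x y y' z : α} {L L' : List α}
    (h : HP A S x y L) (h' : HP A S' y' z L') (a : A y y') (d : ∀ v, S v → ¬ S' v) :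
    HP A (fun v => S v ∨ S' v) x z (L ++ L') := by
  refine ⟨?_, ?_, ?_, ?_, ?_⟩
  · rw [List.nodup_append]
    refine ⟨h.nd, h'.nd, ?_⟩
    intro a ha b hb hab
    subst hab
    exact d a ((h.cov a).1 ha) ((h'.cov a).1 hb)
  · rw [List.isChain_append]
    refine ⟨h.ch, h'.ch, ?_⟩
    intro a ha b hb
    rw [h.lt] at ha
    rw [h'.hd] at hb
    simp only [Option.mem_def, Option.some.injEq] at ha hb
    subst ha; subst hb; exact a
  · intro v
    simp [h.cov v, h'.cov v]
  · simp [List.head?_append, h.hd]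
  · simp [List.getLast?_append, h'.lt]

theorem HP.eq_cons {A : α → α → Prop} {S : α → Prop} {x z : α} {L : List α} (h : HP A S x z L) :
    ∃ t, L = x :: t := by
  have := h.hd
  cases L with
  | nil => simp at this
  | cons a t => simp at this; exact ⟨t, by rw [this]⟩

theorem HP.eq_concat {A : α → α → Prop} {S : α → Prop} {x z : α} {L : List α}
    (h : HP A S x z L) : ∃ t, L = t ++ [z] := by
  have := h.lt
  rcases List.eq_nil_or_concat L with rfl | ⟨t, a, rfl⟩
  · simp at this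
  · simp at this; exact ⟨t, by simp [this]⟩

theorem isChain_of_clique {A : α → α → Prop} {L : List α} (nd : L.Nodup)
    (h : ∀ a ∈ L, ∀ b ∈ L, a ≠ b → A a b) : L.IsChain A := by
  apply List.Pairwise.isChain
  exact List.Pairwise.imp_of_mem (fun ha hb hab => h _ ha _ hb hab) nd

/-- Ordering of a finite clique with prescribed ends. -/
theorem exists_order [Finite α] {A : α → α → Prop} {S : α → Prop} {x z : α} (hx : S x) (hz : S z)
    (hxz : x ≠ z ∨ ∀ v, S v → v = x) (cl : ∀ a b, S a → S b → a ≠ b → A a b) :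
    ∃ L, HP A S x z L := by
  classical
  by_cases e : x = z
  · subst e
    have h1 : ∀ v, S v → v = x := by simpa using hxz
    exact ⟨[x], (HP.single A x).congr (fun v => ⟨fun h => h ▸ hx, h1 v⟩)⟩
  · have := Fintype.ofFinite α
    let M := (Finset.univ.filter (fun v => S v ∧ v ≠ x ∧ v ≠ z)).toList
    have hM : ∀ v, v ∈ M ↔ S v ∧ v ≠ x ∧ v ≠ z := by intro v; simp [M]
    have nd : (x :: (M ++ [z])).Nodup := by
      rw [List.nodup_cons, List.nodup_append]
      refine ⟨?_, Finset.nodup_toList _, by simp, ?_⟩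
      · simp [hM, e]
      · intro a ha b hb
        simp only [List.mem_singleton] at hb
        subst hb
        exact ((hM a).1 ha).2.2
    have cov : ∀ v, v ∈ x :: (M ++ [z]) ↔ S v := by
      intro v
      simp only [List.mem_cons, List.mem_append, hM, List.not_mem_nil, or_false]
      constructor
      · rintro (rfl | h | rfl)
        · exact hx
        · exact h.1
        · exact hz
      · intro h
        by_cases h1 : v = x
        · exact Or.inl h1
        by_cases h2 : v = z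
        · exact Or.inr (Or.inr h2)
        exact Or.inr (Or.inl ⟨h, h1, h2⟩)
    refine ⟨x :: (M ++ [z]), nd, isChain_of_clique nd ?_, cov, rfl, ?_⟩
    · intro a ha b hb hab
      exact cl a b ((cov a).1 ha) ((cov b).1 hb) hab
    · rw [← List.cons_append, List.getLast?_append]; simp

theorem exists_order_from [Finite α] {A : α → α → Prop} {S : α → Prop} {x : α} (hx : S x)
    (cl : ∀ a b, S a → S b → a ≠ b → A a b) : ∃ z L, HP A S x z L := by
  by_cases h : ∀ v, S v → v = x
  · obtain ⟨L, hL⟩ := exists_order hx hx (Or.inr h) cl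
    exact ⟨x, L, hL⟩
  · push Not at h
    obtain ⟨z, hz, hzx⟩ := h
    obtain ⟨L, hL⟩ := exists_order hx hz (Or.inl hzx.symm) cl
    exact ⟨z, L, hL⟩

theorem infix_split {t l1 l2 : List α} {u v : α} (h : t <:+: l1 ++ u :: v :: l2) :
    t <:+: l1 ++ [u] ∨ t <:+: v :: l2 ∨ [u, v] <:+: t := by
  have e : l1 ++ u :: v :: l2 = (l1 ++ [u]) ++ (v :: l2) := by simp
  rw [e, List.infix_append_iff] at h
  rcases h with h | h | ⟨a, b, rfl, ha, hb⟩
  · exact Or.inl h
  · exact Or.inr (Or.inl h)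
  · rcases List.eq_nil_or_concat a with rfl | ⟨a', x, rfl⟩
    · exact Or.inr (Or.inl (by simpa using hb.isInfix))
    · cases b with
      | nil => exact Or.inl (by simpa using ha.isInfix)
      | cons y b' =>
        right; right
        obtain ⟨s, hs⟩ := ha
        obtain ⟨s', hs'⟩ := hb
        have h1 : x = u := by
          have := congrArg List.getLast? hs
          simpa [List.getLast?_append] using this
        have h2 : y = v := by
          simp only [List.cons_append, List.cons.injEq] at hs'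
          exact hs'.1
        subst h1; subst h2
        exact ⟨a', b', by simp⟩

theorem HP.insert0 {A : α → α → Prop} {S S' : α → Prop} {x z u v m m' : α} {L M : List α}
    (h : HP A S x z L) (e : [u, v] <:+: L) (hM : HP A S' m m' M) (a1 : A u m) (a2 : A m' v)
    (d : ∀ w, S w → ¬ S' w) :
    ∃ L', HP A (fun w => S w ∨ S' w) x z L' ∧ (∀ t, t <:+: L → t <:+: L' ∨ [u, v] <:+: t) ∧
      (u :: (M ++ [v])) <:+: L' ∧ L'.length = L.length + M.length := by
  obtain ⟨l1, l2, rfl⟩ := e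
  have e1 : l1 ++ [u, v] ++ l2 = (l1 ++ [u]) ++ (v :: l2) := by simp
  have nd := h.nd
  have ch := h.ch
  rw [e1] at nd ch
  rw [List.nodup_append] at nd
  rw [List.isChain_append] at ch
  have p1 : HP A (fun w => w ∈ l1 ++ [u]) x u (l1 ++ [u]) := by
    refine ⟨nd.1, ch.1, fun _ => Iff.rfl, ?_, by simp⟩
    have := h.hd
    cases l1 with
    | nil => simpa using this
    | cons a t => simpa using this
  have p2 : HP A (fun w => w ∈ v :: l2) v z (v :: l2) := by
    refine ⟨nd.2.1, ch.2.1, fun _ => Iff.rfl, rfl, ?_⟩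
    have := h.lt
    rw [e1, List.getLast?_append] at this
    cases hl : (v :: l2).getLast? with
    | none => simp at hl
    | some w => rw [hl] at this; simpa using this
  have hS : ∀ w, S w ↔ (w ∈ l1 ++ [u] ∨ w ∈ v :: l2) := by
    intro w
    rw [← h.cov w, e1, List.mem_append]
  have p3 := (p1.append hM a1 (fun w hw => d w ((hS w).2 (Or.inl hw)))).append p2 a2 (by
    rintro w (hw | hw) hw'
    · exact nd.2.2 w hw w hw' rfl
    · exact d w ((hS w).2 (Or.inr hw')) hw)
  refine ⟨_, p3.congr (fun w => by rw [hS w]; tauto), ?_, ⟨l1, l2, by simp⟩, by simp; omega⟩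
  intro t ht
  have ht' : t <:+: l1 ++ u :: v :: l2 := by simpa using ht
  rcases infix_split ht' with h1 | h1 | h1
  · left; exact h1.trans ⟨[], M ++ v :: l2, by simp⟩
  · left; exact h1.trans ⟨l1 ++ [u] ++ M, [], by simp⟩
  · right; exact h1

theorem HP.insert {A : α → α → Prop} (hs : ∀ a b, A a b → A b a) {S S' : α → Prop}
    {x z u v m m' : α} {L M : List α}
    (h : HP A S x z L) (e : SInf [u, v] L) (hM : HP A S' m m' M) (a1 : A u m) (a2 : A m' v)
    (d : ∀ w, S w → ¬ S' w) :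
    ∃ L', HP A (fun w => S w ∨ S' w) x z L' ∧ (∀ t, SInf t L → SInf t L' ∨ SInf [u, v] t) ∧
      SInf (u :: (M ++ [v])) L' ∧ L'.length = L.length + M.length := by
  rcases e with e | e
  · obtain ⟨L', h1, h2, h3, h4⟩ := h.insert0 e hM a1 a2 d
    refine ⟨L', h1, ?_, Or.inl h3, h4⟩
    rintro t (ht | ht)
    · rcases h2 t ht with h5 | h5
      · exact Or.inl (Or.inl h5)
      · exact Or.inr (Or.inl h5)
    · rcases h2 _ ht with h5 | h5
      · exact Or.inl (Or.inr h5)
      · right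
        have := (SInf.of_infix h5).rev
        simpa using this
  · have e' : [v, u] <:+: L := by simpa using e
    obtain ⟨L', h1, h2, h3, h4⟩ := h.insert0 e' (hM.rev hs) (hs _ _ a2) (hs _ _ a1) d
    refine ⟨L', h1, ?_, Or.inr (by simpa using h3), by simpa using h4⟩
    rintro t (ht | ht)
    · rcases h2 t ht with h5 | h5
      · exact Or.inl (Or.inl h5)
      · exact Or.inr (SInf.of_infix h5).symm2
    · rcases h2 _ ht with h5 | h5
      · exact Or.inl (Or.inr h5)
      · right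
        have := (SInf.of_infix h5).rev
        have h6 : SInf [v, u] t := by simpa using this
        exact h6.symm2

/-- If the last vertex z of a path has the neighbour f, then the list ends with f, z. -/
theorem HP.last_nbr {A : α → α → Prop} {S : α → Prop} {x z f : α} {L : List α}
    (h : HP A S x z L) (e : SInf [z, f] L) : ∃ t, L = t ++ [f, z] := by
  obtain ⟨t, rfl⟩ := h.eq_concat
  have nd := h.nd
  rcases e with ⟨l1, l2, e⟩ | ⟨l1, l2, e⟩
  · exfalso
    rw [← e] at nd
    have hl := congrArg List.getLast? e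
    have hz : z ∈ f :: l2 := by
      have e1 : l1 ++ [z, f] ++ l2 = (l1 ++ [z]) ++ (f :: l2) := by simp
      rw [e1, List.getLast?_append] at hl
      cases hl2 : (f :: l2).getLast? with
      | none => simp at hl2
      | some w =>
        rw [hl2] at hl
        have : w = z := by simpa using hl
        subst this
        exact List.mem_of_mem_getLast? hl2
    have e1 : l1 ++ [z, f] ++ l2 = (l1 ++ [z]) ++ (f :: l2) := by simp
    rw [e1, List.nodup_append] at nd
    exact nd.2.2 z (by simp) z hz rfl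
  · rcases List.eq_nil_or_concat l2 with rfl | ⟨l3, w, rfl⟩
    · exact ⟨l1, by simpa using e.symm⟩
    · exfalso
      rw [← e] at nd
      have hl := congrArg List.getLast? e
      have : w = z := by
        rw [List.concat_eq_append, ← List.append_assoc, List.getLast?_append,
          List.getLast?_append] at hl
        simpa using hl
      subst this
      have e1 : l1 ++ [w, f].reverse ++ l3.concat w = (l1 ++ [f, w]) ++ (l3 ++ [w]) := by simp
      rw [e1, List.nodup_append] at nd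
      exact nd.2.2 w (by simp) w (by simp) rfl

theorem exists_nbr {L : List α} {u : α} (hu : u ∈ L) (h2 : 2 ≤ L.length) :
    ∃ f ∈ L, SInf [u, f] L := by
  obtain ⟨l1, l2, rfl⟩ := List.append_of_mem hu
  cases l2 with
  | cons f l3 => exact ⟨f, by simp, Or.inl ⟨l1, l3, by simp⟩⟩
  | nil =>
    rcases List.eq_nil_or_concat l1 with rfl | ⟨l3, f, rfl⟩
    · simp at h2
    · exact ⟨f, by simp, Or.inr ⟨l3, [], by simp⟩⟩

theorem HP.two_le {A : α → α → Prop} {S : α → Prop} {x z : α} {L : List α} (h : HP A S x z L)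
    {a b : α} (ha : S a) (hb : S b) (hab : a ≠ b) : 2 ≤ L.length := by
  have ha' := (h.cov a).2 ha
  have hb' := (h.cov b).2 hb
  match L, ha', hb' with
  | [], ha', _ => simp at ha'
  | [c], ha', hb' =>
    simp only [List.mem_singleton] at ha' hb'
    exact absurd (ha'.trans hb'.symm) hab
  | _ :: _ :: _, _, _ => simp

theorem HP.eq_single {A : α → α → Prop} {S : α → Prop} {x z : α} {L : List α} (h : HP A S x z L)
    (hs : ∀ a b, S a → S b → a = b) : L = [x] := by
  obtain ⟨t, rfl⟩ := h.eq_cons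
  cases t with
  | nil => rfl
  | cons b t =>
    have := hs x b h.mem_hd ((h.cov b).1 (by simp))
    subst this
    have := h.nd
    simp at this

/-- A cyclic enumeration of S. -/
def Cyc (A : α → α → Prop) (S : α → Prop) (L : List α) : Prop := ∃ x z, HP A S x z L ∧ A z x

theorem HP.split {A : α → α → Prop} {S : α → Prop} {x z : α} {l1 l2 : List α}
    (h : HP A S x z (l1 ++ l2)) (h1 : l1 ≠ []) (h2 : l2 ≠ []) :
    ∃ y y', HP A (fun w => w ∈ l1) x y l1 ∧ HP A (fun w => w ∈ l2) y' z l2 ∧ A y y' ∧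
      (∀ w, w ∈ l1 → w ∉ l2) := by
  have nd := h.nd
  have ch := h.ch
  rw [List.nodup_append] at nd
  rw [List.isChain_append] at ch
  obtain ⟨t1, y, rfl⟩ : ∃ t y, l1 = t ++ [y] := by
    rcases List.eq_nil_or_concat l1 with rfl | ⟨t, y, rfl⟩
    · exact absurd rfl h1
    · exact ⟨t, y, by simp⟩
  obtain ⟨y', t2, rfl⟩ := List.exists_cons_of_ne_nil h2
  refine ⟨y, y', ⟨nd.1, ch.1, fun _ => Iff.rfl, ?_, by simp⟩,
    ⟨nd.2.1, ch.2.1, fun _ => Iff.rfl, rfl, ?_⟩, ch.2.2 y (by simp) y' (by simp),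
    fun w hw hw' => nd.2.2 w hw w hw' rfl⟩
  · have := h.hd
    cases t1 with
    | nil => simpa using this
    | cons a t => simpa using this
  · have := h.lt
    rw [List.getLast?_append] at this
    cases hl : (y' :: t2).getLast? with
    | none => simp at hl
    | some w => rw [hl] at this; simpa using this

theorem Cyc.rot {A : α → α → Prop} {S : α → Prop} {l1 l2 : List α} (h : Cyc A S (l1 ++ l2)) :
    Cyc A S (l2 ++ l1) := by
  by_cases h1 : l1 = []
  · subst h1; simpa using h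
  by_cases h2 : l2 = []
  · subst h2; simpa using h
  obtain ⟨x, z, h, a⟩ := h
  obtain ⟨y, y', p1, p2, a', d⟩ := h.split h1 h2
  refine ⟨y', y, (p2.append p1 a (fun w hw hw' => d w hw' hw)).congr ?_, a'⟩
  intro v
  rw [← h.cov v, List.mem_append]; tauto

theorem Cyc.rev {A : α → α → Prop} (hs : ∀ a b, A a b → A b a) {S : α → Prop} {L : List α}
    (h : Cyc A S L) : Cyc A S L.reverse := by
  obtain ⟨x, z, h, a⟩ := h
  exact ⟨z, x, h.rev hs, hs _ _ a⟩

theorem first_not {K : α → Prop} {N : List α} (h : ∃ w ∈ N, ¬ K w) :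
    ∃ N1 w N2, N = N1 ++ w :: N2 ∧ (∀ v ∈ N1, K v) ∧ ¬ K w := by
  induction N with
  | nil => simp at h
  | cons a t ih =>
    by_cases ha : K a
    · obtain ⟨w, hw, hk⟩ := h
      have : w ∈ t := by
        rcases List.mem_cons.1 hw with rfl | hw
        · exact absurd ha hk
        · exact hw
      obtain ⟨N1, w', N2, rfl, h1, h2⟩ := ih ⟨w, this, hk⟩
      refine ⟨a :: N1, w', N2, by simp, ?_, h2⟩
      intro v hv
      rcases List.mem_cons.1 hv with rfl | hv
      · exact ha
      · exact h1 v hv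
    · exact ⟨[], a, t, by simp, by simp, ha⟩

theorem three_suffix {L : List α} (h : 3 ≤ L.length) : ∃ t p y q, L = t ++ [p, y, q] := by
  have : 3 ≤ L.reverse.length := by simpa using h
  match hL : L.reverse, this with
  | q :: y :: p :: t, _ =>
    refine ⟨t.reverse, p, y, q, ?_⟩
    have := congrArg List.reverse hL
    simpa using this

/-- In a cycle with three consecutive vertices in K, one can find three consecutive vertices
p, y, h in K with h different from g, such that the successor of h is outside K, unless all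
vertices are in K. -/
theorem Cyc.host {A : α → α → Prop} (hs : ∀ a b, A a b → A b a) {S K : α → Prop} {L : List α}
    (h : Cyc A S L) {p y q : α} (t : SInf [p, y, q] L) (kp : K p) (ky : K y) (kq : K q) (g : α) :
    ∃ p' y' h' q' rest, Cyc A S (y' :: h' :: rest) ∧ rest.head? = some q' ∧
      rest.getLast? = some p' ∧ K p' ∧ K y' ∧ K h' ∧ h' ≠ g ∧ (¬ K q' ∨ ∀ v, S v → K v) ∧
      rest.length + 2 = L.length := by
  -- first a version with a run at the start
  have key : ∀ run mid : List α, Cyc A S (run ++ mid) → 3 ≤ run.length → (∀ v ∈ run, K v) →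
      ((∀ w ∈ mid.head?, ¬ K w) ∧ mid ≠ [] ∨ ∀ v, S v → K v) → run.getLast? ≠ some g →
      ∃ p' y' h' q' rest, Cyc A S (y' :: h' :: rest) ∧ rest.head? = some q' ∧
        rest.getLast? = some p' ∧ K p' ∧ K y' ∧ K h' ∧ h' ≠ g ∧ (¬ K q' ∨ ∀ v, S v → K v) ∧
        rest.length + 2 = (run ++ mid).length := by
    intro run mid hc h3 hk hm hg
    obtain ⟨t, p', y', h', rfl⟩ := three_suffix h3
    have e : t ++ [p', y', h'] ++ mid = (t ++ [p']) ++ (y' :: h' :: mid) := by simp
    rw [e] at hc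
    have hc2 := hc.rot
    have hne : mid ++ (t ++ [p']) ≠ [] := by simp
    obtain ⟨q', r', hq⟩ := List.exists_cons_of_ne_nil hne
    refine ⟨p', y', h', q', mid ++ (t ++ [p']), by simpa using hc2, by rw [hq]; rfl,
      by simp [List.getLast?_append], hk _ (by simp), hk _ (by simp), hk _ (by simp), ?_, ?_,
      by simp; omega⟩
    · intro e; subst e; apply hg; simp [List.getLast?_append]
    · rcases hm with ⟨hm, hm'⟩ | hm
      · left
        obtain ⟨a, b, rfl⟩ := List.exists_cons_of_ne_nil hm'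
        have : a = q' := by simpa using (List.cons.inj hq).1
        subst this
        exact hm a (by simp)
      · exact Or.inr hm
  have key2 : ∀ run mid : List α, Cyc A S (run ++ mid) → 3 ≤ run.length → (∀ v ∈ run, K v) →
      ((∀ w ∈ mid.head?, ¬ K w) ∧ (∀ w ∈ mid.getLast?, ¬ K w) ∧ mid ≠ [] ∨ ∀ v, S v → K v) →
      ∃ p' y' h' q' rest, Cyc A S (y' :: h' :: rest) ∧ rest.head? = some q' ∧
        rest.getLast? = some p' ∧ K p' ∧ K y' ∧ K h' ∧ h' ≠ g ∧ (¬ K q' ∨ ∀ v, S v → K v) ∧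
        rest.length + 2 = (run ++ mid).length := by
    intro run mid hc h3 hk hm
    by_cases hg : run.getLast? = some g
    · have hc' : Cyc A S (run.reverse ++ mid.reverse) := by
        have := (hc.rev hs)
        rw [List.reverse_append] at this
        exact this.rot
      have := key run.reverse mid.reverse hc' (by simpa using h3) (by simpa using hk)
        (by
          rcases hm with ⟨_, h2, h3⟩ | hm
          · left; exact ⟨by simpa using h2, by simpa using h3⟩
          · exact Or.inr hm)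
        (by
          obtain ⟨x, z, hp, _⟩ := hc
          have nd := (List.nodup_append.1 hp.nd).1
          obtain ⟨t, a, b, c, rfl⟩ := three_suffix h3
          have : c = g := by simpa [List.getLast?_append] using hg
          subst this
          cases t with
          | nil =>
            simp only [List.nil_append, List.nodup_cons, List.mem_cons] at nd
            simp only [List.nil_append, List.getLast?_reverse, List.head?_cons, ne_eq,
              Option.some.injEq]
            tauto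
          | cons d t =>
            simp only [List.cons_append, List.nodup_cons, List.mem_append, List.mem_cons] at nd
            simp only [List.getLast?_reverse, List.cons_append, List.head?_cons, ne_eq,
              Option.some.injEq]
            tauto)
      simpa [Nat.add_comm] using this
    · exact key run mid hc h3 hk
        (by
          rcases hm with ⟨h1, _, h3⟩ | hm
          · exact Or.inl ⟨h1, h3⟩
          · exact Or.inr hm) hg
  have key3 : ∀ (L : List α) (p y q : α), Cyc A S L → [p, y, q] <:+: L → K p → K y → K q →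
      ∃ p' y' h' q' rest, Cyc A S (y' :: h' :: rest) ∧ rest.head? = some q' ∧
        rest.getLast? = some p' ∧ K p' ∧ K y' ∧ K h' ∧ h' ≠ g ∧ (¬ K q' ∨ ∀ v, S v → K v) ∧
        rest.length + 2 = L.length := by
    rintro L p y q hc ⟨l1, l2, rfl⟩ kp ky kq
    have hc1 : Cyc A S ([p, y, q] ++ (l2 ++ l1)) := by
      have e : l1 ++ [p, y, q] ++ l2 = l1 ++ ([p, y, q] ++ l2) := by simp
      rw [e] at hc
      simpa using hc.rot
    by_cases hall : ∀ v, S v → K v
    · have := key2 [p, y, q] (l2 ++ l1) hc1 (by simp) (by simp [kp, ky, kq]) (Or.inr hall)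
      obtain ⟨a, b, c, d, e, h1, h2, h3, h4, h5, h6, h7, h8, h9⟩ := this
      exact ⟨a, b, c, d, e, h1, h2, h3, h4, h5, h6, h7, h8, by rw [h9]; simp; omega⟩
    · push Not at hall
      obtain ⟨w, hw, hkw⟩ := hall
      have hw' : w ∈ l2 ++ l1 := by
        obtain ⟨x, z, hp, _⟩ := hc1
        have := (hp.cov w).2 hw
        simp only [List.cons_append, List.nil_append, List.mem_cons] at this
        rcases this with rfl | rfl | rfl | this
        · exact absurd kp hkw
        · exact absurd ky hkw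
        · exact absurd kq hkw
        · exact this
      obtain ⟨N1, w1, N2, e1, k1, nk1⟩ := first_not ⟨w, hw', hkw⟩
      obtain ⟨N4, w2, N5, e2, k2, nk2⟩ :=
        first_not (K := K) (N := (w1 :: N2).reverse) ⟨w1, by simp, nk1⟩
      have e3 : w1 :: N2 = (N5.reverse ++ [w2]) ++ N4.reverse := by
        have := congrArg List.reverse e2
        simpa using this
      rw [e1, e3] at hc1
      have hc2 : Cyc A S ((N4.reverse ++ [p, y, q] ++ N1) ++ (N5.reverse ++ [w2])) := by
        have e : [p, y, q] ++ (N1 ++ (N5.reverse ++ [w2] ++ N4.reverse)) =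
          ([p, y, q] ++ N1 ++ (N5.reverse ++ [w2])) ++ N4.reverse := by simp
        rw [e] at hc1
        simpa using hc1.rot
      have := key2 _ _ hc2 (by simp; omega)
        (by
          intro v hv
          simp only [List.mem_append, List.mem_reverse, List.mem_cons, List.not_mem_nil,
            or_false] at hv
          rcases hv with (hv | rfl | rfl | rfl) | hv
          · exact k2 v hv
          · exact kp
          · exact ky
          · exact kq
          · exact k1 v hv)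
        (Or.inl ⟨by
          intro w hw
          have := congrArg List.head? e3
          rw [List.head?_append, Option.mem_def.1 hw] at this
          have : w1 = w := by simpa using this
          exact this ▸ nk1, by simpa [List.getLast?_append] using nk2, by simp⟩)
      obtain ⟨a, b, c, d, e, h1, h2, h3, h4, h5, h6, h7, h8, h9⟩ := this
      refine ⟨a, b, c, d, e, h1, h2, h3, h4, h5, h6, h7, h8, ?_⟩
      rw [h9]
      have l1' := congrArg List.length e1
      have l3' := congrArg List.length e3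
      simp at l1' l3' ⊢
      omega
  rcases t with t | t
  · exact key3 L p y q h t kp ky kq
  · exact key3 L q y p h (by simpa using t) kq ky kp

end Pool.Agent.MP_3fd310_co

end

section

set_option autoImplicit false
set_option linter.unusedSectionVars false

namespace Pool.Agent.MP_3fd310_co

variable {ι : Type*} [DecidableEq ι]

abbrev Vx (ι : Type*) := Finset ι × Option ι

def W (δ : ι → ℝ) (X : Finset ι) : ℝ := ∑ i ∈ X, δ i

def tp (X : Finset ι) (τ : List ι) : Finset ι := X ∪ τ.toFinset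

@[simp] theorem mem_tp {X : Finset ι} {τ : List ι} {i : ι} : i ∈ tp X τ ↔ i ∈ X ∨ i ∈ τ := by
  simp [tp]

theorem tp_nil (X : Finset ι) : tp X [] = X := by ext; simp

theorem tp_cons (X : Finset ι) (k : ι) (τ : List ι) : tp X (k :: τ) = tp (insert k X) τ := by
  ext; simp; tauto

def InC (B : Finset ι) (R : List ι) (X : Finset ι) : Prop :=
  (∀ i ∈ B, i ∈ X) ∧ ∀ i ∈ X, i ∈ B ∨ i ∈ R

def Fresh (X : Finset ι) (τ : List ι) : Prop := τ.Nodup ∧ ∀ k ∈ τ, k ∉ X

section defs
variable (δ : ι → ℝ) (lo hi : ℝ)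

def IsV (B : Finset ι) (R : List ι) (v : Vx ι) : Prop :=
  InC B R v.1 ∧ ((v.2 = none ∧ lo ≤ W δ v.1 ∧ W δ v.1 ≤ hi) ∨
    ∃ k, v.2 = some k ∧ k ∈ R ∧ k ∉ v.1 ∧ W δ v.1 < lo ∧ hi < W δ v.1 + δ k)

noncomputable def pt (X : Finset ι) (k l : ι) : Vx ι :=
  if hi < W δ X + δ k then (X, some k)
  else if W δ X + δ k < lo then (insert k X, some l) else (insert k X, none)

def Adj (u v : Vx ι) : Prop :=
  ∃ X k l, k ≠ l ∧ k ∉ X ∧ l ∉ X ∧ W δ X < lo ∧ hi < W δ X + δ k + δ l ∧
    u = pt δ lo hi X k l ∧ v = pt δ lo hi X l k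

def Up (S : Finset ι) (f : Vx ι) : Prop :=
  ∃ j, j ∉ S ∧ ((hi < W δ S + δ j ∧ f = (S, some j)) ∨
    (lo ≤ W δ S + δ j ∧ W δ S + δ j ≤ hi ∧ f = (insert j S, none)))

def Dn (T : Finset ι) (f : Vx ι) : Prop :=
  ∃ j, j ∈ T ∧ ((W δ T - δ j < lo ∧ f = (T.erase j, some j)) ∨
    (lo ≤ W δ T - δ j ∧ W δ T - δ j ≤ hi ∧ f = (T.erase j, none)))

def Thin (B : Finset ι) (R : List ι) : Prop :=
  ∀ X, InC B R X → ∀ k ∈ R, k ∉ X → lo ≤ W δ X → hi < W δ X + δ k

def Tri (c : ι) (L : List (Vx ι)) : Prop :=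
  ∃ p y q, SInf [p, y, q] L ∧
    ((∃ S, c ∉ S ∧ W δ S < lo ∧ lo ≤ W δ S + δ c ∧ Up δ lo hi S p ∧ Up δ lo hi S y ∧
        Up δ lo hi S q) ∨
     (∃ T, c ∈ T ∧ hi < W δ T ∧ W δ T - δ c ≤ hi ∧ Dn δ lo hi T p ∧ Dn δ lo hi T y ∧
        Dn δ lo hi T q))

noncomputable def gr : Finset ι → List ι → Vx ι
  | X, [] => (X, none)
  | X, k :: τ => if lo ≤ W δ X then (X, none) else if hi < W δ X + δ k then (X, some k)
      else gr (insert k X) τ

end defs

variable {δ : ι → ℝ} {lo hi : ℝ}

theorem W_insert {X : Finset ι} {k : ι} (h : k ∉ X) : W δ (insert k X) = W δ X + δ k := by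
  simp [W, Finset.sum_insert h, add_comm]

theorem W_erase {X : Finset ι} {k : ι} (h : k ∈ X) : W δ (X.erase k) = W δ X - δ k := by
  have := W_insert (δ := δ) (X := X.erase k) (k := k) (by simp)
  rw [Finset.insert_erase h] at this
  linarith

theorem W_mono (hδ : ∀ i, 0 < δ i) {X Y : Finset ι} (h : ∀ i ∈ X, i ∈ Y) : W δ X ≤ W δ Y :=
  Finset.sum_le_sum_of_subset_of_nonneg h (fun i _ _ => (hδ i).le)

theorem W_mono1 (hδ : ∀ i, 0 < δ i) {X Y : Finset ι} {k : ι} (h : ∀ i ∈ X, i ∈ Y) (hk : k ∉ X)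
    (hk' : k ∈ Y) : W δ X + δ k ≤ W δ Y := by
  rw [← W_insert hk]
  apply W_mono hδ
  intro i hi
  rcases Finset.mem_insert.1 hi with rfl | hi
  · exact hk'
  · exact h i hi

theorem W_mono2 (hδ : ∀ i, 0 < δ i) {X Y : Finset ι} {k l : ι} (h : ∀ i ∈ X, i ∈ Y) (hk : k ∉ X)
    (hk' : k ∈ Y) (hl : l ∉ X) (hl' : l ∈ Y) (hkl : k ≠ l) : W δ X + δ k + δ l ≤ W δ Y := by
  rw [← W_insert hk]
  apply W_mono1 hδ _ _ hl'
  · intro i hi
    rcases Finset.mem_insert.1 hi with rfl | hi
    · exact hk'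
    · exact h i hi
  · simp [hl, hkl.symm]

theorem W_mono3 (hδ : ∀ i, 0 < δ i) {X Y : Finset ι} {k l m : ι} (h : ∀ i ∈ X, i ∈ Y)
    (hk : k ∉ X) (hk' : k ∈ Y) (hl : l ∉ X) (hl' : l ∈ Y) (hm : m ∉ X) (hm' : m ∈ Y)
    (hkl : k ≠ l) (hkm : k ≠ m) (hlm : l ≠ m) : W δ X + δ k + δ l + δ m ≤ W δ Y := by
  rw [← W_insert hk]
  apply W_mono2 hδ _ _ hl' _ hm' hlm
  · intro i hi
    rcases Finset.mem_insert.1 hi with rfl | hi
    · exact hk'
    · exact h i hi
  · simp [hl, hkl.symm]
  · simp [hm, hkm.symm]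

theorem pt_pos {X : Finset ι} {k l : ι} (h : hi < W δ X + δ k) : pt δ lo hi X k l = (X, some k) := by
  simp [pt, h]

theorem pt_neg (hlh : lo ≤ hi) {X : Finset ι} {k l : ι} (h : W δ X + δ k < lo) :
    pt δ lo hi X k l = (insert k X, some l) := by
  have : ¬ hi < W δ X + δ k := by linarith
  simp [pt, h, this]

theorem pt_zero {X : Finset ι} {k l : ι} (h : lo ≤ W δ X + δ k) (h' : W δ X + δ k ≤ hi) :
    pt δ lo hi X k l = (insert k X, none) := by
  simp [pt, not_lt.2 h, not_lt.2 h']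

theorem pt_cases (X : Finset ι) (k l : ι) :
    (hi < W δ X + δ k ∧ pt δ lo hi X k l = (X, some k)) ∨
    (W δ X + δ k < lo ∧ W δ X + δ k ≤ hi ∧ pt δ lo hi X k l = (insert k X, some l)) ∨
    (lo ≤ W δ X + δ k ∧ W δ X + δ k ≤ hi ∧ pt δ lo hi X k l = (insert k X, none)) := by
  unfold pt
  split_ifs with h1 h2
  · exact Or.inl ⟨h1, rfl⟩
  · exact Or.inr (Or.inl ⟨h2, not_lt.1 h1, rfl⟩)
  · exact Or.inr (Or.inr ⟨not_lt.1 h2, not_lt.1 h1, rfl⟩)

theorem Adj.symm {u v : Vx ι} (h : Adj δ lo hi u v) : Adj δ lo hi v u := by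
  obtain ⟨X, k, l, h1, h2, h3, h4, h5, h6, h7⟩ := h
  exact ⟨X, l, k, h1.symm, h3, h2, h4, by linarith, h7, h6⟩

theorem adj_symm (δ : ι → ℝ) (lo hi : ℝ) : ∀ u v : Vx ι, Adj δ lo hi u v → Adj δ lo hi v u :=
  fun _ _ h => h.symm

theorem InC.mono {B B' X : Finset ι} {R R' : List ι} (h : InC B R X) (h1 : ∀ i ∈ B', i ∈ B)
    (h2 : ∀ i ∈ B, i ∈ B' ∨ i ∈ R') (h3 : ∀ i ∈ R, i ∈ R') : InC B' R' X := by
  unfold InC at *
  grind

theorem InC.insert {B X : Finset ι} {R : List ι} (h : InC B R X) {k : ι} (hk : k ∈ R) :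
    InC B R (insert k X) := by
  unfold InC at *
  grind

theorem InC.erase {B X : Finset ι} {R : List ι} (h : InC B R X) {k : ι} (hk : k ∉ B) :
    InC B R (X.erase k) := by
  unfold InC at *
  grind

theorem Thin.mono {B B' : Finset ι} {R R' : List ι} (h : Thin δ lo hi B' R')
    (h1 : ∀ i ∈ B', i ∈ B) (h2 : ∀ i ∈ B, i ∈ B' ∨ i ∈ R') (h3 : ∀ i ∈ R, i ∈ R') :
    Thin δ lo hi B R :=
  fun X hX k hk hkX hl => h X (hX.mono h1 h2 h3) k (h3 k hk) hkX hl

theorem up_pt {S : Finset ι} {f : Vx ι} {j : ι}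
    (h : (hi < W δ S + δ j ∧ f = (S, some j)) ∨
    (lo ≤ W δ S + δ j ∧ W δ S + δ j ≤ hi ∧ f = (insert j S, none))) (l : ι) :
    f = pt δ lo hi S j l := by
  rcases h with ⟨h, rfl⟩ | ⟨h, h', rfl⟩
  · rw [pt_pos h]
  · rw [pt_zero h h']

theorem up_adj (hδ : ∀ i, 0 < δ i) {B S : Finset ι} {R : List ι} (hT : Thin δ lo hi B R)
    {f g : Vx ι} (hf : IsV δ lo hi B R f) (hg : IsV δ lo hi B R g) (hS : W δ S < lo)
    (uf : Up δ lo hi S f) (ug : Up δ lo hi S g) (ne : f ≠ g) : Adj δ lo hi f g := by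
  obtain ⟨j, hj, uf⟩ := uf
  obtain ⟨l, hl, ug⟩ := ug
  have hjl : j ≠ l := by
    rintro rfl
    exact ne ((up_pt uf j).trans (up_pt ug j).symm)
  refine ⟨S, j, l, hjl, hj, hl, hS, ?_, up_pt uf l, up_pt ug j⟩
  have := hδ j
  have := hδ l
  rcases uf with ⟨h, rfl⟩ | ⟨h, h', rfl⟩
  · linarith
  rcases ug with ⟨h2, rfl⟩ | ⟨h2, h2', rfl⟩
  · linarith
  have c1 := hf.1
  have c2 := hg.1
  have hlR : l ∈ R := by
    unfold InC at c1 c2
    grind
  have := hT _ c1 l hlR (by simp [hl, hjl.symm]) (by rw [W_insert hj]; exact h)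
  rwa [W_insert hj] at this

theorem dn_pt (hlh : lo ≤ hi) {T : Finset ι} {f : Vx ι} {j l : ι} (hj : j ∈ T) (hl : l ∈ T)
    (hjl : j ≠ l)
    (h : (W δ T - δ j < lo ∧ f = (T.erase j, some j)) ∨
    (lo ≤ W δ T - δ j ∧ W δ T - δ j ≤ hi ∧ f = (T.erase j, none))) :
    f = pt δ lo hi ((T.erase j).erase l) l j := by
  have e1 : l ∈ T.erase j := by simp [hl, hjl.symm]
  have e2 : W δ ((T.erase j).erase l) + δ l = W δ T - δ j := by
    rw [W_erase e1, W_erase hj]; ring
  rcases h with ⟨h, rfl⟩ | ⟨h, h', rfl⟩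
  · rw [pt_neg hlh (by linarith), Finset.insert_erase e1]
  · rw [pt_zero (by linarith) (by linarith), Finset.insert_erase e1]

theorem dn_adj (hδ : ∀ i, 0 < δ i) (hlh : lo ≤ hi) {B T : Finset ι} {R : List ι}
    (hT : Thin δ lo hi B R)
    {f g : Vx ι} (hf : IsV δ lo hi B R f) (hg : IsV δ lo hi B R g) (hS : hi < W δ T)
    (uf : Dn δ lo hi T f) (ug : Dn δ lo hi T g) (ne : f ≠ g) : Adj δ lo hi f g := by
  obtain ⟨j, hj, uf⟩ := uf
  obtain ⟨l, hl, ug⟩ := ug
  have hjl : j ≠ l := by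
    rintro rfl
    apply ne
    rcases uf with ⟨h, rfl⟩ | ⟨h, h', rfl⟩ <;> rcases ug with ⟨h2, rfl⟩ | ⟨h2, h2', rfl⟩ <;>
      first | rfl | linarith
  have e1 : l ∈ T.erase j := by simp [hl, hjl.symm]
  have e2 : W δ ((T.erase j).erase l) = W δ T - δ j - δ l := by
    rw [W_erase e1, W_erase hj]
  refine ⟨(T.erase j).erase l, l, j, hjl.symm, by simp, by simp, ?_, by linarith,
    dn_pt hlh hj hl hjl uf, ?_⟩
  · have := hδ j
    have := hδ l
    rcases uf with ⟨h, rfl⟩ | ⟨h, h', rfl⟩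
    · linarith
    rcases ug with ⟨h2, rfl⟩ | ⟨h2, h2', rfl⟩
    · linarith
    have c1 := hf.1
    have c2 := hg.1
    have hlR : l ∈ R := by
      unfold InC at c1 c2
      grind
    have c3 : InC B R ((T.erase j).erase l) := by
      unfold InC at c1 c2 ⊢
      grind
    by_contra hn
    have := hT _ c3 l hlR (by simp) (not_lt.1 hn)
    linarith
  · rw [Finset.erase_right_comm]
    exact dn_pt hlh hl hj hjl.symm ug

theorem simplexU (hδ : ∀ i, 0 < δ i) {B : Finset ι} {R : List ι} (hT : Thin δ lo hi B R)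
    (hB : W δ B < lo) (hk : ∀ k ∈ R, k ∉ B → lo ≤ W δ B + δ k) {v : Vx ι}
    (hv : IsV δ lo hi B R v) : Up δ lo hi B v := by
  obtain ⟨X, o⟩ := v
  obtain ⟨c, hv⟩ := hv
  simp only at c hv
  by_cases e : X = B
  · subst e
    rcases hv with ⟨_, h, _⟩ | ⟨k, rfl, h1, h2, h3, h4⟩
    · linarith
    · exact ⟨k, h2, Or.inl ⟨h4, rfl⟩⟩
  · obtain ⟨j, hj, hjB⟩ : ∃ j ∈ X, j ∉ B := by
      by_contra hn
      push Not at hn
      exact e (Finset.ext fun i => ⟨hn i, c.1 i⟩)
    have hjR : j ∈ R := (c.2 j hj).resolve_left hjB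
    have h1 := hk j hjR hjB
    have h2 := W_mono1 hδ c.1 hjB hj
    rcases hv with ⟨rfl, h, h'⟩ | ⟨k, rfl, h1, h2, h3, h4⟩
    · by_cases e2 : X = insert j B
      · subst e2
        rw [W_insert hjB] at h h'
        exact ⟨j, hjB, Or.inr ⟨h, h', rfl⟩⟩
      · exfalso
        obtain ⟨l, hl, hlB⟩ : ∃ l ∈ X, l ∉ insert j B := by
          by_contra hn
          push Not at hn
          apply e2
          ext i
          refine ⟨hn i, ?_⟩
          have := c.1 i
          grind
        have hlR : l ∈ R := by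
          have := c.2 l hl
          grind
        have c' : InC B R (insert j B) := by unfold InC; grind
        have h3 := hT _ c' l hlR hlB (by rw [W_insert hjB]; exact h1)
        have h4 : W δ (insert j B) + δ l ≤ W δ X :=
          W_mono1 hδ (by have := c.1; grind) hlB hl
        linarith
    · linarith

theorem simplexD (hδ : ∀ i, 0 < δ i) {B : Finset ι} {R : List ι} (hT : Thin δ lo hi B R)
    (hB : hi < W δ (tp B R)) (hk : ∀ k ∈ R, W δ (tp B R) - δ k ≤ hi) {v : Vx ι}
    (hv : IsV δ lo hi B R v) : Dn δ lo hi (tp B R) v := by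
  obtain ⟨X, o⟩ := v
  obtain ⟨c, hv⟩ := hv
  simp only at c hv
  have sub : ∀ i ∈ X, i ∈ tp B R := fun i hi => mem_tp.2 (c.2 i hi)
  rcases hv with ⟨rfl, h, h'⟩ | ⟨k, rfl, h1, h2, h3, h4⟩
  · obtain ⟨j, hj, hjX⟩ : ∃ j ∈ tp B R, j ∉ X := by
      by_contra hn
      push Not at hn
      have := W_mono hδ hn
      linarith
    have hjR : j ∈ R := by
      have := c.1 j
      have := mem_tp.1 hj
      grind
    by_cases e2 : X = (tp B R).erase j
    · subst e2
      rw [W_erase hj] at h h'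
      exact ⟨j, hj, Or.inr ⟨h, h', rfl⟩⟩
    · exfalso
      obtain ⟨l, hl, hlB⟩ : ∃ l ∈ (tp B R).erase j, l ∉ X := by
        by_contra hn
        push Not at hn
        apply e2
        ext i
        refine ⟨?_, hn i⟩
        have := sub i
        grind
      have hlR : l ∈ R := by
        have := c.1 l
        have := mem_tp.1 (Finset.mem_of_mem_erase hl)
        grind
      have h3 := hT _ c l hlR hlB h
      have h4 := W_mono2 hδ sub hjX hj hlB (Finset.mem_of_mem_erase hl)
        (Finset.ne_of_mem_erase hl).symm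
      have := hk j hjR
      linarith
  · have hkT : k ∈ tp B R := mem_tp.2 (Or.inr h1)
    have e2 : X = (tp B R).erase k := by
      by_contra e2
      obtain ⟨l, hl, hlB⟩ : ∃ l ∈ (tp B R).erase k, l ∉ X := by
        by_contra hn
        push Not at hn
        apply e2
        ext i
        refine ⟨?_, hn i⟩
        have := sub i
        grind
      have hlR : l ∈ R := by
        have := c.1 l
        have := mem_tp.1 (Finset.mem_of_mem_erase hl)
        grind
      have h5 := W_mono2 hδ sub h2 hkT hlB (Finset.mem_of_mem_erase hl)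
        (Finset.ne_of_mem_erase hl).symm
      have := hk l hlR
      linarith
    subst e2
    rw [W_erase hkT] at h3
    exact ⟨k, hkT, Or.inl ⟨h3, rfl⟩⟩

/-! Greedy vertices -/

theorem Fresh.tail {X : Finset ι} {k : ι} {τ : List ι} (h : Fresh X (k :: τ)) :
    Fresh (insert k X) τ := by
  unfold Fresh at *
  grind

theorem gr_nonneg {X : Finset ι} (τ : List ι) (h : lo ≤ W δ X) : gr δ lo hi X τ = (X, none) := by
  cases τ with
  | nil => rfl
  | cons k τ => simp [gr, h]

theorem gr_pos {X : Finset ι} {k : ι} (τ : List ι) (h : W δ X < lo) (h' : hi < W δ X + δ k) :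
    gr δ lo hi X (k :: τ) = (X, some k) := by
  simp [gr, not_le.2 h, h']

theorem gr_step {X : Finset ι} {k : ι} (τ : List ι) (h : W δ X < lo) (h' : W δ X + δ k ≤ hi) :
    gr δ lo hi X (k :: τ) = gr δ lo hi (insert k X) τ := by
  simp [gr, not_le.2 h, not_lt.2 h']

theorem gr_append {τ : List ι} (σ : List ι) : ∀ {X : Finset ι}, lo ≤ W δ (tp X τ) →
    gr δ lo hi X (τ ++ σ) = gr δ lo hi X τ := by
  induction τ with
  | nil => intro X h; rw [tp_nil] at h; simp [gr_nonneg _ h]
  | cons k τ ih =>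
    intro X h
    rw [tp_cons] at h
    simp only [List.cons_append, gr, ih h]

theorem gr_prefix (hδ : ∀ i, 0 < δ i) (hlh : lo ≤ hi) {τ : List ι} (σ : List ι) :
    ∀ {X : Finset ι}, Fresh X τ → W δ (tp X τ) < lo →
    gr δ lo hi X (τ ++ σ) = gr δ lo hi (tp X τ) σ := by
  induction τ with
  | nil => intro X _ _; rw [tp_nil]; rfl
  | cons k τ ih =>
    intro X hf h
    have hk : k ∉ X := hf.2 k (by simp)
    have h1 : W δ X + δ k ≤ W δ (tp X (k :: τ)) :=
      W_mono1 hδ (by intro i hi; simp [hi]) hk (by simp)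
    have := hδ k
    rw [List.cons_append, gr_step _ (by linarith) (by linarith), tp_cons]
    rw [tp_cons] at h
    exact ih hf.tail h

theorem gr_isV {B : Finset ι} {R : List ι} {τ : List ι} : ∀ {X : Finset ι}, Fresh X τ →
    (∀ k ∈ τ, k ∈ R) → InC B R X → W δ X ≤ hi → lo ≤ W δ (tp X τ) →
    IsV δ lo hi B R (gr δ lo hi X τ) := by
  induction τ with
  | nil =>
    intro X _ _ c h1 h2
    rw [tp_nil] at h2
    exact ⟨c, Or.inl ⟨rfl, h2, h1⟩⟩
  | cons k τ ih =>
    intro X hf hR c h1 h2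
    have hk : k ∉ X := hf.2 k (by simp)
    by_cases a : lo ≤ W δ X
    · rw [gr_nonneg _ a]; exact ⟨c, Or.inl ⟨rfl, a, h1⟩⟩
    by_cases b : hi < W δ X + δ k
    · rw [gr_pos _ (not_le.1 a) b]
      exact ⟨c, Or.inr ⟨k, rfl, hR k (by simp), hk, not_le.1 a, b⟩⟩
    rw [gr_step _ (not_le.1 a) (not_lt.1 b)]
    rw [tp_cons] at h2
    refine ih hf.tail (fun j hj => hR j (by simp [hj])) ?_ (by rw [W_insert hk]; exact not_lt.1 b) h2
    have := hR k (by simp)
    unfold InC at *
    grind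

/-- The greedy vertex sits at a prefix of the chain. -/
theorem gr_shape {τ : List ι} : ∀ X : Finset ι, ∃ τ1 τ2, τ = τ1 ++ τ2 ∧
    (gr δ lo hi X τ = (tp X τ1, none) ∨ ∃ k τ3, τ2 = k :: τ3 ∧ gr δ lo hi X τ = (tp X τ1, some k)) := by
  induction τ with
  | nil => intro X; exact ⟨[], [], rfl, Or.inl (by rw [tp_nil]; rfl)⟩
  | cons k τ ih =>
    intro X
    by_cases a : lo ≤ W δ X
    · exact ⟨[], k :: τ, rfl, Or.inl (by rw [tp_nil, gr_nonneg _ a])⟩
    by_cases b : hi < W δ X + δ k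
    · exact ⟨[], k :: τ, rfl, Or.inr ⟨k, τ, rfl, by rw [tp_nil, gr_pos _ (not_le.1 a) b]⟩⟩
    obtain ⟨τ1, τ2, rfl, h⟩ := ih (insert k X)
    refine ⟨k :: τ1, τ2, rfl, ?_⟩
    rw [gr_step _ (not_le.1 a) (not_lt.1 b), tp_cons]
    exact h

theorem gr_sub (X : Finset ι) (τ : List ι) :
    (∀ i ∈ X, i ∈ (gr δ lo hi X τ).1) ∧ ∀ i ∈ (gr δ lo hi X τ).1, i ∈ X ∨ i ∈ τ := by
  obtain ⟨τ1, τ2, e, h⟩ := gr_shape (δ := δ) (lo := lo) (hi := hi) (τ := τ) X
  rcases h with h | ⟨k, τ3, _, h⟩ <;> rw [h] <;> subst e <;> simp <;> tauto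

/-- Either the two greedy vertices of the two layers are adjacent or there is a crossing in
direction c at a prefix of the chain. -/
theorem gr_route (hδ : ∀ i, 0 < δ i) (hlh : lo ≤ hi) {B : Finset ι} {R : List ι}
    (hT : Thin δ lo hi B R) {c : ι} (hc : c ∈ R) {τ : List ι} : ∀ {X : Finset ι}, Fresh X τ →
    c ∉ X → c ∉ τ → (∀ k ∈ τ, k ∈ R ∧ δ c ≤ δ k) → InC B R X → W δ X < lo → W δ X + δ c ≤ hi →
    lo ≤ W δ (tp X τ) →
    Adj δ lo hi (gr δ lo hi X τ) (gr δ lo hi (insert c X) τ) ∨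
      ∃ τ1 τ2, τ = τ1 ++ τ2 ∧ W δ (tp X τ1) < lo ∧ hi < W δ (tp X τ1) + δ c := by
  induction τ with
  | nil => intro X _ _ _ _ _ h1 _ h2; rw [tp_nil] at h2; linarith
  | cons k τ ih =>
    intro X hf hcX hcτ hR cX h1 h2 h3
    have hk : k ∉ X := hf.2 k (by simp)
    have hkc : k ≠ c := by rintro rfl; simp at hcτ
    obtain ⟨hkR, hck⟩ := hR k (by simp)
    have wc : W δ (insert c X) = W δ X + δ c := W_insert hcX
    have wk : W δ (insert k X) = W δ X + δ k := W_insert hk
    have cc : InC B R (insert c X) := by unfold InC at *; grind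
    have ck : InC B R (insert k X) := by unfold InC at *; grind
    by_cases a : lo ≤ W δ X + δ c
    · left
      have t1 := hT _ cc k hkR (by simp [hk, hkc]) (by linarith)
      refine ⟨X, k, c, hkc, hk, hcX, h1, by linarith, ?_, ?_⟩
      · by_cases b : hi < W δ X + δ k
        · rw [gr_pos _ h1 b, pt_pos b]
        · rw [gr_step _ h1 (not_lt.1 b), gr_nonneg _ (by linarith), pt_zero (by linarith) (not_lt.1 b)]
      · rw [gr_nonneg _ (by linarith), pt_zero a h2]
    have a' := not_le.1 a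
    by_cases b : hi < W δ X + δ k
    · left
      have := hδ c
      refine ⟨X, k, c, hkc, hk, hcX, h1, by linarith, ?_, ?_⟩
      · rw [gr_pos _ h1 b, pt_pos b]
      · rw [gr_pos _ (by linarith) (by linarith), pt_neg hlh a']
    have b' := not_lt.1 b
    by_cases d : lo ≤ W δ X + δ k
    · left
      have t1 := hT _ ck c hc (by simp [hcX, hkc.symm]) (by linarith)
      refine ⟨X, k, c, hkc, hk, hcX, h1, by linarith, ?_, ?_⟩
      · rw [gr_step _ h1 b', gr_nonneg _ (by linarith), pt_zero d b']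
      · rw [gr_pos _ (by linarith) (by linarith), pt_neg hlh a']
    have d' := not_le.1 d
    by_cases e : hi < W δ X + δ k + δ c
    · right
      refine ⟨[k], τ, rfl, ?_, ?_⟩ <;> rw [tp_cons, tp_nil] <;> linarith
    have e' := not_lt.1 e
    rw [tp_cons] at h3
    rcases ih hf.tail (by simp [hcX, hkc.symm]) (fun h => hcτ (by simp [h]))
      (fun j hj => hR j (by simp [hj])) ck (by linarith) (by linarith) h3 with h | ⟨τ1, τ2, rfl, h⟩
    · left
      rw [gr_step _ h1 b', gr_step _ (by linarith) (by linarith), Finset.insert_comm]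
      exact h
    · right
      refine ⟨k :: τ1, τ2, rfl, ?_⟩
      rw [tp_cons]
      exact h

/-- Description of the two greedy vertices when there is a crossing in direction c. -/
theorem gr_mid (hδ : ∀ i, 0 < δ i) (hlh : lo ≤ hi) {c : ι} {τ1 τ2 : List ι} {X : Finset ι}
    (hf : Fresh X (τ1 ++ τ2)) (hcX : c ∉ X) (hcτ : c ∉ τ1 ++ τ2)
    (hR : ∀ k ∈ τ1 ++ τ2, δ c ≤ δ k) (h2 : W δ X + δ c ≤ hi) (h3 : lo ≤ W δ (tp X (τ1 ++ τ2)))
    (h4 : W δ (tp X τ1) < lo) (h5 : hi < W δ (tp X τ1) + δ c) :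
    (∃ k ∈ τ2, gr δ lo hi X (τ1 ++ τ2) = (tp X τ1, some k)) ∧
    (∃ j ∈ τ1, gr δ lo hi (insert c X) (τ1 ++ τ2) = ((insert c (tp X τ1)).erase j, some j)) := by
  constructor
  · cases τ2 with
    | nil => simp at h3; linarith
    | cons k τ3 =>
      refine ⟨k, by simp, ?_⟩
      have := hR k (by simp)
      rw [gr_prefix hδ hlh _ (by unfold Fresh at *; grind) h4, gr_pos _ h4 (by linarith)]
  · rcases List.eq_nil_or_concat τ1 with rfl | ⟨τ0, j, rfl⟩
    · rw [tp_nil] at h5; linarith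
    · rw [List.concat_eq_append] at *
      refine ⟨j, by simp, ?_⟩
      have hj := hR j (by simp)
      have f1 : j ∉ tp X τ0 := by unfold Fresh at hf; simp only [mem_tp]; grind
      have f2 : c ∉ tp X τ0 := by simp only [mem_tp]; grind
      have hjc : j ≠ c := by grind
      have e1 : tp X (τ0 ++ [j]) = insert j (tp X τ0) := by ext; simp; tauto
      have e2 : tp (insert c X) τ0 = insert c (tp X τ0) := by ext; simp; tauto
      rw [e1, W_insert f1] at h4 h5
      have e3 : (insert c (insert j (tp X τ0))).erase j = insert c (tp X τ0) := by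
        ext i; simp only [Finset.mem_erase, Finset.mem_insert]; grind
      rw [List.append_assoc, gr_prefix hδ hlh _ (by unfold Fresh at *; grind)
        (by rw [e2, W_insert f2]; linarith), e1, e2, e3, List.singleton_append,
        gr_pos _ (by rw [W_insert f2]; linarith) (by rw [W_insert f2]; linarith)]

end Pool.Agent.MP_3fd310_co

end

section

set_option autoImplicit false
set_option linter.unusedSectionVars false

namespace Pool.Agent.MP_3fd310_co

variable {ι : Type*} [DecidableEq ι]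

def sd (a : Bool) (c : ι) (X : Finset ι) : Finset ι := cond a (insert c X) X

@[simp] theorem sd_true (c : ι) (X : Finset ι) : sd true c X = insert c X := rfl
@[simp] theorem sd_false (c : ι) (X : Finset ι) : sd false c X = X := rfl

section defs
variable (δ : ι → ℝ) (lo hi : ℝ) (c : ι) (R : List ι)

def Part0 (y v : Vx ι) : Prop :=
  (∃ k, y.2 = some k ∧ v = (y.1, some k)) ∨ (y.2 = none ∧ lo ≤ W δ y.1 ∧ v = (y.1, none)) ∨
    (y.2 = none ∧ W δ y.1 < lo ∧ ∃ k ∈ R, k ∉ y.1 ∧ v = (y.1, some k))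

def Part1 (y v : Vx ι) : Prop :=
  (∃ k, y.2 = some k ∧ v = (insert c y.1, some k)) ∨
    (y.2 = none ∧ W δ y.1 + δ c ≤ hi ∧ v = (insert c y.1, none)) ∨
    (y.2 = none ∧ hi < W δ y.1 + δ c ∧ ∃ j ∈ R, j ∈ y.1 ∧ v = ((insert c y.1).erase j, some j))

def Part (a : Bool) (y v : Vx ι) : Prop := cond a (Part1 δ hi c R y v) (Part0 δ lo R y v)

def Cen (y v : Vx ι) : Prop := y.2 = none ∧ W δ y.1 < lo ∧ hi < W δ y.1 + δ c ∧ v = (y.1, some c)

def Fib (y v : Vx ι) : Prop := Part0 δ lo R y v ∨ Cen δ lo hi c y v ∨ Part1 δ hi c R y v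

def Big (y : Vx ι) : Prop := ∃ a u v, Part δ lo hi c R a y u ∧ Part δ lo hi c R a y v ∧ u ≠ v

def Two (y : Vx ι) : Prop := ¬ Big δ lo hi c R y ∧ ∀ v, ¬ Cen δ lo hi c y v

def Good (y : Vx ι) (L : List (Vx ι)) : Prop :=
  (∀ k, y.2 = some k → SInf [(y.1, some k), (insert c y.1, some k)] L) ∧
  (y.2 = none → W δ y.1 < lo → ∀ u, Part0 δ lo R y u → ∃ f, Up δ lo hi y.1 f ∧ SInf [u, f] L) ∧
  (y.2 = none → hi < W δ y.1 + δ c → ∀ u, Part1 δ hi c R y u →
    ∃ f, Dn δ lo hi (insert c y.1) f ∧ SInf [u, f] L) ∧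
  (Big δ lo hi c R y → Tri δ lo hi c L)

structure LH (B : Finset ι) : Prop where
  pos : ∀ i, 0 < δ i
  lh : lo ≤ hi
  cB : c ∉ B
  cR : c ∉ R
  fr : Fresh B R
  le : ∀ k ∈ R, δ c ≤ δ k
  tP : Thin δ lo hi B (c :: R)
  tQ : Thin δ (lo - δ c) hi B R

structure Face (B X : Finset ι) (k l : ι) : Prop where
  ne : k ≠ l
  kX : k ∉ X
  lX : l ∉ X
  kR : k ∈ R
  lR : l ∈ R
  inc : InC B R X
  neg : W δ X < lo
  pos : hi < W δ X + δ k + δ l

noncomputable def pr (v : Vx ι) : Vx ι :=
  if c ∈ v.1 then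
    match v.2 with
    | none => (v.1.erase c, none)
    | some k => if hi < W δ (v.1.erase c) + δ k then (v.1.erase c, some k)
        else (insert k (v.1.erase c), none)
  else
    match v.2 with
    | none => v
    | some k => if k = c then (v.1, none) else if W δ v.1 < lo - δ c then v else (v.1, none)

end defs

variable {δ : ι → ℝ} {lo hi : ℝ} {c : ι} {R : List ι} {B : Finset ι}

@[simp] theorem part_true (y v : Vx ι) : Part δ lo hi c R true y v = Part1 δ hi c R y v := rfl
@[simp] theorem part_false (y v : Vx ι) : Part δ lo hi c R false y v = Part0 δ lo R y v := rfl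

theorem Tri.mono {L L' : List (Vx ι)} (h : Tri δ lo hi c L) (h' : SInf L L') :
    Tri δ lo hi c L' := by
  obtain ⟨p, y, q, h1, h2⟩ := h
  exact ⟨p, y, q, h1.trans h', h2⟩

theorem Good.mono {y : Vx ι} {L L' : List (Vx ι)} (h : Good δ lo hi c R y L) (h' : SInf L L') :
    Good δ lo hi c R y L' := by
  obtain ⟨h1, h2, h3, h4⟩ := h
  refine ⟨fun k hk => (h1 k hk).trans h', fun a b u hu => ?_, fun a b u hu => ?_,
    fun hb => (h4 hb).mono h'⟩
  · obtain ⟨f, h5, h6⟩ := h2 a b u hu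
    exact ⟨f, h5, h6.trans h'⟩
  · obtain ⟨f, h5, h6⟩ := h3 a b u hu
    exact ⟨f, h5, h6.trans h'⟩

theorem Face.symm {X : Finset ι} {k l : ι} (h : Face δ lo hi R B X k l) : Face δ lo hi R B X l k :=
  ⟨h.ne.symm, h.lX, h.kX, h.lR, h.kR, h.inc, h.neg, by linarith [h.pos]⟩

theorem Face.adj {X : Finset ι} {k l : ι} (h : Face δ lo hi R B X k l) :
    Adj δ lo hi (pt δ lo hi X k l) (pt δ lo hi X l k) :=
  ⟨X, k, l, h.ne, h.kX, h.lX, h.neg, h.pos, rfl, rfl⟩

theorem Face.isV {X : Finset ι} {k l : ι} (h : Face δ lo hi R B X k l) :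
    IsV δ lo hi B R (pt δ lo hi X k l) := by
  have c1 : InC B R (insert k X) := by
    have := h.inc; have := h.kR; unfold InC at *; grind
  have w := W_insert (δ := δ) h.kX
  rcases pt_cases (δ := δ) (lo := lo) (hi := hi) X k l with ⟨a, e⟩ | ⟨a, b, e⟩ | ⟨a, b, e⟩ <;>
    rw [e]
  · exact ⟨h.inc, Or.inr ⟨k, rfl, h.kR, h.kX, h.neg, a⟩⟩
  · exact ⟨c1, Or.inr ⟨l, rfl, h.lR, by simp [h.lX, h.ne.symm], by simpa [w] using a,
      by simpa [w] using h.pos⟩⟩
  · exact ⟨c1, Or.inl ⟨rfl, by simpa [w] using a, by simpa [w] using b⟩⟩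

theorem adj_face {u v : Vx ι} (hu : IsV δ lo hi B R u) (hv : IsV δ lo hi B R v)
    (h : Adj δ lo hi u v) :
    ∃ X k l, Face δ lo hi R B X k l ∧ u = pt δ lo hi X k l ∧ v = pt δ lo hi X l k := by
  obtain ⟨X, k, l, h1, h2, h3, h4, h5, h6, h7⟩ := h
  refine ⟨X, k, l, ?_, h6, h7⟩
  have a1 : ∀ o, u = (X, o) ∨ u = (insert k X, o) → True := fun _ _ => trivial
  have hu1 : (u = (X, some k) ∧ k ∈ R) ∨ u.1 = insert k X := by
    rcases pt_cases (δ := δ) (lo := lo) (hi := hi) X k l with ⟨a, e⟩ | ⟨a, b, e⟩ | ⟨a, b, e⟩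
    · left
      rw [e] at h6
      subst h6
      refine ⟨rfl, ?_⟩
      rcases hu.2 with ⟨h, _⟩ | ⟨k', h, h', _⟩
      · simp at h
      · simp only [Option.some.injEq] at h; exact h ▸ h'
    · right; rw [h6, e]
    · right; rw [h6, e]
  have hv1 : (v = (X, some l) ∧ l ∈ R) ∨ v.1 = insert l X := by
    rcases pt_cases (δ := δ) (lo := lo) (hi := hi) X l k with ⟨a, e⟩ | ⟨a, b, e⟩ | ⟨a, b, e⟩
    · left
      rw [e] at h7
      subst h7
      refine ⟨rfl, ?_⟩
      rcases hv.2 with ⟨h, _⟩ | ⟨k', h, h', _⟩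
      · simp at h
      · simp only [Option.some.injEq] at h; exact h ▸ h'
    · right; rw [h7, e]
    · right; rw [h7, e]
  have cu := hu.1
  have cv := hv.1
  clear h6 h7 hu hv a1
  have : k ∈ R ∧ l ∈ R ∧ InC B R X := by
    unfold InC at *
    rcases hu1 with ⟨rfl, a⟩ | a <;> rcases hv1 with ⟨rfl, b⟩ | b
    · exact ⟨a, b, cu⟩
    · rw [b] at cv; grind
    · rw [a] at cu; grind
    · rw [a] at cu; rw [b] at cv; grind
  exact ⟨h1, h2, h3, this.1, this.2.1, this.2.2, h4, h5⟩

theorem LH.cX (H : LH δ lo hi c R B) {X : Finset ι} (h : InC B R X) : c ∉ X := by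
  intro hc
  rcases h.2 c hc with h | h
  · exact H.cB h
  · exact H.cR h

theorem LH.inc0 (_ : LH δ lo hi c R B) {X : Finset ι} (h : InC B R X) : InC B (c :: R) X := by
  unfold InC at *; grind

theorem LH.inc1 (_ : LH δ lo hi c R B) {X : Finset ι} (h : InC B R X) :
    InC B (c :: R) (insert c X) := by
  unfold InC at *; grind

theorem LH.low (H : LH δ lo hi c R B) {X : Finset ι} (h : InC B R X) (h' : W δ X ≤ hi) {j : ι}
    (hj : j ∈ R) (hjX : j ∈ X) : W δ X - δ j + δ c < lo := by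
  by_contra hn
  have c1 : InC B R (X.erase j) := by
    have := H.fr.2 j hj
    unfold InC at *; grind
  have := H.tQ _ c1 j hj (by simp) (by rw [W_erase hjX]; linarith)
  rw [W_erase hjX] at this
  linarith

theorem LH.fib_isV (H : LH δ lo hi c R B) {y v : Vx ι} (hy : IsV δ (lo - δ c) hi B R y)
    (h : Fib δ lo hi c R y v) : IsV δ lo hi B (c :: R) v := by
  obtain ⟨X, o⟩ := y
  obtain ⟨cX, hy⟩ := hy
  simp only at cX hy
  have hc := H.cX cX
  have wc := W_insert (δ := δ) hc
  have pc := H.pos c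
  rcases hy with ⟨rfl, h1, h2⟩ | ⟨k, rfl, h1, h2, h3, h4⟩
  · rcases h with (⟨k, h, _⟩ | ⟨_, h, rfl⟩ | ⟨_, h, k, hk, hk', rfl⟩) | ⟨_, h, h', rfl⟩ |
      (⟨k, h, _⟩ | ⟨_, h, rfl⟩ | ⟨_, h, k, hk, hk', rfl⟩)
    · simp at h
    · exact ⟨H.inc0 cX, Or.inl ⟨rfl, h, h2⟩⟩
    · exact ⟨H.inc0 cX, Or.inr ⟨k, rfl, by simp [hk], hk', h, H.tQ _ cX k hk hk' h1⟩⟩
    · exact ⟨H.inc0 cX, Or.inr ⟨c, rfl, by simp, hc, h, h'⟩⟩
    · simp at h
    · exact ⟨H.inc1 cX, Or.inl ⟨rfl, by simp only [wc]; linarith, by simpa [wc] using h⟩⟩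
    · have := H.low cX h2 hk hk'
      have w : W δ ((insert c X).erase k) = W δ X + δ c - δ k := by
        rw [W_erase (by simp only at hk'; simp [hk']), wc]
      refine ⟨?_, Or.inr ⟨k, rfl, by simp [hk], by simp, by simp only [w]; linarith,
        by simp only [w]; simp only at h; linarith⟩⟩
      have := H.fr.2 k hk
      unfold InC at *; grind
  · have hkc : k ≠ c := by rintro rfl; exact H.cR h1
    rcases h with (⟨k', h, rfl⟩ | ⟨h, _⟩ | ⟨h, _⟩) | ⟨h, _⟩ | (⟨k', h, rfl⟩ | ⟨h, _⟩ | ⟨h, _⟩)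
    · obtain rfl : k = k' := by simpa using h
      exact ⟨H.inc0 cX, Or.inr ⟨k, rfl, by simp [h1], h2, by simp only; linarith, h4⟩⟩
    · simp at h
    · simp at h
    · simp at h
    · obtain rfl : k = k' := by simpa using h
      exact ⟨H.inc1 cX, Or.inr ⟨k, rfl, by simp [h1], by simp [h2, hkc],
        by simp only [wc]; linarith, by simp only [wc]; linarith⟩⟩
    · simp at h
    · simp at h

theorem LH.exists_fib (H : LH δ lo hi c R B) {v : Vx ι} (hv : IsV δ lo hi B (c :: R) v) :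
    ∃ y, IsV δ (lo - δ c) hi B R y ∧ Fib δ lo hi c R y v := by
  obtain ⟨X, o⟩ := v
  obtain ⟨cX, hv⟩ := hv
  simp only at cX hv
  have pc := H.pos c
  have lh := H.lh
  by_cases hc : c ∈ X
  · obtain ⟨Y, hY, rfl⟩ : ∃ Y, c ∉ Y ∧ X = insert c Y :=
      ⟨X.erase c, by simp, (Finset.insert_erase hc).symm⟩
    have cY : InC B R Y := by
      have := H.cB
      unfold InC at *; grind
    have wc := W_insert (δ := δ) hY
    rw [wc] at hv
    rcases hv with ⟨rfl, h1, h2⟩ | ⟨k, rfl, h1, h2, h3, h4⟩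
    · exact ⟨(Y, none), ⟨cY, Or.inl ⟨rfl, by simp only; linarith, by simp only; linarith⟩⟩,
        Or.inr (Or.inr (Or.inr (Or.inl ⟨rfl, h2, rfl⟩)))⟩
    · have hkR : k ∈ R := by grind
      have hkY : k ∉ Y := by grind
      have wk := W_insert (δ := δ) hkY
      by_cases e : hi < W δ Y + δ k
      · exact ⟨(Y, some k), ⟨cY, Or.inr ⟨k, rfl, hkR, hkY, by simp only; linarith, e⟩⟩,
          Or.inr (Or.inr (Or.inl ⟨k, rfl, rfl⟩))⟩
      · refine ⟨(insert k Y, none), ⟨by unfold InC at *; grind, Or.inl ⟨rfl,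
          by simp only [wk]; linarith, by simp only [wk]; linarith⟩⟩,
          Or.inr (Or.inr (Or.inr (Or.inr ⟨rfl, by simp only [wk]; linarith, k, hkR, by simp, ?_⟩)))⟩
        simp only [Prod.mk.injEq, and_true]
        ext i; simp only [Finset.mem_erase, Finset.mem_insert]; grind
  · have cY : InC B R X := by unfold InC at *; grind
    rcases hv with ⟨rfl, h1, h2⟩ | ⟨k, rfl, h1, h2, h3, h4⟩
    · exact ⟨(X, none), ⟨cY, Or.inl ⟨rfl, by simp only; linarith, h2⟩⟩,
        Or.inl (Or.inr (Or.inl ⟨rfl, h1, rfl⟩))⟩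
    · by_cases e : k = c
      · subst e
        exact ⟨(X, none), ⟨cY, Or.inl ⟨rfl, by simp only; linarith, by simp only; linarith⟩⟩,
          Or.inr (Or.inl ⟨rfl, h3, h4, rfl⟩)⟩
      have hkR : k ∈ R := by grind
      by_cases e' : W δ X < lo - δ c
      · exact ⟨(X, some k), ⟨cY, Or.inr ⟨k, rfl, hkR, h2, e', h4⟩⟩, Or.inl (Or.inl ⟨k, rfl, rfl⟩)⟩
      · exact ⟨(X, none), ⟨cY, Or.inl ⟨rfl, not_lt.1 e', by simp only; linarith⟩⟩,
          Or.inl (Or.inr (Or.inr ⟨rfl, h3, k, hkR, h2, rfl⟩))⟩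

theorem LH.pr_fib (H : LH δ lo hi c R B) {y v : Vx ι} (hy : IsV δ (lo - δ c) hi B R y)
    (h : Fib δ lo hi c R y v) : pr δ lo hi c v = y := by
  obtain ⟨X, o⟩ := y
  obtain ⟨cX, hy⟩ := hy
  simp only at cX hy
  have hc := H.cX cX
  have ec : (insert c X).erase c = X := Finset.erase_insert hc
  rcases hy with ⟨rfl, h1, h2⟩ | ⟨k, rfl, h1, h2, h3, h4⟩
  · rcases h with (⟨k, h, _⟩ | ⟨_, h, rfl⟩ | ⟨_, h, k, hk, hk', rfl⟩) | ⟨_, h, h', rfl⟩ |
      (⟨k, h, _⟩ | ⟨_, h, rfl⟩ | ⟨_, h, k, hk, hk', rfl⟩)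
    · simp at h
    · simp [pr, hc]
    · simp [pr, hc, not_lt.2 h1]
    · simp [pr, hc]
    · simp at h
    · simp [pr, ec]
    · have hkc : k ≠ c := by rintro rfl; exact H.cR hk
      simp only at hk'
      have e1 : ((insert c X).erase k).erase c = X.erase k := by
        ext i; simp only [Finset.mem_erase, Finset.mem_insert]; grind
      have e2 : ¬ hi < W δ (X.erase k) + δ k := by rw [W_erase hk']; linarith
      have e3 : c ∈ (insert c X).erase k := by simp [hkc.symm]
      simp only [pr, e3, if_true, e1, e2, if_false, Finset.insert_erase hk']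
  · have hkc : k ≠ c := by rintro rfl; exact H.cR h1
    rcases h with (⟨k', h, rfl⟩ | ⟨h, _⟩ | ⟨h, _⟩) | ⟨h, _⟩ | (⟨k', h, rfl⟩ | ⟨h, _⟩ | ⟨h, _⟩)
    · obtain rfl : k = k' := by simpa using h
      simp [pr, hc, hkc, h3]
    · simp at h
    · simp at h
    · simp at h
    · obtain rfl : k = k' := by simpa using h
      simp [pr, ec, h4]
    · simp at h
    · simp at h

theorem LH.fib_uniq (H : LH δ lo hi c R B) {y y' v : Vx ι} (hy : IsV δ (lo - δ c) hi B R y)
    (hy' : IsV δ (lo - δ c) hi B R y') (h : Fib δ lo hi c R y v) (h' : Fib δ lo hi c R y' v) :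
    y = y' := (H.pr_fib hy h).symm.trans (H.pr_fib hy' h')

theorem Part.fib {a : Bool} {y v : Vx ι} (h : Part δ lo hi c R a y v) : Fib δ lo hi c R y v := by
  cases a
  · exact Or.inl h
  · exact Or.inr (Or.inr h)

theorem LH.part0_c (H : LH δ lo hi c R B) {y v : Vx ι} (hy : IsV δ (lo - δ c) hi B R y)
    (h : Part0 δ lo R y v) : c ∉ v.1 ∧ v.2 ≠ some c := by
  have hc := H.cX hy.1
  have := H.cR
  rcases h with ⟨k, h, rfl⟩ | ⟨_, _, rfl⟩ | ⟨_, _, k, hk, _, rfl⟩
  · refine ⟨hc, ?_⟩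
    rcases hy.2 with ⟨h', _⟩ | ⟨k', h1, h2, _⟩
    · simp [h] at h'
    · grind
  · exact ⟨hc, by simp⟩
  · exact ⟨hc, by grind⟩

theorem LH.part1_c (H : LH δ lo hi c R B) {y v : Vx ι} (h : Part1 δ hi c R y v) : c ∈ v.1 := by
  have := H.cR
  rcases h with ⟨k, h, rfl⟩ | ⟨_, _, rfl⟩ | ⟨_, _, k, hk, _, rfl⟩
  · simp
  · simp
  · grind

theorem LH.part0_up (H : LH δ lo hi c R B) {y v : Vx ι} (hy : IsV δ (lo - δ c) hi B R y)
    (h0 : y.2 = none) (h1 : W δ y.1 < lo) (h : Part0 δ lo R y v) : Up δ lo hi y.1 v := by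
  rcases h with ⟨k, h, rfl⟩ | ⟨_, h, rfl⟩ | ⟨_, _, k, hk, hk', rfl⟩
  · simp [h0] at h
  · linarith
  · refine ⟨k, hk', Or.inl ⟨H.tQ _ hy.1 k hk hk' ?_, rfl⟩⟩
    rcases hy.2 with ⟨_, h, _⟩ | ⟨k', h, _⟩
    · exact h
    · simp [h0] at h

theorem LH.cen_up (H : LH δ lo hi c R B) {y v : Vx ι} (hy : IsV δ (lo - δ c) hi B R y)
    (h : Cen δ lo hi c y v) : Up δ lo hi y.1 v :=
  ⟨c, H.cX hy.1, Or.inl ⟨h.2.2.1, h.2.2.2⟩⟩

theorem LH.part1_up (H : LH δ lo hi c R B) {y v : Vx ι} (hy : IsV δ (lo - δ c) hi B R y)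
    (h0 : y.2 = none) (h1 : W δ y.1 + δ c ≤ hi) (h : Part1 δ hi c R y v) :
    Up δ lo hi y.1 v ∧ v = (insert c y.1, none) := by
  rcases h with ⟨k, h, rfl⟩ | ⟨_, h, rfl⟩ | ⟨_, h, _⟩
  · simp [h0] at h
  · refine ⟨⟨c, H.cX hy.1, Or.inr ⟨?_, h, rfl⟩⟩, rfl⟩
    rcases hy.2 with ⟨_, h, _⟩ | ⟨k', h, _⟩
    · linarith
    · simp [h0] at h
  · linarith

theorem LH.part1_dn (H : LH δ lo hi c R B) {y v : Vx ι} (hy : IsV δ (lo - δ c) hi B R y)
    (h0 : y.2 = none) (h1 : hi < W δ y.1 + δ c) (h : Part1 δ hi c R y v) :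
    Dn δ lo hi (insert c y.1) v := by
  rcases h with ⟨k, h, rfl⟩ | ⟨_, h, rfl⟩ | ⟨_, _, k, hk, hk', rfl⟩
  · simp [h0] at h
  · linarith
  · refine ⟨k, by simp [hk'], Or.inl ⟨?_, rfl⟩⟩
    rw [W_insert (H.cX hy.1)]
    rcases hy.2 with ⟨_, _, h⟩ | ⟨k', h, _⟩
    · linarith [H.low hy.1 h hk hk']
    · simp [h0] at h

theorem LH.cen_dn (H : LH δ lo hi c R B) {y v : Vx ι} (hy : IsV δ (lo - δ c) hi B R y)
    (h : Cen δ lo hi c y v) : Dn δ lo hi (insert c y.1) v := by
  refine ⟨c, by simp, Or.inl ⟨?_, ?_⟩⟩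
  · rw [W_insert (H.cX hy.1)]; linarith [h.2.1]
  · rw [Finset.erase_insert (H.cX hy.1)]; exact h.2.2.2

theorem LH.part0_dn (H : LH δ lo hi c R B) {y v : Vx ι} (hy : IsV δ (lo - δ c) hi B R y)
    (h0 : y.2 = none) (h1 : lo ≤ W δ y.1) (h : Part0 δ lo R y v) :
    Dn δ lo hi (insert c y.1) v ∧ v = (y.1, none) ∧ hi < W δ y.1 + δ c := by
  have hc := H.cX hy.1
  rcases h with ⟨k, h, rfl⟩ | ⟨_, h, rfl⟩ | ⟨_, h, _⟩
  · simp [h0] at h
  · refine ⟨⟨c, by simp, Or.inr ⟨?_, ?_, ?_⟩⟩, rfl, H.tP _ (H.inc0 hy.1) c (by simp) hc h1⟩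
    · rw [W_insert hc]; linarith
    · rw [W_insert hc]
      rcases hy.2 with ⟨_, _, h⟩ | ⟨k', h, _⟩
      · linarith
      · simp [h0] at h
    · rw [Finset.erase_insert hc]
  · linarith

theorem part_twin {y v : Vx ι} {k : ι} (h0 : y.2 = some k) {a : Bool}
    (h : Part δ lo hi c R a y v) : v = (sd a c y.1, some k) := by
  cases a
  · rcases h with ⟨k', h, rfl⟩ | ⟨h, _⟩ | ⟨h, _⟩ <;> simp_all
  · rcases h with ⟨k', h, rfl⟩ | ⟨h, _⟩ | ⟨h, _⟩ <;> simp_all

/-- Each part together with the centre is a clique. -/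
theorem LH.clique (H : LH δ lo hi c R B) {y u v : Vx ι} (hy : IsV δ (lo - δ c) hi B R y)
    (a : Bool) (hu : Part δ lo hi c R a y u ∨ Cen δ lo hi c y u)
    (hv : Part δ lo hi c R a y v ∨ Cen δ lo hi c y v) (ne : u ≠ v) : Adj δ lo hi u v := by
  have vu : IsV δ lo hi B (c :: R) u :=
    H.fib_isV hy (hu.elim Part.fib (fun h => Or.inr (Or.inl h)))
  have vv : IsV δ lo hi B (c :: R) v :=
    H.fib_isV hy (hv.elim Part.fib (fun h => Or.inr (Or.inl h)))
  cases h0 : y.2 with
  | some k =>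
    exfalso
    rcases hu with hu | hu
    · rcases hv with hv | hv
      · exact ne ((part_twin h0 hu).trans (part_twin h0 hv).symm)
      · simp [Cen, h0] at hv
    · simp [Cen, h0] at hu
  | none =>
    cases a
    · by_cases h1 : W δ y.1 < lo
      · exact up_adj H.pos H.tP vu vv h1 (hu.elim (H.part0_up hy h0 h1) (H.cen_up hy))
          (hv.elim (H.part0_up hy h0 h1) (H.cen_up hy)) ne
      · exfalso
        rcases hu with hu | hu
        · rcases hv with hv | hv
          · exact ne ((H.part0_dn hy h0 (not_lt.1 h1) hu).2.1.trans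
              (H.part0_dn hy h0 (not_lt.1 h1) hv).2.1.symm)
          · exact h1 hv.2.1
        · exact h1 hu.2.1
    · by_cases h1 : hi < W δ y.1 + δ c
      · exact dn_adj H.pos H.lh H.tP vu vv (by rw [W_insert (H.cX hy.1)]; exact h1)
          (hu.elim (H.part1_dn hy h0 h1) (H.cen_dn hy))
          (hv.elim (H.part1_dn hy h0 h1) (H.cen_dn hy)) ne
      · exfalso
        rcases hu with hu | hu
        · rcases hv with hv | hv
          · exact ne ((H.part1_up hy h0 (not_lt.1 h1) hu).2.trans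
              (H.part1_up hy h0 (not_lt.1 h1) hv).2.symm)
          · exact h1 hv.2.2.1
        · exact h1 hu.2.2.1

theorem LH.port (H : LH δ lo hi c R B) {X : Finset ι} {k l : ι}
    (F : Face δ (lo - δ c) hi R B X k l) (a : Bool) :
    Part δ lo hi c R a (pt δ (lo - δ c) hi X k l) (pt δ lo hi (sd a c X) k l) := by
  have hc := H.cX F.inc
  have wc := W_insert (δ := δ) hc
  have wk := W_insert (δ := δ) F.kX
  have pc := H.pos c
  have lh := H.lh
  have hkc : k ≠ c := by rintro rfl; exact H.cR F.kR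
  have hl : l ∉ insert k X := by simp [F.lX, F.ne.symm]
  rcases pt_cases (δ := δ) (lo := lo - δ c) (hi := hi) X k l with
    ⟨h, e⟩ | ⟨h, h', e⟩ | ⟨h, h', e⟩ <;> rw [e] <;> cases a
  · exact Or.inl ⟨k, rfl, pt_pos h⟩
  · exact Or.inl ⟨k, rfl, pt_pos (by simp only [sd_true, wc]; linarith)⟩
  · exact Or.inl ⟨l, rfl, pt_neg lh (by simp only [sd_false]; linarith)⟩
  · refine Or.inl ⟨l, rfl, ?_⟩
    rw [pt_neg lh (by simp only [sd_true, wc]; linarith), sd_true, Finset.insert_comm]
  · by_cases h1 : W δ X + δ k < lo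
    · exact Or.inr (Or.inr ⟨rfl, by simpa [wk] using h1, l, F.lR, hl, pt_neg lh h1⟩)
    · exact Or.inr (Or.inl ⟨rfl, by simpa [wk] using h1, pt_zero (not_lt.1 h1) h'⟩)
  · by_cases h1 : hi < W δ X + δ k + δ c
    · refine Or.inr (Or.inr ⟨rfl, by simpa [wk] using h1, k, F.kR, by simp, ?_⟩)
      rw [pt_pos (by simp only [sd_true, wc]; linarith)]
      simp only [sd_true, Prod.mk.injEq, and_true]
      have := F.kX
      ext i; simp only [Finset.mem_erase, Finset.mem_insert]; grind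
    · refine Or.inr (Or.inl ⟨rfl, by simpa [wk] using h1, ?_⟩)
      rw [pt_zero (by simp only [sd_true, wc]; linarith) (by simp only [sd_true, wc]; linarith),
        sd_true, Finset.insert_comm]

theorem LH.port_adj (H : LH δ lo hi c R B) {X : Finset ι} {k l : ι}
    (F : Face δ (lo - δ c) hi R B X k l) (a : Bool) :
    Adj δ lo hi (pt δ lo hi (sd a c X) k l) (pt δ lo hi (sd a c X) l k) := by
  have hc := H.cX F.inc
  have wc := W_insert (δ := δ) hc
  have pc := H.pos c
  have hkc : k ≠ c := by rintro rfl; exact H.cR F.kR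
  have hlc : l ≠ c := by rintro rfl; exact H.cR F.lR
  have := F.neg
  have := F.pos
  cases a
  · exact ⟨X, k, l, F.ne, F.kX, F.lX, by linarith, F.pos, rfl, rfl⟩
  · exact ⟨insert c X, k, l, F.ne, by simp [hkc, F.kX], by simp [hlc, F.lX], by linarith,
      by linarith, rfl, rfl⟩

theorem LH.rung (H : LH δ lo hi c R B) {X : Finset ι} {k : ι}
    (hy : IsV δ (lo - δ c) hi B R (X, some k)) :
    Adj δ lo hi (X, some k) (insert c X, some k) := by
  have hc := H.cX hy.1
  have pc := H.pos c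
  rcases hy.2 with ⟨h, _⟩ | ⟨k', h, h1, h2, h3, h4⟩
  · simp at h
  · obtain rfl : k = k' := by simpa using h
    simp only at h2 h3 h4 hc
    have hkc : k ≠ c := by rintro rfl; exact H.cR h1
    exact ⟨X, k, c, hkc, h2, hc, by linarith, by linarith, (pt_pos h4).symm,
      (pt_neg H.lh (by linarith)).symm⟩

theorem LH.cen_big (H : LH δ lo hi c R B) (h3 : 3 ≤ R.length) {y v : Vx ι}
    (h : Cen δ lo hi c y v) : Big δ lo hi c R y := by
  have nd := H.fr.1
  obtain ⟨h0, h1, h2, _⟩ := h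
  have k0 : ∀ i j, i ∈ R → j ∈ R → i ≠ j → i ∉ y.1 → j ∉ y.1 → Big δ lo hi c R y :=
    fun i j hi hj ne hi' hj' => ⟨false, _, _, Or.inr (Or.inr ⟨h0, h1, i, hi, hi', rfl⟩),
      Or.inr (Or.inr ⟨h0, h1, j, hj, hj', rfl⟩), by simp [ne]⟩
  have k1 : ∀ i j, i ∈ R → j ∈ R → i ≠ j → i ∈ y.1 → j ∈ y.1 → Big δ lo hi c R y :=
    fun i j hi hj ne hi' hj' => ⟨true, _, _, Or.inr (Or.inr ⟨h0, h2, i, hi, hi', rfl⟩),
      Or.inr (Or.inr ⟨h0, h2, j, hj, hj', rfl⟩), by simp [ne]⟩
  match R, h3, nd, k0, k1 with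
  | i :: j :: l :: t, _, nd, k0, k1 =>
    have n1 : i ≠ j := by grind
    have n2 : i ≠ l := by grind
    have n3 : j ≠ l := by grind
    by_cases a1 : i ∈ y.1 <;> by_cases a2 : j ∈ y.1 <;> by_cases a3 : l ∈ y.1
    · exact k1 i j (by simp) (by simp) n1 a1 a2
    · exact k1 i j (by simp) (by simp) n1 a1 a2
    · exact k1 i l (by simp) (by simp) n2 a1 a3
    · exact k0 j l (by simp) (by simp) n3 a2 a3
    · exact k1 j l (by simp) (by simp) n3 a2 a3
    · exact k0 i l (by simp) (by simp) n2 a1 a3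
    · exact k0 i j (by simp) (by simp) n1 a1 a2
    · exact k0 i j (by simp) (by simp) n1 a1 a2

end Pool.Agent.MP_3fd310_co

end

section

set_option autoImplicit false
set_option linter.unusedSectionVars false

namespace Pool.Agent.MP_3fd310_co

theorem block_nbr {α : Type*} {K : α → Prop} {M L : List α} (h : SInf M L) (hK : ∀ v ∈ M, K v)
    (h2 : 2 ≤ M.length) {u : α} (hu : u ∈ M) : ∃ f, K f ∧ SInf [u, f] L := by
  obtain ⟨f, hf, h3⟩ := exists_nbr hu h2
  exact ⟨f, hK f hf, h3.trans h⟩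

theorem block_tri {α : Type*} {K : α → Prop} {M L : List α} (h : SInf M L) (hK : ∀ v ∈ M, K v)
    (h3 : 3 ≤ M.length) : ∃ p y q, SInf [p, y, q] L ∧ K p ∧ K y ∧ K q := by
  obtain ⟨t, p, y, q, rfl⟩ := three_suffix h3
  exact ⟨p, y, q, (SInf.of_infix ⟨t, [], by simp⟩).trans h, hK _ (by simp), hK _ (by simp),
    hK _ (by simp)⟩

theorem HP.pos {α : Type*} {A : α → α → Prop} {S : α → Prop} {x z : α} {L : List α}
    (h : HP A S x z L) : 1 ≤ L.length := by
  obtain ⟨t, rfl⟩ := h.eq_cons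
  simp

variable {ι : Type*} [DecidableEq ι] [Finite ι]
variable {δ : ι → ℝ} {lo hi : ℝ} {c : ι} {R : List ι} {B : Finset ι}

theorem LH.zig0 (H : LH δ lo hi c R B) {y x z : Vx ι} (hy : IsV δ (lo - δ c) hi B R y)
    (hx : Part0 δ lo R y x) (hz : Part1 δ hi c R y z) :
    ∃ L, HP (Adj δ lo hi) (Fib δ lo hi c R y) x z L ∧ Good δ lo hi c R y L ∧
      (Two δ lo hi c R y → L.length = 2) := by
  have hc := H.cX hy.1
  have pc := H.pos c
  have wc := W_insert (δ := δ) hc
  cases h0 : y.2 with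
  | some k =>
    have e0 : ∀ v, Part0 δ lo R y v → v = (y.1, some k) :=
      fun v hv => part_twin (hi := hi) (c := c) (a := false) h0 hv
    have e1 : ∀ v, Part1 δ hi c R y v → v = (insert c y.1, some k) :=
      fun v hv => part_twin (lo := lo) (a := true) h0 hv
    have hy' : IsV δ (lo - δ c) hi B R (y.1, some k) := by rw [← h0]; exact hy
    have p := (HP.single _ x).append (HP.single _ z)
      (by rw [e0 x hx, e1 z hz]; exact H.rung hy')
      (by
        rintro v rfl rfl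
        exact (H.part0_c hy hx).1 (H.part1_c hz))
    refine ⟨[x] ++ [z], p.congr ?_, ⟨?_, by simp [h0], by simp [h0], ?_⟩, by simp⟩
    · intro v
      constructor
      · rintro (rfl | rfl)
        · exact Or.inl hx
        · exact Or.inr (Or.inr hz)
      · rintro (h | h | h)
        · exact Or.inl ((e0 v h).trans (e0 x hx).symm)
        · simp [Cen, h0] at h
        · exact Or.inr ((e1 v h).trans (e1 z hz).symm)
    · intro k' hk'
      obtain rfl : k = k' := by simpa [h0] using hk'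
      rw [e0 x hx, e1 z hz]
      exact Or.inl (by simp)
    · rintro ⟨a, u, v, hu, hv, ne⟩
      exact absurd ((part_twin h0 hu).trans (part_twin h0 hv).symm) ne
  | none =>
    have hz0 : lo - δ c ≤ W δ y.1 ∧ W δ y.1 ≤ hi := by
      rcases hy.2 with ⟨_, h⟩ | ⟨k, h, _⟩
      · exact h
      · simp [h0] at h
    obtain ⟨x', La, pa⟩ := exists_order_from (A := Adj δ lo hi) hx
      (fun a b ha hb ne => H.clique hy false (Or.inl ha) (Or.inl hb) ne)
    obtain ⟨z', Lb', pb'⟩ := exists_order_from (A := Adj δ lo hi) hz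
      (fun a b ha hb ne => H.clique hy true (Or.inl ha) (Or.inl hb) ne)
    have pb := pb'.rev (adj_symm δ lo hi)
    generalize Lb'.reverse = Lb at pb
    clear pb' Lb'
    have la := pa.pos
    have lb := pb.pos
    have vx' := H.fib_isV hy (Or.inl pa.mem_lt)
    have vz' := H.fib_isV hy (Or.inr (Or.inr pb.mem_hd))
    have nexz : x' ≠ z' := by
      rintro rfl
      exact (H.part0_c hy pa.mem_lt).1 (H.part1_c pb.mem_hd)
    have big0 : ∀ u v, Part0 δ lo R y u → Part0 δ lo R y v → u ≠ v → 2 ≤ La.length :=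
      fun u v hu hv ne => pa.two_le hu hv ne
    have big1 : ∀ u v, Part1 δ hi c R y u → Part1 δ hi c R y v → u ≠ v → 2 ≤ Lb.length :=
      fun u v hu hv ne => pb.two_le hu hv ne
    have two : Two δ lo hi c R y → La.length = 1 ∧ Lb.length = 1 := by
      intro h
      rw [pa.eq_single, pb.eq_single]
      · simp
      · intro a b ha hb
        by_contra ne
        exact h.1 ⟨true, a, b, ha, hb, ne⟩
      · intro a b ha hb
        by_contra ne
        exact h.1 ⟨false, a, b, ha, hb, ne⟩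
    by_cases h1 : W δ y.1 < lo
    · by_cases h2 : hi < W δ y.1 + δ c
      · have hm : Cen δ lo hi c y (y.1, some c) := ⟨h0, h1, h2, rfl⟩
        have p := (pa.append (HP.single _ (y.1, some c))
          (H.clique hy false (Or.inl pa.mem_lt) (Or.inr hm)
            (by rintro rfl; exact (H.part0_c hy pa.mem_lt).2 rfl))
          (by rintro v hv rfl; exact (H.part0_c hy hv).2 rfl)).append pb
          (H.clique hy true (Or.inr hm) (Or.inl pb.mem_hd)
            (by rintro rfl; have := H.part1_c pb.mem_hd; exact hc this))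
          (by
            rintro v (hv | rfl) hv'
            · exact (H.part0_c hy hv).1 (H.part1_c hv')
            · have := H.part1_c hv'; exact hc this)
        have iu : SInf (La ++ [(y.1, some c)]) (La ++ [(y.1, some c)] ++ Lb) :=
          SInf.of_infix ⟨[], Lb, by simp⟩
        have id : SInf ((y.1, some c) :: Lb) (La ++ [(y.1, some c)] ++ Lb) :=
          SInf.of_infix ⟨La, [], by simp⟩
        have ku : ∀ v ∈ La ++ [(y.1, some c)], Up δ lo hi y.1 v := by
          intro v hv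
          rcases List.mem_append.1 hv with hv | hv
          · exact H.part0_up hy h0 h1 ((pa.cov v).1 hv)
          · rw [List.mem_singleton.1 hv]; exact H.cen_up hy hm
        have kd : ∀ v ∈ (y.1, some c) :: Lb, Dn δ lo hi (insert c y.1) v := by
          intro v hv
          rcases List.mem_cons.1 hv with hv | hv
          · rw [hv]; exact H.cen_dn hy hm
          · exact H.part1_dn hy h0 h2 ((pb.cov v).1 hv)
        refine ⟨_, p.congr ?_, ⟨by simp [h0], ?_, ?_, ?_⟩, fun h => absurd hm (h.2 _)⟩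
        · intro v
          constructor
          · rintro ((h | rfl) | h)
            · exact Or.inl h
            · exact Or.inr (Or.inl hm)
            · exact Or.inr (Or.inr h)
          · rintro (h | h | h)
            · exact Or.inl (Or.inl h)
            · exact Or.inl (Or.inr h.2.2.2)
            · exact Or.inr h
        · intro _ _ u hu
          exact block_nbr iu ku (by simp; omega) (by simp [(pa.cov u).2 hu])
        · intro _ _ u hu
          exact block_nbr id kd (by simp; omega) (by simp [(pb.cov u).2 hu])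
        · rintro ⟨a, u, v, hu, hv, ne⟩
          cases a
          · have := big0 u v hu hv ne
            obtain ⟨p, q, r, h3, h4⟩ := block_tri iu ku (by simp; omega)
            exact ⟨p, q, r, h3, Or.inl ⟨y.1, hc, h1, by linarith [hz0.1], h4⟩⟩
          · have := big1 u v hu hv ne
            obtain ⟨p, q, r, h3, h4⟩ := block_tri id kd (by simp; omega)
            exact ⟨p, q, r, h3, Or.inr ⟨insert c y.1, by simp, by linarith, by linarith [hz0.2], h4⟩⟩
      · have h2' := not_lt.1 h2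
        have p := pa.append pb (up_adj H.pos H.tP vx' vz' h1 (H.part0_up hy h0 h1 pa.mem_lt)
          (H.part1_up hy h0 h2' pb.mem_hd).1 nexz)
          (fun v hv hv' => (H.part0_c hy hv).1 (H.part1_c hv'))
        have iu : SInf (La ++ Lb) (La ++ Lb) := SInf.of_infix List.infix_rfl
        have ku : ∀ v ∈ La ++ Lb, Up δ lo hi y.1 v := by
          intro v hv
          rcases List.mem_append.1 hv with hv | hv
          · exact H.part0_up hy h0 h1 ((pa.cov v).1 hv)
          · exact (H.part1_up hy h0 h2' ((pb.cov v).1 hv)).1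
        refine ⟨_, p.congr ?_, ⟨by simp [h0], ?_, fun _ h => absurd h h2, ?_⟩,
          fun h => by simp [two h]⟩
        · intro v
          constructor
          · rintro (h | h)
            · exact Or.inl h
            · exact Or.inr (Or.inr h)
          · rintro (h | h | h)
            · exact Or.inl h
            · exact absurd h.2.2.1 h2
            · exact Or.inr h
        · intro _ _ u hu
          exact block_nbr iu ku (by simp; omega) (by simp [(pa.cov u).2 hu])
        · rintro ⟨a, u, v, hu, hv, ne⟩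
          cases a
          · have := big0 u v hu hv ne
            obtain ⟨p, q, r, h3, h4⟩ := block_tri iu ku (by simp; omega)
            exact ⟨p, q, r, h3, Or.inl ⟨y.1, hc, h1, by linarith [hz0.1], h4⟩⟩
          · exact absurd ((H.part1_up hy h0 h2' hu).2.trans (H.part1_up hy h0 h2' hv).2.symm) ne
    · have h1' := not_lt.1 h1
      have h2 := (H.part0_dn hy h0 h1' hx).2.2
      have p := pa.append pb (dn_adj H.pos H.lh H.tP vx' vz' (by rw [wc]; exact h2)
        (H.part0_dn hy h0 h1' pa.mem_lt).1 (H.part1_dn hy h0 h2 pb.mem_hd) nexz)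
        (fun v hv hv' => (H.part0_c hy hv).1 (H.part1_c hv'))
      have iu : SInf (La ++ Lb) (La ++ Lb) := SInf.of_infix List.infix_rfl
      have kd : ∀ v ∈ La ++ Lb, Dn δ lo hi (insert c y.1) v := by
        intro v hv
        rcases List.mem_append.1 hv with hv | hv
        · exact (H.part0_dn hy h0 h1' ((pa.cov v).1 hv)).1
        · exact H.part1_dn hy h0 h2 ((pb.cov v).1 hv)
      refine ⟨_, p.congr ?_, ⟨by simp [h0], fun _ h => absurd h h1, ?_, ?_⟩,
        fun h => by simp [two h]⟩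
      · intro v
        constructor
        · rintro (h | h)
          · exact Or.inl h
          · exact Or.inr (Or.inr h)
        · rintro (h | h | h)
          · exact Or.inl h
          · exact absurd h.2.1 h1
          · exact Or.inr h
      · intro _ _ u hu
        exact block_nbr iu kd (by simp; omega) (by simp [(pb.cov u).2 hu])
      · rintro ⟨a, u, v, hu, hv, ne⟩
        cases a
        · exact absurd ((H.part0_dn hy h0 h1' hu).2.1.trans (H.part0_dn hy h0 h1' hv).2.1.symm) ne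
        · have := big1 u v hu hv ne
          obtain ⟨p, q, r, h3, h4⟩ := block_tri iu kd (by simp; omega)
          exact ⟨p, q, r, h3, Or.inr ⟨insert c y.1, by simp, by linarith, by linarith [hz0.2], h4⟩⟩

theorem LH.zig (H : LH δ lo hi c R B) {y x z : Vx ι} (hy : IsV δ (lo - δ c) hi B R y) (a : Bool)
    (hx : Part δ lo hi c R a y x) (hz : Part δ lo hi c R (!a) y z) :
    ∃ L, HP (Adj δ lo hi) (Fib δ lo hi c R y) x z L ∧ Good δ lo hi c R y L ∧
      (Two δ lo hi c R y → L.length = 2) := by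
  cases a
  · exact H.zig0 hy hx hz
  · obtain ⟨L, h1, h2, h3⟩ := H.zig0 hy hz hx
    exact ⟨L.reverse, h1.rev (adj_symm δ lo hi), h2.mono (SInf.of_infix List.infix_rfl).rev,
      by simpa using h3⟩

theorem LH.part_disj (H : LH δ lo hi c R B) {y v : Vx ι} (hy : IsV δ (lo - δ c) hi B R y)
    (a : Bool) (h : Part δ lo hi c R a y v) (h' : Part δ lo hi c R (!a) y v) : False := by
  cases a
  · exact (H.part0_c hy h).1 (H.part1_c h')
  · exact (H.part0_c hy h').1 (H.part1_c h)

theorem LH.part_cen (H : LH δ lo hi c R B) {y v : Vx ι} (hy : IsV δ (lo - δ c) hi B R y)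
    (a : Bool) (h : Part δ lo hi c R a y v) (h' : Cen δ lo hi c y v) : False := by
  cases a
  · exact (H.part0_c hy h).2 (by rw [h'.2.2.2])
  · have := H.part1_c h
    rw [h'.2.2.2] at this
    exact H.cX hy.1 this

theorem fib_iff (a : Bool) (y v : Vx ι) : Fib δ lo hi c R y v ↔
    Part δ lo hi c R a y v ∨ Cen δ lo hi c y v ∨ Part δ lo hi c R (!a) y v := by
  cases a
  · rfl
  · simp only [Fib, part_true, Bool.not_true, part_false]; tauto

theorem LH.host (H : LH δ lo hi c R B) {y x r r' z w w' : Vx ι} {S : Vx ι → Prop}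
    {M : List (Vx ι)} (hy : IsV δ (lo - δ c) hi B R y) (a : Bool)
    (hx : Part δ lo hi c R a y x) (hr : Part δ lo hi c R a y r)
    (hr' : Part δ lo hi c R (!a) y r') (hz : Part δ lo hi c R (!a) y z)
    (n1 : x ≠ r ∨ ∀ v, Part δ lo hi c R a y v → v = x)
    (n2 : r' ≠ z ∨ ∀ v, Part δ lo hi c R (!a) y v → v = r')
    (cb : ∀ v, Cen δ lo hi c y v → Big δ lo hi c R y)
    (hM : HP (Adj δ lo hi) S w w' M) (a1 : Adj δ lo hi r w) (a2 : Adj δ lo hi w' r')
    (d : ∀ v, Fib δ lo hi c R y v → ¬ S v) :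
    ∃ L, HP (Adj δ lo hi) (fun v => Fib δ lo hi c R y v ∨ S v) x z L ∧ SInf M L ∧
      (Two δ lo hi c R y → L.length = M.length + 2) := by
  obtain ⟨La, pa⟩ := exists_order (A := Adj δ lo hi) hx hr n1
    (fun u v hu hv ne => H.clique hy a (Or.inl hu) (Or.inl hv) ne)
  obtain ⟨Lb, pb⟩ := exists_order (A := Adj δ lo hi) hr' hz n2
    (fun u v hu hv ne => H.clique hy (!a) (Or.inl hu) (Or.inl hv) ne)
  have p := (pa.append hM a1 (fun v hv => d v hv.fib)).append pb a2 (by
    rintro v (hv | hv) hv'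
    · exact H.part_disj hy a hv hv'
    · exact d v hv'.fib hv)
  have iM : SInf M (La ++ M ++ Lb) := SInf.of_infix ⟨La, Lb, rfl⟩
  by_cases hc : ∃ m, Cen δ lo hi c y m
  · obtain ⟨m, hm⟩ := hc
    have key : ∃ b u v, Part δ lo hi c R b y u ∧ Part δ lo hi c R b y v ∧
        SInf [u, v] (La ++ M ++ Lb) := by
      obtain ⟨b, u, v, hu, hv, ne⟩ := cb m hm
      by_cases e : b = a
      · subst e
        obtain ⟨f, h1, h2⟩ := block_nbr (L := La ++ M ++ Lb) (M := La)
          (SInf.of_infix ⟨[], M ++ Lb, by simp⟩) (fun v hv => (pa.cov v).1 hv)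
          (pa.two_le hu hv ne) ((pa.cov u).2 hu)
        exact ⟨b, u, f, hu, h1, h2⟩
      · obtain rfl : b = !a := by cases a <;> cases b <;> simp_all
        obtain ⟨f, h1, h2⟩ := block_nbr (L := La ++ M ++ Lb) (M := Lb)
          (SInf.of_infix ⟨La ++ M, [], by simp⟩) (fun v hv => (pb.cov v).1 hv)
          (pb.two_le hu hv ne) ((pb.cov u).2 hu)
        exact ⟨_, u, f, hu, h1, h2⟩
    obtain ⟨b, u, v, hu, hv, e⟩ := key
    obtain ⟨L, q1, q2, _, _⟩ := p.insert (adj_symm δ lo hi) e (HP.single _ m)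
      (H.clique hy b (Or.inl hu) (Or.inr hm) (by rintro rfl; exact H.part_cen hy b hu hm))
      (H.clique hy b (Or.inr hm) (Or.inl hv) (by rintro rfl; exact H.part_cen hy b hv hm))
      (by
        rintro v ((h | h) | h) rfl
        · exact H.part_cen hy a h hm
        · exact d _ (Or.inr (Or.inl hm)) h
        · exact H.part_cen hy _ h hm)
    refine ⟨L, q1.congr ?_, ?_, fun h => absurd hm (h.2 m)⟩
    · intro v
      rw [fib_iff a]
      have : Cen δ lo hi c y v ↔ v = m :=
        ⟨fun h => h.2.2.2.trans hm.2.2.2.symm, fun h => h ▸ hm⟩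
      rw [this]; tauto
    · rcases q2 M iM with h | h
      · exact h
      · exact absurd ((hM.cov u).1 (h.mem (by simp))) (d u hu.fib)
  · refine ⟨_, p.congr ?_, iM, ?_⟩
    · intro v
      rw [fib_iff a]
      have : ¬ Cen δ lo hi c y v := fun h => hc ⟨v, h⟩
      tauto
    · intro h
      rw [pa.eq_single, pb.eq_single]
      · simp
      · intro u v hu hv
        by_contra ne
        exact h.1 ⟨_, u, v, hu, hv, ne⟩
      · intro u v hu hv
        by_contra ne
        exact h.1 ⟨_, u, v, hu, hv, ne⟩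

/-- Zigzag lift of a path. -/
theorem LH.zp (H : LH δ lo hi c R B) {Y : List (Vx ι)} : ∀ {y y' : Vx ι} {S : Vx ι → Prop},
    HP (Adj δ (lo - δ c) hi) S y y' Y → (∀ v, S v → IsV δ (lo - δ c) hi B R v) →
    ∀ (a : Bool) {x z : Vx ι}, Part δ lo hi c R a y x →
      Part δ lo hi c R (xor a Y.length.bodd) y' z →
      ∃ L, HP (Adj δ lo hi) (fun v => ∃ w, S w ∧ Fib δ lo hi c R w v) x z L ∧
        (∀ w, S w → Good δ lo hi c R w L) ∧ ((∀ w, S w → Two δ lo hi c R w) → Even L.length) := by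
  induction Y with
  | nil => intro y y' S h; have := h.hd; simp at this
  | cons y0 t ih =>
    intro y y' S h hV a x z hx hz
    obtain rfl : y0 = y := by simpa using h.hd
    cases t with
    | nil =>
      obtain rfl : y0 = y' := by simpa using h.lt
      have hS : ∀ w, S w ↔ w = y0 := fun w => by rw [← h.cov w]; simp
      obtain ⟨L, h1, h2, h3⟩ := H.zig (hV _ h.mem_hd) a hx (by simpa using hz)
      refine ⟨L, h1.congr ?_, ?_, ?_⟩
      · intro v; simp [hS]
      · intro w hw; rw [(hS w).1 hw]; exact h2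
      · intro hw; rw [h3 (hw _ h.mem_hd)]; exact even_two
    | cons y2 t =>
      obtain ⟨y1, y2', p1, p2, ad, dj⟩ := HP.split (l1 := [y0]) (l2 := y2 :: t) h (by simp) (by simp)
      obtain rfl : y0 = y1 := by simpa using p1.lt
      have hS : ∀ w, S w ↔ w = y0 ∨ w ∈ y2 :: t := fun w => by rw [← h.cov w]; simp
      have hV2 : ∀ v, v ∈ y2 :: t → IsV δ (lo - δ c) hi B R v :=
        fun v hv => hV v ((hS v).2 (Or.inr hv))
      have v0 := hV _ h.mem_hd
      obtain ⟨X, k, l, F, e1, e2⟩ := adj_face v0 (hV2 _ p2.mem_hd) ad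
      obtain ⟨L1, h1, h2, h3⟩ := H.zig v0 a hx (e1 ▸ H.port F (!a))
      obtain ⟨L2, h4, h5, h6⟩ := ih p2 hV2 (!a) (e2 ▸ H.port F.symm (!a)) (z := z)
        (by
          simp only [List.length_cons, Nat.bodd_succ] at hz ⊢
          cases a <;> simpa using hz)
      have p := h1.append h4 (H.port_adj F (!a)) (by
        rintro v hv ⟨w, hw, hw'⟩
        have := H.fib_uniq v0 (hV2 w hw) hv hw'
        subst this
        exact dj _ (by simp) hw)
      refine ⟨L1 ++ L2, p.congr ?_, ?_, ?_⟩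
      · intro v
        simp only [hS]
        constructor
        · rintro (h | ⟨w, hw, hw'⟩)
          · exact ⟨y0, Or.inl rfl, h⟩
          · exact ⟨w, Or.inr hw, hw'⟩
        · rintro ⟨w, rfl | hw, hw'⟩
          · exact Or.inl hw'
          · exact Or.inr ⟨w, hw, hw'⟩
      · intro w hw
        rcases (hS w).1 hw with rfl | hw
        · exact h2.mono (SInf.of_infix ⟨[], L2, by simp⟩)
        · exact (h5 w hw).mono (SInf.of_infix ⟨L1, [], by simp⟩)
      · intro hw
        rw [List.length_append, h3 (hw _ h.mem_hd)]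
        exact even_two.add (h6 (fun w hw' => hw w ((hS w).2 (Or.inr hw'))))

theorem LH.cover (H : LH δ lo hi c R B) (v : Vx ι) :
    (∃ w, IsV δ (lo - δ c) hi B R w ∧ Fib δ lo hi c R w v) ↔ IsV δ lo hi B (c :: R) v :=
  ⟨fun ⟨_, h1, h2⟩ => H.fib_isV h1 h2, H.exists_fib⟩

end Pool.Agent.MP_3fd310_co

end

section

set_option autoImplicit false
set_option linter.unusedSectionVars false

namespace Pool.Agent.MP_3fd310_co

variable {ι : Type*} [DecidableEq ι] [Finite ι]
variable {δ : ι → ℝ} {lo hi : ℝ} {c : ι} {R : List ι} {B : Finset ι}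

theorem three_le {a b d : ι} (ha : a ∈ R) (hb : b ∈ R) (hd : d ∈ R) (h1 : a ≠ b) (h2 : a ≠ d)
    (h3 : b ≠ d) : 3 ≤ R.length := by
  have : ({a, b, d} : Finset ι) ⊆ R.toFinset := by
    intro i; simp only [Finset.mem_insert, Finset.mem_singleton, List.mem_toFinset]; grind
  have h4 := Finset.card_le_card this
  rw [Finset.card_eq_three.2 ⟨a, b, d, h1, h2, h3, rfl⟩] at h4
  exact h4.trans (List.toFinset_card_le R)

theorem four_le {a b d e : ι} (ha : a ∈ R) (hb : b ∈ R) (hd : d ∈ R) (he : e ∈ R) (h1 : a ≠ b)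
    (h2 : a ≠ d) (h3 : b ≠ d) (h4 : a ≠ e) (h5 : b ≠ e) (h6 : d ≠ e) : 4 ≤ R.length := by
  have : ({e, a, b, d} : Finset ι) ⊆ R.toFinset := by
    intro i; simp only [Finset.mem_insert, Finset.mem_singleton, List.mem_toFinset]; grind
  have h7 := Finset.card_le_card this
  rw [Finset.card_insert_of_notMem (by simp [h4.symm, h5.symm, h6.symm]),
    Finset.card_eq_three.2 ⟨a, b, d, h1, h2, h3, rfl⟩] at h7
  exact h7.trans (List.toFinset_card_le R)

theorem adj_irrefl {u : Vx ι} (h : Adj δ lo hi u u) : False := by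
  obtain ⟨X, k, l, h1, h2, h3, h4, h5, h6, h7⟩ := h
  have e := h6.symm.trans h7
  have n1 : X ≠ insert l X := fun h => h3 (h ▸ Finset.mem_insert_self l X)
  have n2 : insert k X ≠ X := fun h => h2 (h ▸ Finset.mem_insert_self k X)
  have n3 : insert k X ≠ insert l X := by
    intro h
    have : k ∈ insert l X := h ▸ Finset.mem_insert_self k X
    simp [h1, h2] at this
  rcases pt_cases (δ := δ) (lo := lo) (hi := hi) X k l with ⟨_, a⟩ | ⟨_, _, a⟩ | ⟨_, _, a⟩ <;>
  rcases pt_cases (δ := δ) (lo := lo) (hi := hi) X l k with ⟨_, b⟩ | ⟨_, _, b⟩ | ⟨_, _, b⟩ <;>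
  rw [a, b] at e <;> simp [h1, n1, n2, n3] at e

theorem face_of_isV {X : Finset ι} {k l : ι} (h1 : k ≠ l) (h2 : k ∉ X) (h3 : l ∉ X)
    (h4 : W δ X < lo) (h5 : hi < W δ X + δ k + δ l) (hu : IsV δ lo hi B R (pt δ lo hi X k l))
    (hv : IsV δ lo hi B R (pt δ lo hi X l k)) : Face δ lo hi R B X k l := by
  have hu1 : ((pt δ lo hi X k l).1 = X ∧ k ∈ R) ∨ (pt δ lo hi X k l).1 = insert k X := by
    rcases pt_cases (δ := δ) (lo := lo) (hi := hi) X k l with ⟨a, e⟩ | ⟨a, b, e⟩ | ⟨a, b, e⟩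
    · left
      rw [e] at hu ⊢
      refine ⟨rfl, ?_⟩
      rcases hu.2 with ⟨h, _⟩ | ⟨k', h, h', _⟩
      · simp at h
      · simp only [Option.some.injEq] at h; exact h ▸ h'
    · right; rw [e]
    · right; rw [e]
  have hv1 : ((pt δ lo hi X l k).1 = X ∧ l ∈ R) ∨ (pt δ lo hi X l k).1 = insert l X := by
    rcases pt_cases (δ := δ) (lo := lo) (hi := hi) X l k with ⟨a, e⟩ | ⟨a, b, e⟩ | ⟨a, b, e⟩
    · left
      rw [e] at hv ⊢
      refine ⟨rfl, ?_⟩
      rcases hv.2 with ⟨h, _⟩ | ⟨k', h, h', _⟩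
      · simp at h
      · simp only [Option.some.injEq] at h; exact h ▸ h'
    · right; rw [e]
    · right; rw [e]
  have cu := hu.1
  have cv := hv.1
  clear hu hv
  have : k ∈ R ∧ l ∈ R ∧ InC B R X := by
    unfold InC at *
    rcases hu1 with ⟨a', a⟩ | a <;> rcases hv1 with ⟨b', b⟩ | b
    · rw [a'] at cu; exact ⟨a, b, cu⟩
    · rw [a'] at cu; rw [b] at cv; grind
    · rw [a] at cu; rw [b'] at cv; grind
    · rw [a] at cu; rw [b] at cv; grind
  exact ⟨h1, h2, h3, this.1, this.2.1, this.2.2, h4, h5⟩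

theorem up_face (hδ : ∀ i, 0 < δ i) (hlh : lo ≤ hi) {S : Finset ι} (hT : Thin δ lo hi B R)
    {f g : Vx ι} (hf : IsV δ lo hi B R f) (hg : IsV δ lo hi B R g) (hS : W δ S < lo)
    (uf : Up δ lo hi S f) (ug : Up δ lo hi S g) (ne : f ≠ g) :
    ∃ j l, Face δ lo hi R B S j l ∧ f = pt δ lo hi S j l ∧ g = pt δ lo hi S l j ∧
      lo ≤ W δ S + δ j := by
  obtain ⟨j, hj, uf⟩ := uf
  obtain ⟨l, hl, ug⟩ := ug
  have hjl : j ≠ l := by
    rintro rfl
    exact ne ((up_pt uf j).trans (up_pt ug j).symm)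
  refine ⟨j, l, face_of_isV hjl hj hl hS ?_ (up_pt uf l ▸ hf) (up_pt ug j ▸ hg), up_pt uf l,
    up_pt ug j, ?_⟩
  · have := hδ j
    have := hδ l
    rcases uf with ⟨h, rfl⟩ | ⟨h, h', rfl⟩
    · linarith
    rcases ug with ⟨h2, rfl⟩ | ⟨h2, h2', rfl⟩
    · linarith
    have c1 := hf.1
    have c2 := hg.1
    have hlR : l ∈ R := by
      unfold InC at c1 c2
      grind
    have := hT _ c1 l hlR (by simp [hl, hjl.symm]) (by rw [W_insert hj]; exact h)
    rwa [W_insert hj] at this
  · rcases uf with ⟨h, _⟩ | ⟨h, _⟩ <;> linarith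

theorem dn_face (hδ : ∀ i, 0 < δ i) (hlh : lo ≤ hi) {T : Finset ι} (hT : Thin δ lo hi B R)
    {f g : Vx ι} (hf : IsV δ lo hi B R f) (hg : IsV δ lo hi B R g) (hS : hi < W δ T)
    (uf : Dn δ lo hi T f) (ug : Dn δ lo hi T g) (ne : f ≠ g) :
    ∃ j l, j ∈ T ∧ l ∈ T ∧ Face δ lo hi R B ((T.erase j).erase l) l j ∧
      f = pt δ lo hi ((T.erase j).erase l) l j ∧ g = pt δ lo hi ((T.erase j).erase l) j l ∧
      f.1 = T.erase j := by
  obtain ⟨j, hj, uf⟩ := uf
  obtain ⟨l, hl, ug⟩ := ug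
  have hjl : j ≠ l := by
    rintro rfl
    apply ne
    rcases uf with ⟨h, rfl⟩ | ⟨h, h', rfl⟩ <;> rcases ug with ⟨h2, rfl⟩ | ⟨h2, h2', rfl⟩ <;>
      first | rfl | linarith
  have e1 : l ∈ T.erase j := by simp [hl, hjl.symm]
  have e2 : W δ ((T.erase j).erase l) = W δ T - δ j - δ l := by
    rw [W_erase e1, W_erase hj]
  have e3 := dn_pt hlh hj hl hjl uf
  have e4 : g = pt δ lo hi ((T.erase j).erase l) j l := by
    rw [Finset.erase_right_comm]
    exact dn_pt hlh hl hj hjl.symm ug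
  refine ⟨j, l, hj, hl, face_of_isV hjl.symm (by simp) (by simp) ?_ (by linarith) (e3 ▸ hf)
    (e4 ▸ hg), e3, e4, ?_⟩
  · have := hδ j
    have := hδ l
    rcases uf with ⟨h, rfl⟩ | ⟨h, h', rfl⟩
    · linarith
    rcases ug with ⟨h2, rfl⟩ | ⟨h2, h2', rfl⟩
    · linarith
    have c1 := hf.1
    have c2 := hg.1
    have hlR : l ∈ R := by
      unfold InC at c1 c2
      grind
    have c3 : InC B R ((T.erase j).erase l) := by
      unfold InC at c1 c2 ⊢
      grind
    by_contra hn
    have := hT _ c3 l hlR (by simp) (not_lt.1 hn)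
    linarith
  · rcases uf with ⟨_, rfl⟩ | ⟨_, _, rfl⟩ <;> rfl

theorem pt_none {X : Finset ι} {k l : ι} (h : (pt δ lo hi X k l).2 = none) :
    lo ≤ W δ X + δ k ∧ W δ X + δ k ≤ hi ∧ (pt δ lo hi X k l).1 = insert k X := by
  rcases pt_cases (δ := δ) (lo := lo) (hi := hi) X k l with ⟨a, e⟩ | ⟨a, b, e⟩ | ⟨a, b, e⟩ <;>
    rw [e] at h ⊢
  · simp at h
  · simp at h
  · exact ⟨a, b, rfl⟩

def OK (δ : ι → ℝ) (lo hi : ℝ) (c : ι) (R : List ι) (a : Bool) (y u u' : Vx ι) : Prop :=
  u ≠ u' ∨ ∀ v, Part δ lo hi c R a y v → v = u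

theorem LH.ok0 (H : LH δ lo hi c R B) {X X' : Finset ι} {k l k' l' : ι} {y : Vx ι}
    (F : Face δ (lo - δ c) hi R B X k l) (F' : Face δ (lo - δ c) hi R B X' k' l')
    (e : y = pt δ (lo - δ c) hi X k l) (e' : y = pt δ (lo - δ c) hi X' k' l')
    (h : y.2 = none → l ≠ l' ∨ ∀ m ∈ R, m ∉ y.1 → m = l) :
    OK δ lo hi c R false y (pt δ lo hi X k l) (pt δ lo hi X' k' l') := by
  have hy : IsV δ (lo - δ c) hi B R y := e ▸ F.isV
  have p1 : Part0 δ lo R y (pt δ lo hi X k l) := e ▸ H.port F false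
  cases h0 : y.2 with
  | some m =>
    exact Or.inr fun v hv => (part_twin h0 hv).trans
      (part_twin (hi := hi) (c := c) (a := false) h0 p1).symm
  | none =>
    by_cases h1 : W δ y.1 < lo
    · obtain ⟨a1, a2, a3⟩ := pt_none (e ▸ h0)
      obtain ⟨b1, b2, b3⟩ := pt_none (e' ▸ h0)
      rw [← e] at a3
      rw [← e'] at b3
      have q1 : pt δ lo hi X k l = (y.1, some l) := by
        rw [a3] at h1 ⊢
        exact pt_neg H.lh (by rwa [W_insert F.kX] at h1)
      have q2 : pt δ lo hi X' k' l' = (y.1, some l') := by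
        rw [b3] at h1 ⊢
        exact pt_neg H.lh (by rwa [W_insert F'.kX] at h1)
      rw [q1, q2]
      rcases h h0 with h | h
      · left; simp [h]
      · right
        rintro v (⟨m, hm, _⟩ | ⟨_, hm, _⟩ | ⟨_, _, m, hm, hm', rfl⟩)
        · simp [h0] at hm
        · linarith
        · rw [h m hm hm']
    · exact Or.inr fun v hv => (H.part0_dn hy h0 (not_lt.1 h1) hv).2.1.trans
        (H.part0_dn hy h0 (not_lt.1 h1) p1).2.1.symm

theorem LH.ok1 (H : LH δ lo hi c R B) {X X' : Finset ι} {k l k' l' : ι} {y : Vx ι}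
    (F : Face δ (lo - δ c) hi R B X k l) (F' : Face δ (lo - δ c) hi R B X' k' l')
    (e : y = pt δ (lo - δ c) hi X k l) (e' : y = pt δ (lo - δ c) hi X' k' l')
    (h : y.2 = none → k ≠ k' ∨ ∀ m ∈ R, m ∈ y.1 → m = k) :
    OK δ lo hi c R true y (pt δ lo hi (insert c X) k l) (pt δ lo hi (insert c X') k' l') := by
  have hy : IsV δ (lo - δ c) hi B R y := e ▸ F.isV
  have p1 : Part1 δ hi c R y (pt δ lo hi (insert c X) k l) := e ▸ H.port F true
  cases h0 : y.2 with
  | some m =>
    exact Or.inr fun v hv => (part_twin h0 hv).trans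
      (part_twin (lo := lo) (a := true) h0 p1).symm
  | none =>
    by_cases h1 : hi < W δ y.1 + δ c
    · obtain ⟨a1, a2, a3⟩ := pt_none (e ▸ h0)
      obtain ⟨b1, b2, b3⟩ := pt_none (e' ▸ h0)
      rw [← e] at a3
      rw [← e'] at b3
      have q1 : pt δ lo hi (insert c X) k l = (insert c X, some k) := by
        rw [a3, W_insert F.kX] at h1
        exact pt_pos (by rw [W_insert (H.cX F.inc)]; linarith)
      have q2 : pt δ lo hi (insert c X') k' l' = (insert c X', some k') := by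
        rw [b3, W_insert F'.kX] at h1
        exact pt_pos (by rw [W_insert (H.cX F'.inc)]; linarith)
      rw [q1, q2]
      rcases h h0 with h | h
      · left; simp [h]
      · right
        rintro v (⟨m, hm, _⟩ | ⟨_, hm, _⟩ | ⟨_, _, m, hm, hm', rfl⟩)
        · simp [h0] at hm
        · linarith
        · rw [h m hm hm', a3]
          simp only [Prod.mk.injEq, and_true]
          have := F.kX
          have : k ≠ c := by rintro rfl; exact H.cR F.kR
          ext i; simp only [Finset.mem_erase, Finset.mem_insert]; grind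
    · exact Or.inr fun v hv => (H.part1_up hy h0 (not_lt.1 h1) hv).2.trans
        (H.part1_up hy h0 (not_lt.1 h1) p1).2.symm

theorem same_face {X X' : Finset ι} {k : ι} (h : k ∉ X) (h' : k ∉ X')
    (e : insert k X = insert k X') : X = X' := by
  rw [← Finset.erase_insert h, e, Finset.erase_insert h']

theorem LH.ok3 (H : LH δ lo hi c R B) (h3 : R.length ≤ 3) {X X' : Finset ι} {k l k' l' : ι}
    {y : Vx ι} (F : Face δ (lo - δ c) hi R B X k l) (F' : Face δ (lo - δ c) hi R B X' k' l')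
    (e : y = pt δ (lo - δ c) hi X k l) (e' : y = pt δ (lo - δ c) hi X' k' l')
    (ne : pt δ (lo - δ c) hi X l k ≠ pt δ (lo - δ c) hi X' l' k') (a : Bool) :
    OK δ lo hi c R a y (pt δ lo hi (sd a c X) k l) (pt δ lo hi (sd a c X') k' l') := by
  have key : y.2 = none → y.1 = insert k X ∧ y.1 = insert k' X' ∧ (k ≠ k' ∨ l ≠ l') := by
    intro h0
    obtain ⟨a1, a2, a3⟩ := pt_none (e ▸ h0)
    obtain ⟨b1, b2, b3⟩ := pt_none (e' ▸ h0)
    rw [← e] at a3
    rw [← e'] at b3
    refine ⟨a3, b3, ?_⟩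
    by_contra hn
    push Not at hn
    obtain ⟨rfl, rfl⟩ := hn
    have := same_face F.kX F'.kX (a3.symm.trans b3)
    subst this
    exact ne rfl
  have f1 := F.lX
  have f2 := F.ne
  have f3 := F'.lX
  have f4 := F'.ne
  cases a
  · apply H.ok0 F F' e e'
    intro h0
    obtain ⟨a1, a2, a3⟩ := key h0
    by_contra hn
    push Not at hn
    obtain ⟨rfl, m, hm, hm', hml⟩ := hn
    have b1 : k ∈ y.1 := by simp [a1]
    have b2 : k' ∈ y.1 := by simp [a2]
    have b3 : l ∉ y.1 := by rw [a1]; grind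
    have := four_le F.kR F'.kR F.lR hm (by grind) (by grind) (by grind) (by grind) (by grind)
      (by grind)
    omega
  · apply H.ok1 F F' e e'
    intro h0
    obtain ⟨a1, a2, a3⟩ := key h0
    by_contra hn
    push Not at hn
    obtain ⟨rfl, m, hm, hm', hml⟩ := hn
    have b1 : k ∈ y.1 := by simp [a1]
    have b2 : l' ∉ y.1 := by rw [a2]; grind
    have b3 : l ∉ y.1 := by rw [a1]; grind
    have := four_le F.kR F'.lR F.lR hm (by grind) (by grind) (by grind) (by grind) (by grind)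
      (by grind)
    omega

def Out (δ : ι → ℝ) (lo hi : ℝ) (c : ι) (R : List ι) (B : Finset ι) (g : Vx ι)
    (L : List (Vx ι)) : Prop :=
  Cyc (Adj δ lo hi) (IsV δ lo hi B (c :: R)) L ∧ (Big δ lo hi c R g → Tri δ lo hi c L) ∧
    ((∀ w, IsV δ (lo - δ c) hi B R w → Two δ lo hi c R w) → Even L.length)

theorem LH.lift_even (H : LH δ lo hi c R B) {C : List (Vx ι)}
    (hC : Cyc (Adj δ (lo - δ c) hi) (IsV δ (lo - δ c) hi B R) C) (ev : Even C.length)
    {g : Vx ι} (hg : IsV δ (lo - δ c) hi B R g) : ∃ L, Out δ lo hi c R B g L := by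
  obtain ⟨y, y', p, ad⟩ := hC
  obtain ⟨X, k, l, F, e1, e2⟩ := adj_face p.mem_lt p.mem_hd ad
  have hb : C.length.bodd = false := by
    obtain ⟨m, hm⟩ := ev
    rw [hm]; simp
  obtain ⟨L, h1, h2, h3⟩ := H.zp p (fun _ h => h) false (e2 ▸ H.port F.symm false)
    (z := pt δ lo hi (sd false c X) k l) (by rw [hb, e1]; exact H.port F false)
  exact ⟨L, ⟨_, _, h1.congr H.cover, H.port_adj F false⟩, (h2 g hg).2.2.2, h3⟩

theorem LH.dp (H : LH δ lo hi c R B) (h3 : R.length = 3) {Y : List (Vx ι)} :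
    ∀ {y y' : Vx ι} {S : Vx ι → Prop}, HP (Adj δ (lo - δ c) hi) S y y' Y →
    (∀ v, S v → IsV δ (lo - δ c) hi B R v) → ∀ {X : Finset ι} {k l : ι},
    Face δ (lo - δ c) hi R B X k l → y = pt δ (lo - δ c) hi X k l →
    ¬ S (pt δ (lo - δ c) hi X l k) →
      ∃ L, HP (Adj δ lo hi) (fun v => ∃ w, S w ∧ Fib δ lo hi c R w v)
        (pt δ lo hi (sd false c X) k l) (pt δ lo hi (sd true c X) k l) L ∧
        ((∀ w, S w → Two δ lo hi c R w) → Even L.length) := by
  induction Y with
  | nil => intro y y' S h; have := h.hd; simp at this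
  | cons y0 t ih =>
    intro y y' S h hV X k l F e hn
    obtain rfl : y0 = y := by simpa using h.hd
    cases t with
    | nil =>
      have hS : ∀ w, S w ↔ w = y0 := fun w => by rw [← h.cov w]; simp
      obtain ⟨L, h1, h2, h3⟩ := H.zig (hV _ h.mem_hd) false (e ▸ H.port F false)
        (e ▸ H.port F true)
      refine ⟨L, h1.congr ?_, ?_⟩
      · intro v; simp [hS]
      · intro hw; rw [h3 (hw _ h.mem_hd)]; exact even_two
    | cons y2 t =>
      obtain ⟨y1, y2', p1, p2, ad, dj⟩ := HP.split (l1 := [y0]) (l2 := y2 :: t) h (by simp) (by simp)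
      obtain rfl : y0 = y1 := by simpa using p1.lt
      have hS : ∀ w, S w ↔ w = y0 ∨ w ∈ y2 :: t := fun w => by rw [← h.cov w]; simp
      have hV2 : ∀ v, v ∈ y2 :: t → IsV δ (lo - δ c) hi B R v :=
        fun v hv => hV v ((hS v).2 (Or.inr hv))
      have v0 := hV _ h.mem_hd
      obtain ⟨X2, k2, l2, F2, e1, e2⟩ := adj_face v0 (hV2 _ p2.mem_hd) ad
      obtain ⟨M, h4, h5⟩ := ih p2 hV2 F2.symm e2 (by rw [← e1]; exact dj _ (by simp))
      have ne : pt δ (lo - δ c) hi X l k ≠ pt δ (lo - δ c) hi X2 l2 k2 := by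
        intro h'
        apply hn
        rw [h', ← e2]
        exact (hS _).2 (Or.inr p2.mem_hd)
      obtain ⟨L, h6, _, h8⟩ := H.host v0 false (e ▸ H.port F false) (e1 ▸ H.port F2 false)
        (e1 ▸ H.port F2 true) (e ▸ H.port F true) (H.ok3 h3.le F F2 e e1 ne false)
        (H.ok3 h3.le F2 F e1 e ne.symm true) (fun v hv => H.cen_big h3.ge hv) h4
        (H.port_adj F2 false) (H.port_adj F2.symm true) (by
          rintro v hv ⟨w, hw, hw'⟩
          have := H.fib_uniq v0 (hV2 w hw) hv hw'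
          subst this
          exact dj _ (by simp) hw)
      refine ⟨L, h6.congr ?_, ?_⟩
      · intro v
        simp only [hS]
        constructor
        · rintro (h | ⟨w, hw, hw'⟩)
          · exact ⟨y0, Or.inl rfl, h⟩
          · exact ⟨w, Or.inr hw, hw'⟩
        · rintro ⟨w, rfl | hw, hw'⟩
          · exact Or.inl hw'
          · exact Or.inr ⟨w, hw, hw'⟩
      · intro hw
        rw [h8 (hw _ h.mem_hd)]
        exact (h5 (fun w hw' => hw w ((hS w).2 (Or.inr hw')))).add even_two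

theorem LH.lift_dp (H : LH δ lo hi c R B) (h3 : R.length = 3) {C : List (Vx ι)}
    (hC : Cyc (Adj δ (lo - δ c) hi) (IsV δ (lo - δ c) hi B R) C)
    {g : Vx ι} (hg : IsV δ (lo - δ c) hi B R g) : ∃ L, Out δ lo hi c R B g L := by
  have hgC : g ∈ C := by
    obtain ⟨y, y', p, _⟩ := hC
    exact (p.cov g).2 hg
  obtain ⟨l1, l2, rfl⟩ := List.append_of_mem hgC
  obtain ⟨y, y', p, ad⟩ := hC.rot
  obtain rfl : g = y := by simpa using p.hd
  have hne : l2 ++ l1 ≠ [] := by
    intro h
    have h1 := p.lt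
    rw [List.cons_append, h] at h1
    obtain rfl : g = y' := by simpa using h1
    exact adj_irrefl ad
  obtain ⟨y1, y2, p1, p2, ad2, dj⟩ := HP.split (l1 := [g]) (l2 := l2 ++ l1) p (by simp) hne
  obtain rfl : g = y1 := by simpa using p1.lt
  have hS : ∀ w, IsV δ (lo - δ c) hi B R w ↔ w = g ∨ w ∈ l2 ++ l1 := fun w => by
    rw [← p.cov w]; simp
  have hV2 : ∀ v, v ∈ l2 ++ l1 → IsV δ (lo - δ c) hi B R v := fun v hv => (hS v).2 (Or.inr hv)
  obtain ⟨X, k, l, F, e1, e2⟩ := adj_face hg (hV2 _ p2.mem_hd) ad2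
  obtain ⟨M, h4, h5⟩ := H.dp h3 p2 hV2 F.symm e2 (by rw [← e1]; exact dj _ (by simp))
  obtain ⟨L, h1, h2, h6⟩ := H.zig hg true (e1 ▸ H.port F true) (e1 ▸ H.port F false)
  have q := h1.append h4 (H.port_adj F false) (by
    rintro v hv ⟨w, hw, hw'⟩
    have := H.fib_uniq hg (hV2 w hw) hv hw'
    subst this
    exact dj _ (by simp) hw)
  refine ⟨L ++ M, ⟨_, _, q.congr ?_, H.port_adj F.symm true⟩,
    fun hb => (h2.2.2.2 hb).mono (SInf.of_infix ⟨[], M, by simp⟩), ?_⟩
  · intro v
    rw [← H.cover]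
    simp only [hS]
    constructor
    · rintro (h | ⟨w, hw, hw'⟩)
      · exact ⟨g, Or.inl rfl, h⟩
      · exact ⟨w, Or.inr hw, hw'⟩
    · rintro ⟨w, rfl | hw, hw'⟩
      · exact Or.inl hw'
      · exact Or.inr ⟨w, hw, hw'⟩
  · intro hw
    rw [List.length_append, h6 (hw _ hg)]
    exact even_two.add (h5 (fun w hw' => hw w (hV2 w hw')))

theorem LH.lift_host (H : LH δ lo hi c R B) (h3 : 3 ≤ R.length) {y h p q g : Vx ι}
    {rest : List (Vx ι)}
    (hC : Cyc (Adj δ (lo - δ c) hi) (IsV δ (lo - δ c) hi B R) (y :: h :: rest))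
    (hq : rest.head? = some q) (hp : rest.getLast? = some p) (od : ¬ Even rest.length)
    (hg : IsV δ (lo - δ c) hi B R g) (hgh : h ≠ g) (a : Bool)
    {X1 X2 X3 : Finset ι} {k1 l1 k2 l2 k3 l3 : ι}
    (F1 : Face δ (lo - δ c) hi R B X1 k1 l1) (e1 : h = pt δ (lo - δ c) hi X1 k1 l1)
    (e1' : y = pt δ (lo - δ c) hi X1 l1 k1)
    (F2 : Face δ (lo - δ c) hi R B X2 k2 l2) (e2 : h = pt δ (lo - δ c) hi X2 k2 l2)
    (e2' : p = pt δ (lo - δ c) hi X2 l2 k2)
    (F3 : Face δ (lo - δ c) hi R B X3 k3 l3) (e3 : h = pt δ (lo - δ c) hi X3 k3 l3)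
    (e3' : q = pt δ (lo - δ c) hi X3 l3 k3)
    (o1 : OK δ lo hi c R a h (pt δ lo hi (sd a c X2) k2 l2) (pt δ lo hi (sd a c X1) k1 l1))
    (o2 : OK δ lo hi c R (!a) h (pt δ lo hi (sd (!a) c X1) k1 l1)
      (pt δ lo hi (sd (!a) c X3) k3 l3)) :
    ∃ L, Out δ lo hi c R B g L := by
  obtain ⟨x, z, P, _⟩ := hC
  have hne : rest ≠ [] := by rintro rfl; simp at hq
  obtain ⟨y1, y2, p1, p2, _, dj⟩ := HP.split (l1 := [y, h]) (l2 := rest) P (by simp) hne
  obtain rfl : q = y2 := by have := p2.hd; rw [hq] at this; simpa using this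
  obtain rfl : p = z := by have := p2.lt; rw [hp] at this; simpa using this
  have hyh : y ≠ h := by have := p1.nd; simpa using this
  have hS : ∀ w, IsV δ (lo - δ c) hi B R w ↔ w = y ∨ w = h ∨ w ∈ rest := fun w => by
    rw [← P.cov w]; simp
  have hV2 : ∀ v, v ∈ rest → IsV δ (lo - δ c) hi B R v :=
    fun v hv => (hS v).2 (Or.inr (Or.inr hv))
  have vy : IsV δ (lo - δ c) hi B R y := (hS y).2 (Or.inl rfl)
  have vh : IsV δ (lo - δ c) hi B R h := (hS h).2 (Or.inr (Or.inl rfl))
  obtain ⟨M, m1, m2, m3⟩ := H.zig vy a (e1' ▸ H.port F1.symm a) (e1' ▸ H.port F1.symm (!a))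
  obtain ⟨L1, q1, q2, q3⟩ := H.host vh a (e2 ▸ H.port F2 a) (e1 ▸ H.port F1 a)
    (e1 ▸ H.port F1 (!a)) (e3 ▸ H.port F3 (!a)) o1 o2 (fun v hv => H.cen_big h3 hv) m1
    (H.port_adj F1 a) (H.port_adj F1.symm (!a))
    (fun v hv hv' => hyh (H.fib_uniq vy vh hv' hv))
  have hb : rest.length.bodd = true := by
    obtain ⟨m, hm⟩ := Nat.not_even_iff_odd.1 od
    rw [hm, two_mul]; simp
  obtain ⟨L2, r1, r2, r3⟩ := H.zp p2 hV2 (!a) (e3' ▸ H.port F3.symm (!a))
    (z := pt δ lo hi (sd a c X2) l2 k2)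
    (by rw [hb, e2']; simpa using H.port F2.symm a)
  have s := q1.append r1 (H.port_adj F3 (!a)) (by
    rintro v (hv | hv) ⟨w, hw, hw'⟩
    · have := H.fib_uniq vh (hV2 w hw) hv hw'
      subst this
      exact dj _ (by simp) hw
    · have := H.fib_uniq vy (hV2 w hw) hv hw'
      subst this
      exact dj _ (by simp) hw)
  refine ⟨L1 ++ L2, ⟨_, _, s.congr ?_, H.port_adj F2.symm a⟩, ?_, ?_⟩
  · intro v
    rw [← H.cover]
    simp only [hS]
    constructor
    · rintro ((h' | h') | ⟨w, hw, hw'⟩)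
      · exact ⟨h, Or.inr (Or.inl rfl), h'⟩
      · exact ⟨y, Or.inl rfl, h'⟩
      · exact ⟨w, Or.inr (Or.inr hw), hw'⟩
    · rintro ⟨w, rfl | rfl | hw, hw'⟩
      · exact Or.inl (Or.inr hw')
      · exact Or.inl (Or.inl hw')
      · exact Or.inr ⟨w, hw, hw'⟩
  · intro hb
    rcases (hS g).1 hg with rfl | rfl | hg'
    · exact ((m2.2.2.2 hb).mono q2).mono (SInf.of_infix ⟨[], L2, by simp⟩)
    · exact absurd rfl hgh
    · exact ((r2 g hg').2.2.2 hb).mono (SInf.of_infix ⟨L1, [], by simp⟩)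
  · intro hw
    rw [List.length_append, q3 (hw _ vh), m3 (hw _ vy)]
    exact (even_two.add even_two).add (r3 (fun w hw' => hw w (hV2 w hw')))

theorem up_idx {S : Finset ι} {j j' l l' : ι} (hj : j ∉ S)
    (h : lo ≤ W δ S + δ j) (h' : lo ≤ W δ S + δ j')
    (e : pt δ lo hi S j l = pt δ lo hi S j' l') : j = j' := by
  rcases pt_cases (δ := δ) (lo := lo) (hi := hi) S j l with ⟨_, a⟩ | ⟨_, _, a⟩ | ⟨_, _, a⟩ <;>
  rcases pt_cases (δ := δ) (lo := lo) (hi := hi) S j' l' with ⟨_, b⟩ | ⟨_, _, b⟩ | ⟨_, _, b⟩ <;>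
  rw [a, b] at e <;> first | linarith | (simp at e; done) | skip
  · simpa using e
  · have : j ∈ insert j' S := by
      rw [← (Prod.mk.inj e).1]; simp
    simpa [hj] using this

theorem LH.lift_tri (H : LH δ lo hi c R B) {c2 : ι} (h2 : ∀ k ∈ R, δ c2 ≤ δ k) {C : List (Vx ι)}
    (hC : Cyc (Adj δ (lo - δ c) hi) (IsV δ (lo - δ c) hi B R) C) (od : ¬ Even C.length)
    (tr : Tri δ (lo - δ c) hi c2 C)
    {g : Vx ι} (hg : IsV δ (lo - δ c) hi B R g) : ∃ L, Out δ lo hi c R B g L := by
  have lh' : lo - δ c ≤ hi := by linarith [H.lh, H.pos c]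
  have prep : ∀ {p y h q : Vx ι} {rest : List (Vx ι)},
      Cyc (Adj δ (lo - δ c) hi) (IsV δ (lo - δ c) hi B R) (y :: h :: rest) →
      rest.head? = some q → rest.getLast? = some p →
      IsV δ (lo - δ c) hi B R y ∧ IsV δ (lo - δ c) hi B R h ∧ IsV δ (lo - δ c) hi B R p ∧
        IsV δ (lo - δ c) hi B R q ∧ h ≠ y ∧ h ≠ p ∧ y ≠ p ∧ Adj δ (lo - δ c) hi h q := by
    rintro p y h q rest ⟨x, z, P, _⟩ hq hp
    have mp := List.mem_of_mem_getLast? hp
    have mq := List.mem_of_mem_head? hq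
    have nd := P.nd
    have ch := P.ch
    refine ⟨(P.cov _).1 (by simp), (P.cov _).1 (by simp), (P.cov _).1 (by simp [mp]),
      (P.cov _).1 (by simp [mq]), by grind, by grind, by grind, ?_⟩
    cases rest with
    | nil => simp at hq
    | cons a t =>
      obtain rfl : a = q := by simpa using hq
      simp only [List.isChain_cons_cons] at ch
      exact ch.2.1
  obtain ⟨p0, y0, q0, tr, ⟨S, s1, s2, s3, k1, k2, k3⟩ | ⟨T, s1, s2, s3, k1, k2, k3⟩⟩ := tr
  · obtain ⟨p, y, h, q, rest, c1, c2, c3, kp, ky, kh, hg', hq, len⟩ :=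
      hC.host (adj_symm _ _ _) tr k1 k2 k3 g
    obtain ⟨vy, vh, vp, vq, n1, n2, n3, ad⟩ := prep c1 c2 c3
    obtain ⟨j, l, F1, e1, e1', a1⟩ := up_face H.pos lh' H.tQ vh vy s2 kh ky n1
    obtain ⟨j', l', F2, e2, e2', a2⟩ := up_face H.pos lh' H.tQ vh vp s2 kh kp n2
    obtain rfl : j = j' := up_idx F1.kX a1 a2 (e1.symm.trans e2)
    have hl : l ≠ l' := by rintro rfl; exact n3 (e1'.trans e2'.symm)
    obtain ⟨X, k, m, F3, e3, e3'⟩ := adj_face vh vq ad
    refine H.lift_host (three_le F1.kR F1.lR F2.lR F1.ne F2.ne hl) c1 c2 c3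
      (by rw [← len] at od; intro h; exact od (h.add even_two)) hg hg' false F1 e1 e1' F2 e2 e2'
      F3 e3 e3' (H.ok0 F2 F1 e2 e1 (fun _ => Or.inl hl.symm)) (H.ok1 F1 F3 e1 e3 ?_)
    intro h0
    obtain ⟨b1, b2, b3⟩ := pt_none (e1 ▸ h0)
    obtain ⟨_, _, b4⟩ := pt_none (e3 ▸ h0)
    rw [← e1] at b3
    rw [← e3] at b4
    rcases hq with hq | hq
    · left
      rintro rfl
      have := same_face F1.kX F3.kX (b3.symm.trans b4)
      subst this
      apply hq
      have := h2 m F3.lR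
      refine ⟨m, F3.lX, ?_⟩
      rw [e3']
      rcases pt_cases (δ := δ) (lo := lo - δ c) (hi := hi) S m j with a | ⟨a, _⟩ | a
      · exact Or.inl a
      · linarith
      · exact Or.inr a
    · right
      intro i hi1 hi2
      by_contra hij
      have hiS : i ∈ S := by rw [b3] at hi2; simpa [hij] using hi2
      have hiB := H.fr.2 i hi1
      have w1 : W δ ((insert j S).erase i) = W δ S + δ j - δ i := by
        rw [W_erase (by simp [hiS]), W_insert F1.kX]
      have inc : InC B R ((insert j S).erase i) := (F1.inc.insert F1.kR).erase hiB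
      have f1 := F1.lX
      have f2 := F1.ne
      have hli : l ≠ i := by rintro rfl; exact f1 hiS
      have F : Face δ (lo - δ c) hi R B ((insert j S).erase i) l i := by
        refine ⟨hli, by simp [f1, f2.symm], by simp, F1.lR, hi1, inc, ?_, by linarith [F1.pos]⟩
        by_contra hn
        have := H.tQ _ inc i hi1 (by simp) (not_lt.1 hn)
        linarith
      obtain ⟨t, _, ht⟩ := hq _ F.isV
      have : i ∈ (pt δ (lo - δ c) hi ((insert j S).erase i) l i).1 := by
        rcases ht with ⟨_, ht⟩ | ⟨_, _, ht⟩ <;> rw [ht] <;> simp [hiS]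
      rcases pt_cases (δ := δ) (lo := lo - δ c) (hi := hi) ((insert j S).erase i) l i with
        ⟨_, a⟩ | ⟨_, _, a⟩ | ⟨_, _, a⟩ <;> rw [a] at this <;> simp [hli.symm] at this
  · obtain ⟨p, y, h, q, rest, c1, c2, c3, kp, ky, kh, hg', hq, len⟩ :=
      hC.host (adj_symm _ _ _) tr k1 k2 k3 g
    obtain ⟨vy, vh, vp, vq, n1, n2, n3, ad⟩ := prep c1 c2 c3
    obtain ⟨j, l, hj, hl, F1, e1, e1', a1⟩ := dn_face H.pos lh' H.tQ vh vy s2 kh ky n1
    obtain ⟨j', l', hj', hl', F2, e2, e2', a2⟩ := dn_face H.pos lh' H.tQ vh vp s2 kh kp n2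
    obtain rfl : j = j' := by
      by_contra hn
      have : j ∈ T.erase j' := by simp [hn, hj]
      rw [← a2, a1] at this
      simp at this
    have hll : l ≠ l' := by rintro rfl; exact n3 (e1'.trans e2'.symm)
    obtain ⟨X, k, m, F3, e3, e3'⟩ := adj_face vh vq ad
    refine H.lift_host (three_le F1.lR F1.kR F2.kR F1.ne.symm F2.ne.symm hll) c1 c2 c3
      (by rw [← len] at od; intro h; exact od (h.add even_two)) hg hg' true F1 e1 e1' F2 e2 e2'
      F3 e3 e3' (H.ok1 F2 F1 e2 e1 (fun _ => Or.inl hll.symm)) (H.ok0 F1 F3 e1 e3 ?_)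
    intro h0
    obtain ⟨b1, b2, b3⟩ := pt_none (e1 ▸ h0)
    obtain ⟨b5, b6, b4⟩ := pt_none (e3 ▸ h0)
    rw [← e3] at b4
    have f0 := F1.ne
    have w0 : W δ ((T.erase j).erase l) = W δ T - δ j - δ l := by
      rw [W_erase (by simp [hl, f0]), W_erase hj]
    rcases hq with hq | hq
    · left
      rintro rfl
      apply hq
      have f1 := F3.kX
      have f2 := F3.ne
      have b7 : insert k X = T.erase j := b4.symm.trans a1
      have hk : k ∈ T := by
        have : k ∈ T.erase j := by rw [← b7]; simp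
        exact Finset.mem_of_mem_erase this
      have b8 : insert j X = T.erase k := by
        ext i
        have : i ∈ insert k X ↔ i ∈ T.erase j := by rw [b7]
        simp only [Finset.mem_erase, Finset.mem_insert] at this ⊢
        clear * - this f1 f2 hj hk
        grind
      have w1 : W δ X + δ j = W δ T - δ k := by
        rw [← W_insert F3.lX, b8, W_erase hk]
      have := h2 k F3.kR
      refine ⟨k, hk, ?_⟩
      rw [e3', ← w1, ← b8]
      rcases pt_cases (δ := δ) (lo := lo - δ c) (hi := hi) X j k with ⟨a, _⟩ | ⟨a, _, b⟩ | a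
      · linarith
      · exact Or.inl ⟨a, b⟩
      · exact Or.inr a
    · right
      intro i hi1 hi2
      by_contra hij
      have hiT : i ∉ T := by rw [a1] at hi2; simpa [hij] using hi2
      have t1 := H.tQ _ vh.1 i hi1 hi2 (by rw [a1, W_erase hj]; linarith)
      rw [a1, W_erase hj] at t1
      have F : Face δ (lo - δ c) hi R B ((T.erase j).erase l) i l :=
        ⟨by rintro rfl; exact hiT hl, by simp [hiT], by simp, hi1, F1.kR, F1.inc, F1.neg,
          by linarith⟩
      obtain ⟨t, ht0, ht⟩ := hq _ F.isV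
      rcases pt_cases (δ := δ) (lo := lo - δ c) (hi := hi) ((T.erase j).erase l) i l with
        ⟨_, a⟩ | ⟨_, _, a⟩ | ⟨_, _, a⟩ <;> rw [a] at ht <;>
        rcases ht with ⟨_, ht⟩ | ⟨_, _, ht⟩
      · obtain rfl : i = t := by simpa using (Prod.mk.inj ht).2
        exact hiT ht0
      · simp at ht
      all_goals
        have : i ∈ T.erase t := by rw [← (Prod.mk.inj ht).1]; simp
        exact hiT (Finset.mem_of_mem_erase this)

theorem LH.lift (H : LH δ lo hi c R B) {c2 : ι} (h2 : ∀ k ∈ R, δ c2 ≤ δ k) (hl : 2 ≤ R.length)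
    {C : List (Vx ι)} (hC : Cyc (Adj δ (lo - δ c) hi) (IsV δ (lo - δ c) hi B R) C)
    (h : Even C.length ∨ Tri δ (lo - δ c) hi c2 C ∨ R.length = 3) :
    ∃ L, Cyc (Adj δ lo hi) (IsV δ lo hi B (c :: R)) L ∧
      (Even L.length ∨ Tri δ lo hi c L ∨ R.length = 2) := by
  have key : ∀ g, IsV δ (lo - δ c) hi B R g → ∃ L, Out δ lo hi c R B g L := by
    intro g hg
    by_cases ev : Even C.length
    · exact H.lift_even hC ev hg
    rcases h with h | h | h
    · exact absurd h ev
    · exact H.lift_tri h2 hC ev h hg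
    · exact H.lift_dp h hC hg
  by_cases hb : ∃ g, IsV δ (lo - δ c) hi B R g ∧ Big δ lo hi c R g
  · obtain ⟨g, hg, hb⟩ := hb
    obtain ⟨L, h1, h2, _⟩ := key g hg
    exact ⟨L, h1, Or.inr (Or.inl (h2 hb))⟩
  · obtain ⟨x, z, P, _⟩ := hC
    obtain ⟨L, h1, _, h3⟩ := key x P.mem_hd
    refine ⟨L, h1, ?_⟩
    by_cases h4 : 3 ≤ R.length
    · left
      exact h3 fun w hw => ⟨fun h => hb ⟨w, hw, h⟩, fun v hv => hb ⟨w, hw, H.cen_big h4 hv⟩⟩
    · right; right; omega

end Pool.Agent.MP_3fd310_co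

end

section

set_option autoImplicit false
set_option linter.unusedSectionVars false

namespace Pool.Agent.MP_3fd310_co

variable {ι : Type*} [DecidableEq ι] [Finite ι]

section defs
variable (δ : ι → ℝ) (lo hi : ℝ) (c : ι) (R : List ι) (B : Finset ι)

def IR (L : List (Vx ι)) : Prop :=
  ∀ S, InC B R S → W δ S + δ c < lo → (∀ k ∈ R, k ∉ S → hi < W δ S + δ k) → (∃ k ∈ R, k ∉ S) →
    ∃ k ∈ R, k ∉ S ∧ SInf [(S, some k), (insert c S, some k)] L

def IU (L : List (Vx ι)) : Prop :=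
  ∀ S, InC B R S → W δ S < lo → lo ≤ W δ S + δ c → (∀ k ∈ R, k ∉ S → hi < W δ S + δ k) →
    ∀ k ∈ R, k ∉ S → (S, some k) ∈ L → ∃ f, Up δ lo hi S f ∧ SInf [(S, some k), f] L

def ID (L : List (Vx ι)) : Prop :=
  ∀ S, InC B R S → W δ S ≤ hi → hi < W δ S + δ c → (∀ j ∈ R, j ∈ S → W δ S + δ c - δ j < lo) →
    ∀ j ∈ R, j ∈ S → ((insert c S).erase j, some j) ∈ L →
      ∃ f, Dn δ lo hi (insert c S) f ∧ SInf [((insert c S).erase j, some j), f] L

def Mu : Prop := ∃ X, InC B R X ∧ W δ X < lo ∧ hi < W δ X + δ c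

structure ZOut (x z : Vx ι) (L : List (Vx ι)) : Prop where
  hp : HP (Adj δ lo hi) (IsV δ lo hi B (c :: R)) x z L
  ir : IR δ lo hi c R B L
  iu : IU δ lo hi c R B L
  id : ID δ lo hi c R B L
  cl : Even L.length ∨ Tri δ lo hi c L ∨ (R.length ≤ 2 ∧ Mu δ lo hi c R B)

structure ZH : Prop where
  pos : ∀ i, 0 < δ i
  lh : lo ≤ hi
  cB : c ∉ B
  cR : c ∉ R
  fr : Fresh B R
  le : ∀ k ∈ R, δ c ≤ δ k
  so : R.Pairwise (fun a b => δ a ≤ δ b)
  tP : Thin δ lo hi B (c :: R)
  n1 : W δ B + δ c ≤ hi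
  n2 : lo ≤ W δ (tp B R)

end defs

variable {δ : ι → ℝ} {lo hi : ℝ} {c : ι} {R : List ι} {B : Finset ι}

theorem ZOut.rev {x z : Vx ι} {L : List (Vx ι)} (h : ZOut δ lo hi c R B x z L) :
    ZOut δ lo hi c R B z x L.reverse := by
  refine ⟨h.hp.rev (adj_symm _ _ _), ?_, ?_, ?_, ?_⟩
  · intro S a1 a2 a3 a4
    obtain ⟨k, b1, b2, b3⟩ := h.ir S a1 a2 a3 a4
    exact ⟨k, b1, b2, b3.rev⟩
  · intro S a1 a2 a3 a4 k a5 a6 a7
    obtain ⟨f, b1, b2⟩ := h.iu S a1 a2 a3 a4 k a5 a6 (by simpa using a7)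
    exact ⟨f, b1, b2.rev⟩
  · intro S a1 a2 a3 a4 k a5 a6 a7
    obtain ⟨f, b1, b2⟩ := h.id S a1 a2 a3 a4 k a5 a6 (by simpa using a7)
    exact ⟨f, b1, b2.rev⟩
  · rcases h.cl with h | h | h
    · left; simpa using h
    · right; left; exact h.mono (SInf.of_infix List.infix_rfl).rev
    · right; right; exact h

theorem W_sd {a : Bool} {X : Finset ι} (h : c ∉ X) :
    W δ (sd a c X) = W δ X + cond a (δ c) 0 := by
  cases a
  · simp
  · simp [W_insert h]

theorem tp_perm {σ : List ι} (h : σ.Perm R) (X : Finset ι) : tp X σ = tp X R := by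
  ext i; simp [h.mem_iff]

theorem ZH.fresh (H : ZH δ lo hi c R B) {σ : List ι} (h : σ.Perm R) (a : Bool) :
    Fresh (sd a c B) σ := by
  refine ⟨h.nodup_iff.2 H.fr.1, fun k hk => ?_⟩
  have hk' := h.mem_iff.1 hk
  have := H.fr.2 k hk'
  have : k ≠ c := by rintro rfl; exact H.cR hk'
  cases a <;> simp [*]

theorem ZH.gr_isV (H : ZH δ lo hi c R B) {σ : List ι} (h : σ.Perm R) (a : Bool) :
    IsV δ lo hi B (c :: R) (gr δ lo hi (sd a c B) σ) := by
  have := H.pos c
  have := H.n1
  refine Pool.Agent.MP_3fd310_co.gr_isV (H.fresh h a) (fun k hk => by simp [h.mem_iff.1 hk]) ?_ ?_ ?_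
  · cases a <;> simp [InC] <;> tauto
  · rw [W_sd H.cB]; cases a <;> simp <;> linarith
  · rw [tp_perm h]
    refine H.n2.trans (W_mono H.pos ?_)
    cases a <;> simp <;> tauto

theorem ZH.gr_ne_side (H : ZH δ lo hi c R B) {σ σ' : List ι} (h : σ.Perm R) (h' : σ'.Perm R)
    (a : Bool) : gr δ lo hi (sd a c B) σ ≠ gr δ lo hi (sd (!a) c B) σ' := by
  have k : ∀ σ σ' : List ι, σ.Perm R →
      gr δ lo hi (sd false c B) σ ≠ gr δ lo hi (sd true c B) σ' := by
    intro σ σ' h e
    have h1 := (gr_sub (δ := δ) (lo := lo) (hi := hi) (sd true c B) σ').1 c (by simp)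
    rw [← e] at h1
    rcases (gr_sub (δ := δ) (lo := lo) (hi := hi) (sd false c B) σ).2 c h1 with h2 | h2
    · exact H.cB h2
    · exact H.cR (h.mem_iff.1 h2)
  cases a
  · exact k σ σ' h
  · exact (k σ' σ h').symm

theorem ZH.ctop (H : ZH δ lo hi c R B) : W δ (tp B (c :: R)) = W δ (tp B R) + δ c := by
  have : tp B (c :: R) = insert c (tp B R) := by ext; simp; tauto
  rw [this, W_insert (by simp [H.cB, H.cR])]

theorem clause_of_clique {K : Vx ι → Prop} {L : List (Vx ι)} (h2 : 2 ≤ L.length)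
    (hK : ∀ v ∈ L, K v) :
    Even L.length ∨ ∃ p y q, SInf [p, y, q] L ∧ K p ∧ K y ∧ K q := by
  by_cases h : 3 ≤ L.length
  · exact Or.inr (block_tri (SInf.of_infix List.infix_rfl) hK h)
  · left
    have : L.length = 2 := by omega
    rw [this]; exact even_two

theorem ZH.leaf_bot (H : ZH δ lo hi c R B) (h0 : lo ≤ W δ B + δ c) {σ σ' : List ι}
    (h : σ.Perm R) (h' : σ'.Perm R) (a : Bool) :
    ∃ L, ZOut δ lo hi c R B (gr δ lo hi (sd a c B) σ) (gr δ lo hi (sd (!a) c B) σ') L := by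
  have cB : InC B (c :: R) B := by simp [InC]; tauto
  have hB : W δ B < lo := by
    by_contra hn
    have := H.tP B cB c (by simp) H.cB (not_lt.1 hn)
    linarith [H.n1]
  have up : ∀ v, IsV δ lo hi B (c :: R) v → Up δ lo hi B v := fun v hv =>
    simplexU H.pos H.tP hB (by
      intro k hk _
      rcases List.mem_cons.1 hk with rfl | hk
      · exact h0
      · linarith [H.le k hk]) hv
  have ne := H.gr_ne_side h h' a
  obtain ⟨L, hL⟩ := exists_order (A := Adj δ lo hi) (H.gr_isV h a) (H.gr_isV h' (!a)) (Or.inl ne)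
    (fun u v hu hv ne => up_adj H.pos H.tP hu hv hB (up u hu) (up v hv) ne)
  have l2 := hL.two_le hL.mem_hd hL.mem_lt ne
  have hK : ∀ v ∈ L, Up δ lo hi B v := fun v hv => up v ((hL.cov v).1 hv)
  refine ⟨L, hL, ?_, ?_, ?_, ?_⟩
  · intro S a1 a2
    have := W_mono H.pos a1.1
    linarith
  · intro S a1 a2 _ _ k _ _ a7
    obtain rfl : S = B := by
      obtain ⟨j, _, ⟨_, e⟩ | ⟨_, _, e⟩⟩ := hK _ a7
      · exact (Prod.mk.inj e).1
      · simp at e
    exact block_nbr (SInf.of_infix List.infix_rfl) hK l2 a7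
  · intro S a1 _ _ a4 j a5 a6
    have := a4 j a5 a6
    have := W_mono1 H.pos a1.1 (H.fr.2 j a5) a6
    linarith
  · rcases clause_of_clique l2 hK with h | ⟨p, y, q, h1, h2⟩
    · exact Or.inl h
    · exact Or.inr (Or.inl ⟨p, y, q, h1, Or.inl ⟨B, H.cB, hB, h0, h2⟩⟩)

theorem ZH.leaf_top (H : ZH δ lo hi c R B) (h0 : W δ (tp B R) ≤ hi) {σ σ' : List ι}
    (h : σ.Perm R) (h' : σ'.Perm R) (a : Bool) :
    ∃ L, ZOut δ lo hi c R B (gr δ lo hi (sd a c B) σ) (gr δ lo hi (sd (!a) c B) σ') L := by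
  have ct := H.ctop
  have hB : hi < W δ (tp B (c :: R)) := by
    rw [ct]
    exact H.tP _ (by simp [InC]; tauto) c (by simp) (by simp [H.cB, H.cR]) H.n2
  have dn : ∀ v, IsV δ lo hi B (c :: R) v → Dn δ lo hi (tp B (c :: R)) v := fun v hv =>
    simplexD H.pos H.tP hB (by
      intro k hk
      rcases List.mem_cons.1 hk with rfl | hk
      · linarith
      · linarith [H.le k hk]) hv
  have ne := H.gr_ne_side h h' a
  obtain ⟨L, hL⟩ := exists_order (A := Adj δ lo hi) (H.gr_isV h a) (H.gr_isV h' (!a)) (Or.inl ne)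
    (fun u v hu hv ne => dn_adj H.pos H.lh H.tP hu hv hB (dn u hu) (dn v hv) ne)
  have l2 := hL.two_le hL.mem_hd hL.mem_lt ne
  have hK : ∀ v ∈ L, Dn δ lo hi (tp B (c :: R)) v := fun v hv => dn v ((hL.cov v).1 hv)
  have sub : ∀ S, InC B R S → ∀ i ∈ S, i ∈ tp B R := fun S h i hi => mem_tp.2 (h.2 i hi)
  refine ⟨L, hL, ?_, ?_, ?_, ?_⟩
  · rintro S a1 _ a3 ⟨k, a4, a5⟩
    have := a3 k a4 a5
    have := W_mono1 H.pos (sub S a1) a5 (by simp [a4])
    linarith
  · intro S a1 _ _ a4 k a5 a6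
    have := a4 k a5 a6
    have := W_mono1 H.pos (sub S a1) a6 (by simp [a5])
    linarith
  · intro S a1 _ _ _ j a5 a6 a7
    have e : insert c S = tp B (c :: R) := by
      obtain ⟨i, hi, ⟨_, e⟩ | ⟨_, _, e⟩⟩ := hK _ a7
      · obtain rfl : j = i := by simpa using (Prod.mk.inj e).2
        have e1 := (Prod.mk.inj e).1
        rw [← Finset.insert_erase hi, ← e1, Finset.insert_erase (by simp [a6])]
      · simp at e
    rw [e] at a7 ⊢
    exact block_nbr (SInf.of_infix List.infix_rfl) hK l2 a7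
  · rcases clause_of_clique l2 hK with h | ⟨p, y, q, h1, h2⟩
    · exact Or.inl h
    · exact Or.inr (Or.inl ⟨p, y, q, h1, Or.inr ⟨_, by simp, hB, by linarith, h2⟩⟩)

theorem LH.gr_part (H : LH δ lo hi c R B) (a : Bool) {σ : List ι} : ∀ {X : Finset ι},
    InC B R X → Fresh X σ → (∀ k ∈ σ, k ∈ R) → W δ X < lo - δ c → hi < W δ (tp X σ) →
    Part δ lo hi c R a (gr δ (lo - δ c) hi X σ) (gr δ lo hi (sd a c X) σ) := by
  have pc := H.pos c
  have lh := H.lh
  induction σ with
  | nil => intro X _ _ _ h1 h2; rw [tp_nil] at h2; linarith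
  | cons k σ ih =>
    intro X cX fr hR h1 h2
    have hc := H.cX cX
    have hk : k ∉ X := fr.2 k (by simp)
    have hkR := hR k (by simp)
    have hkc : k ≠ c := by rintro rfl; exact H.cR hkR
    have wk := W_insert (δ := δ) hk
    have wc := W_insert (δ := δ) hc
    have ns : W δ (sd a c X) < lo := by rw [W_sd hc]; cases a <;> simp <;> linarith
    by_cases b1 : hi < W δ X + δ k
    · rw [gr_pos _ h1 b1, gr_pos _ ns (by rw [W_sd hc]; cases a <;> simp <;> linarith)]
      cases a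
      · exact Or.inl ⟨k, rfl, rfl⟩
      · exact Or.inl ⟨k, rfl, rfl⟩
    have b1' := not_lt.1 b1
    rw [gr_step _ h1 b1']
    rw [tp_cons] at h2
    by_cases b2 : W δ X + δ k < lo - δ c
    · rw [gr_step _ ns (by rw [W_sd hc]; cases a <;> simp <;> linarith)]
      have e : insert k (sd a c X) = sd a c (insert k X) := by
        cases a
        · rfl
        · exact Finset.insert_comm _ _ _
      rw [e]
      exact ih (cX.insert hkR) fr.tail (fun j hj => hR j (by simp [hj])) (by linarith) h2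
    have b2' := not_lt.1 b2
    rw [gr_nonneg _ (by linarith : lo - δ c ≤ W δ (insert k X))]
    cases a
    · rw [sd_false, gr_step _ (by linarith) b1']
      by_cases b3 : lo ≤ W δ (insert k X)
      · rw [gr_nonneg _ b3]
        exact Or.inr (Or.inl ⟨rfl, b3, rfl⟩)
      · cases σ with
        | nil => rw [tp_nil] at h2; linarith
        | cons l σ =>
          have hl := fr.tail.2 l (by simp)
          have hlR := hR l (by simp)
          rw [gr_pos _ (not_le.1 b3) (H.tQ _ (cX.insert hkR) l hlR hl (by linarith))]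
          exact Or.inr (Or.inr ⟨rfl, not_le.1 b3, l, hlR, hl, rfl⟩)
    · rw [sd_true] at ns ⊢
      by_cases b3 : hi < W δ (insert c X) + δ k
      · rw [gr_pos _ ns b3]
        refine Or.inr (Or.inr ⟨rfl, by simp only; linarith, k, hkR, by simp, ?_⟩)
        simp only [Prod.mk.injEq, and_true]
        ext i; simp only [Finset.mem_erase, Finset.mem_insert]; clear * - hk hkc; grind
      · have w2 : W δ (insert k (insert c X)) = W δ X + δ c + δ k := by
          rw [W_insert (by simp [hk, hkc]), wc]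
        rw [gr_step _ ns (not_lt.1 b3), gr_nonneg _ (by linarith), Finset.insert_comm]
        exact Or.inr (Or.inl ⟨rfl, by simp only; linarith, rfl⟩)

theorem gr_ne {d : ι} {τ : List ι} (fr : Fresh B (d :: τ)) (hτ : τ ≠ []) (h1 : W δ B < lo)
    (h2 : hi < W δ (tp B (τ ++ [d]))) (hv : IsV δ lo hi B R (gr δ lo hi B (τ ++ [d]))) :
    gr δ lo hi B (τ ++ [d]) ≠ gr δ lo hi B (d :: τ) := by
  intro e
  have hd : d ∉ τ := (List.nodup_cons.1 fr.1).1
  have hdB : d ∉ B := fr.2 d (by simp)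
  obtain ⟨τ1, τ2, e1, sh⟩ := gr_shape (δ := δ) (lo := lo) (hi := hi) (τ := τ ++ [d]) B
  rcases List.eq_nil_or_concat τ2 with rfl | ⟨τ3, x, rfl⟩
  · rw [List.append_nil] at e1
    subst e1
    rcases sh with sh | ⟨k, τ3, h, _⟩
    · rw [sh] at hv
      rcases hv.2 with ⟨_, _, h⟩ | ⟨k, h, _⟩
      · simp only at h; linarith
      · simp at h
    · simp at h
  · rw [List.concat_eq_append, ← List.append_assoc] at e1
    obtain ⟨rfl, e2⟩ := List.append_inj' e1 rfl
    obtain rfl : d = x := by simpa using e2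
    have n1 : d ∉ tp B τ1 := by simp [hdB]; grind
    by_cases b : hi < W δ B + δ d
    · rw [gr_pos _ h1 b] at e
      rw [e] at sh
      rcases sh with sh | ⟨k, τ4, h, sh⟩
      · simp at sh
      · obtain rfl : d = k := by simpa using (Prod.mk.inj sh).2
        have e3 := (Prod.mk.inj sh).1
        cases τ3 with
        | cons y t =>
          obtain rfl : y = d := by simpa using (List.cons.inj h).1
          simp at hd
        | nil =>
          cases τ1 with
          | nil => simp at hτ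
          | cons y t =>
            apply fr.2 y (by simp)
            rw [e3]; simp
    · rw [gr_step _ h1 (not_lt.1 b)] at e
      have := (gr_sub (δ := δ) (lo := lo) (hi := hi) (insert d B) (τ1 ++ τ3)).1 d (by simp)
      rw [← e] at this
      rcases sh with sh | ⟨k, τ4, h, sh⟩ <;> rw [sh] at this <;> exact n1 this

theorem ZH.leaf_zig {d : ι} {R' τ : List ι} (H : ZH δ lo hi c (d :: R') B) (h : τ.Perm R')
    (h1 : W δ B + δ c < lo) (h2 : hi < W δ (tp B (d :: R')))
    (h3 : W δ (tp B R') < lo ∨ hi < W δ B + δ c + δ d) :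
    ∃ π : Bool, ∀ a, ∃ L, ZOut δ lo hi c (d :: R') B (gr δ lo hi (sd a c B) (τ ++ [d]))
      (gr δ lo hi (sd (xor a π) c B) (d :: τ)) L := by
  have pc := H.pos c
  have lh := H.lh
  have lh' : lo - δ c ≤ hi := by linarith
  have hd : ∀ k ∈ d :: R', δ d ≤ δ k := by
    intro k hk
    rcases List.mem_cons.1 hk with rfl | hk
    · exact le_rfl
    · exact (List.pairwise_cons.1 H.so).1 k hk
  have hdB : d ∉ B := H.fr.2 d (by simp)
  have hdR : d ∉ R' := (List.nodup_cons.1 H.fr.1).1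
  have wt : W δ (tp B (d :: R')) = W δ (tp B R') + δ d := by
    have : tp B (d :: R') = insert d (tp B R') := by ext; simp; tauto
    rw [this, W_insert (by simp [hdB, hdR])]
  have tQ : Thin δ (lo - δ c) hi B (d :: R') := by
    intro X cX k hk hkX hX
    have sub : ∀ i ∈ X, i ∈ tp B (d :: R') := fun i hi => mem_tp.2 (cX.2 i hi)
    rcases h3 with h3 | h3
    · by_cases e : ∀ j ∈ tp B (d :: R'), j ∈ insert k X
      · have := W_mono H.pos e
        rw [W_insert hkX] at this
        linarith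
      · push Not at e
        obtain ⟨j, hj, hj'⟩ := e
        simp only [Finset.mem_insert, not_or] at hj'
        have hjR : j ∈ d :: R' := (mem_tp.1 hj).resolve_left (fun h => hj'.2 (cX.1 j h))
        have := W_mono2 H.pos sub hkX (mem_tp.2 (Or.inr hk)) hj'.2 hj (Ne.symm hj'.1)
        have := hd j hjR
        have := H.le k hk
        linarith
    · by_cases e : ∀ j ∈ X, j ∈ B
      · have := W_mono H.pos e
        linarith
      · push Not at e
        obtain ⟨j, hj, hj'⟩ := e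
        have := W_mono1 H.pos cX.1 hj' hj
        have := H.le j ((cX.2 j hj).resolve_left hj')
        have := hd k hk
        linarith
  have L : LH δ lo hi c (d :: R') B := ⟨H.pos, H.lh, H.cB, H.cR, H.fr, H.le, H.tP, tQ⟩
  have cl : ∀ u v, IsV δ (lo - δ c) hi B (d :: R') u → IsV δ (lo - δ c) hi B (d :: R') v →
      u ≠ v → Adj δ (lo - δ c) hi u v := by
    intro u v hu hv ne
    rcases h3 with h3 | h3
    · have dn : ∀ v, IsV δ (lo - δ c) hi B (d :: R') v → Dn δ (lo - δ c) hi (tp B (d :: R')) v :=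
        fun v hv => simplexD H.pos tQ h2 (fun k hk => by linarith [hd k hk]) hv
      exact dn_adj H.pos lh' tQ hu hv h2 (dn u hu) (dn v hv) ne
    · have up : ∀ v, IsV δ (lo - δ c) hi B (d :: R') v → Up δ (lo - δ c) hi B v :=
        fun v hv => simplexU H.pos tQ (by linarith) (fun k hk _ => by linarith [hd k hk]) hv
      exact up_adj H.pos tQ hu hv (by linarith) (up u hu) (up v hv) ne
  have p1 : (τ ++ [d]).Perm (d :: R') := (List.perm_append_singleton d τ).trans (h.cons d)
  have p2 : (d :: τ).Perm (d :: R') := h.cons d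
  have cB : InC B (d :: R') B := by simp [InC]; tauto
  have gv : ∀ σ : List ι, σ.Perm (d :: R') → IsV δ (lo - δ c) hi B (d :: R') (gr δ (lo - δ c) hi B σ) :=
    fun σ hσ => Pool.Agent.MP_3fd310_co.gr_isV (H.fresh hσ false) (fun k hk => hσ.mem_iff.1 hk) cB
      (by linarith) (by rw [tp_perm hσ]; linarith)
  have gp : ∀ σ : List ι, σ.Perm (d :: R') → ∀ a, Part δ lo hi c (d :: R') a
      (gr δ (lo - δ c) hi B σ) (gr δ lo hi (sd a c B) σ) :=
    fun σ hσ a => L.gr_part a cB (H.fresh hσ false) (fun k hk => hσ.mem_iff.1 hk) (by linarith)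
      (by rw [tp_perm hσ]; exact h2)
  obtain ⟨Y, hY⟩ := exists_order (A := Adj δ (lo - δ c) hi) (gv _ p1) (gv _ p2) (by
    by_cases e : τ = []
    · right
      subst e
      obtain rfl : R' = [] := h.symm.eq_nil
      have key : ∀ v, IsV δ (lo - δ c) hi B [d] v → v = (B, some d) := by
        rintro ⟨X, o⟩ ⟨cX, hv⟩
        simp only at cX hv
        rw [tp_nil] at wt
        by_cases hdX : d ∈ X
        · have := W_mono1 H.pos cX.1 hdB hdX
          rcases hv with ⟨_, _, h⟩ | ⟨k, _, _, _, h, _⟩ <;> linarith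
        · obtain rfl : X = B := by
            ext i
            refine ⟨fun hi => (cX.2 i hi).resolve_right ?_, cX.1 i⟩
            intro h
            obtain rfl : i = d := by simpa using h
            exact hdX hi
          rcases hv with ⟨_, h, _⟩ | ⟨k, rfl, h, _⟩
          · linarith
          · simpa using h
      intro v hv
      exact (key v hv).trans (key _ (gv _ p1)).symm
    · left
      exact gr_ne (H.fresh p2 false) e (by linarith) (by rw [tp_perm p1]; exact h2) (gv _ p1)) cl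
  refine ⟨Y.length.bodd, fun a => ?_⟩
  obtain ⟨M, m1, m2, m3⟩ := L.zp hY (fun _ h => h) a (gp _ p1 a) (gp _ p2 _)
  refine ⟨M, m1.congr L.cover, ?_, ?_, ?_, ?_⟩
  · rintro S a1 a2 a3 ⟨k, a4, a5⟩
    exact ⟨k, a4, a5, (m2 (S, some k) ⟨a1, Or.inr ⟨k, rfl, a4, a5, by simp only; linarith,
      a3 k a4 a5⟩⟩).1 k rfl⟩
  · intro S a1 a2 a3 a4 k a5 a6 _
    exact (m2 (S, none) ⟨a1, Or.inl ⟨rfl, by simp only; linarith, by simp only; linarith⟩⟩).2.1
      rfl a2 _ (Or.inr (Or.inr ⟨rfl, a2, k, a5, a6, rfl⟩))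
  · intro S a1 a2 a3 a4 k a5 a6 _
    exact (m2 (S, none) ⟨a1, Or.inl ⟨rfl, by simp only; linarith, a2⟩⟩).2.2.1
      rfl a3 _ (Or.inr (Or.inr ⟨rfl, a3, k, a5, a6, rfl⟩))
  · by_cases hb : ∃ g, IsV δ (lo - δ c) hi B (d :: R') g ∧ Big δ lo hi c (d :: R') g
    · obtain ⟨g, hg, hb⟩ := hb
      exact Or.inr (Or.inl ((m2 g hg).2.2.2 hb))
    by_cases hc : ∃ g v, IsV δ (lo - δ c) hi B (d :: R') g ∧ Cen δ lo hi c g v
    · obtain ⟨g, v, hg, hc⟩ := hc
      refine Or.inr (Or.inr ⟨?_, g.1, hg.1, hc.2.1, hc.2.2.1⟩)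
      by_contra hn
      exact hb ⟨g, hg, L.cen_big (by omega) hc⟩
    · exact Or.inl (m3 fun w hw => ⟨fun h => hb ⟨w, hw, h⟩, fun v hv => hc ⟨w, v, hw, hv⟩⟩)

end Pool.Agent.MP_3fd310_co

end
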